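import Pool.Agent.LThree.Defs

set_option autoImplicit false

/-! L3. The polynomial of a relation. -/

namespace Pool.Agent.LThree

open Module MvPolynomial

variable {ι : Type} [Fintype ι]

private noncomputable def PP (a b : ι → ℕ) : MvPolynomial ι ℚ :=
  ∏ i, X i ^ a i * (1 - X i) ^ b i

private theorem relPoly_eq (u : ι ⊕ ι → ℤ) : relPoly u =
    PP (fun i => (u (Sum.inl i)).toNat) (fun i => (u (Sum.inr i)).toNat) -
      PP (fun i => (-u (Sum.inl i)).toNat) (fun i => (-u (Sum.inr i)).toNat) := rfl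

private theorem aeval_PP {F : Type} [Field F] [Algebra ℚ F] (x : ι → F) (a b : ι → ℕ) :
    aeval x (PP a b) = ∏ i, x i ^ a i * (1 - x i) ^ b i := by
  unfold PP
  rw [map_prod]
  refine Finset.prod_congr rfl fun i _ => ?_
  rw [map_mul, map_pow, map_pow, map_sub, map_one, aeval_X]

open Classical in
private theorem eval_PP (i : ι) (c : ℚ) (hc : c = 0 ∨ c = 1) (a b : ι → ℕ) :
    aeval (fun k => if k = i then c else (1 / 2 : ℚ)) (PP a b) ≠ 0 ↔
      (c = 0 → a i = 0) ∧ (c = 1 → b i = 0) := by
  rw [aeval_PP, Finset.prod_ne_zero_iff]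
  constructor
  · intro h
    have hi := h i (Finset.mem_univ i)
    rw [if_pos rfl] at hi
    constructor
    · rintro rfl
      by_contra h0
      rw [zero_pow h0, zero_mul] at hi
      exact hi rfl
    · rintro rfl
      by_contra h0
      rw [sub_self, zero_pow h0, mul_zero] at hi
      exact hi rfl
  · rintro ⟨h1, h2⟩ k _
    by_cases hk : k = i
    · rw [if_pos hk, hk]
      rcases hc with rfl | rfl
      · rw [h1 rfl]
        norm_num
      · rw [h2 rfl]
        norm_num
    · rw [if_neg hk]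
      norm_num

theorem relPoly_ne_zero (u : ι ⊕ ι → ℤ) (hu : u ≠ 0) : relPoly u ≠ 0 := by
  classical
  obtain ⟨j, hj⟩ := Function.ne_iff.1 hu
  intro h0
  rw [relPoly_eq, sub_eq_zero] at h0
  rw [Pi.zero_apply] at hj
  rcases j with i | i
  · have h1 := eval_PP i 0 (Or.inl rfl) (fun i => (u (Sum.inl i)).toNat)
      (fun i => (u (Sum.inr i)).toNat)
    have h2 := eval_PP i 0 (Or.inl rfl) (fun i => (-u (Sum.inl i)).toNat)
      (fun i => (-u (Sum.inr i)).toNat)
    rw [h0, h2] at h1
    simp only [forall_const, zero_ne_one, IsEmpty.forall_iff, and_true] at h1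
    omega
  · have h1 := eval_PP i 1 (Or.inr rfl) (fun i => (u (Sum.inl i)).toNat)
      (fun i => (u (Sum.inr i)).toNat)
    have h2 := eval_PP i 1 (Or.inr rfl) (fun i => (-u (Sum.inl i)).toNat)
      (fun i => (-u (Sum.inr i)).toNat)
    rw [h0, h2] at h1
    simp only [forall_const, one_ne_zero, IsEmpty.forall_iff, true_and] at h1
    omega

private theorem zpow_split {F : Type} [Field F] {y : F} (hy : y ≠ 0) (z : ℤ) :
    y ^ z * y ^ (-z).toNat = y ^ z.toNat := by
  rw [← zpow_natCast, ← zpow_natCast, ← zpow_add₀ hy]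
  congr 1
  omega

theorem aeval_relPoly {F : Type} [Field F] [Algebra ℚ F] (x : ι → F) (hx : ∀ i, x i ≠ 0 ∧ x i ≠ 1)
    (u : ι ⊕ ι → ℤ) : aeval x (relPoly u) = 0 ↔ mono (co x) u = 1 := by
  have hx1 : ∀ i, (1 - x i) ≠ 0 := fun i => sub_ne_zero.2 (hx i).2.symm
  rw [relPoly_eq, map_sub, aeval_PP, aeval_PP, sub_eq_zero]
  have h1 : mono (co x) u * ∏ i, x i ^ (-u (Sum.inl i)).toNat * (1 - x i) ^ (-u (Sum.inr i)).toNat =
      ∏ i, x i ^ (u (Sum.inl i)).toNat * (1 - x i) ^ (u (Sum.inr i)).toNat := by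
    unfold mono co
    rw [Fintype.prod_sum_type]
    simp only [Sum.elim_inl, Sum.elim_inr]
    rw [← Finset.prod_mul_distrib, ← Finset.prod_mul_distrib]
    refine Finset.prod_congr rfl fun i _ => ?_
    rw [← zpow_split (hx i).1 (u (Sum.inl i)), ← zpow_split (hx1 i) (u (Sum.inr i))]
    ring
  have h2 : ∏ i, x i ^ (-u (Sum.inl i)).toNat * (1 - x i) ^ (-u (Sum.inr i)).toNat ≠ 0 := by
    rw [Finset.prod_ne_zero_iff]
    intro i _
    exact mul_ne_zero (pow_ne_zero _ (hx i).1) (pow_ne_zero _ (hx1 i))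
  rw [← h1]
  constructor
  · intro h
    exact mul_right_cancel₀ h2 (by rw [h, one_mul])
  · intro h
    rw [h, one_mul]

private theorem toNat_le_nrm (u : ι ⊕ ι → ℤ) (j : ι ⊕ ι) :
    (u j).toNat ≤ nrm u ∧ (-u j).toNat ≤ nrm u := by
  have h : (u j).natAbs ≤ nrm u := Finset.le_sup (f := fun i => (u i).natAbs) (Finset.mem_univ j)
  constructor <;> omega

private theorem degreeOf_PP [DecidableEq ι] (a b : ι → ℕ) (i : ι) :
    (PP a b).degreeOf i ≤ a i + b i := by
  unfold PP
  refine (degreeOf_prod_le _ _ _).trans ?_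
  calc ∑ k, degreeOf i (X k ^ a k * (1 - X k : MvPolynomial ι ℚ) ^ b k) ≤
      ∑ k, if k = i then a i + b i else 0 := by
        refine Finset.sum_le_sum fun k _ => ?_
        refine (degreeOf_mul_le _ _ _).trans ?_
        have h1 := degreeOf_pow_le i (X k : MvPolynomial ι ℚ) (a k)
        have h2 := degreeOf_pow_le i (1 - X k : MvPolynomial ι ℚ) (b k)
        have h3 := degreeOf_sub_le i (1 : MvPolynomial ι ℚ) (X k)
        rw [degreeOf_one] at h3
        rw [degreeOf_X] at h1 h3
        by_cases hk : k = i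
        · subst hk
          rw [if_pos rfl] at h1 h3 ⊢
          have h4 : (1 - X k : MvPolynomial ι ℚ).degreeOf k ≤ 1 := by simpa using h3
          have h5 := Nat.mul_le_mul_left (b k) h4
          omega
        · rw [if_neg (fun h => hk h.symm)] at h1 h3
          rw [if_neg hk]
          have h4 : (1 - X k : MvPolynomial ι ℚ).degreeOf i = 0 := by
            have := h3
            simp at this
            exact this
          rw [h4] at h2
          omega
    _ = a i + b i := by simp

theorem degreeOf_relPoly [DecidableEq ι] (u : ι ⊕ ι → ℤ) (i : ι) :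
    (relPoly u).degreeOf i ≤ 2 * nrm u := by
  rw [relPoly_eq]
  refine (degreeOf_sub_le _ _ _).trans (max_le ((degreeOf_PP _ _ _).trans ?_)
    ((degreeOf_PP _ _ _).trans ?_))
  · have h1 := (toNat_le_nrm u (Sum.inl i)).1
    have h2 := (toNat_le_nrm u (Sum.inr i)).1
    omega
  · have h1 := (toNat_le_nrm u (Sum.inl i)).2
    have h2 := (toNat_le_nrm u (Sum.inr i)).2
    omega

private theorem totalDegree_PP (a b : ι → ℕ) (N : ℕ) (ha : ∀ i, a i ≤ N) (hb : ∀ i, b i ≤ N) :
    (PP a b).totalDegree ≤ 2 * Fintype.card ι * N := by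
  unfold PP
  refine (totalDegree_finsetProd _ _).trans ?_
  calc ∑ k, (X k ^ a k * (1 - X k : MvPolynomial ι ℚ) ^ b k).totalDegree ≤ ∑ _k : ι, 2 * N := by
        refine Finset.sum_le_sum fun k _ => ?_
        refine (totalDegree_mul _ _).trans ?_
        have h1 := totalDegree_pow (X k : MvPolynomial ι ℚ) (a k)
        have h2 := totalDegree_pow (1 - X k : MvPolynomial ι ℚ) (b k)
        have h3 := totalDegree_sub (1 : MvPolynomial ι ℚ) (X k)
        rw [totalDegree_X] at h1 h3
        rw [totalDegree_one] at h3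
        have h4 : (1 - X k : MvPolynomial ι ℚ).totalDegree ≤ 1 := by simpa using h3
        have h5 := Nat.mul_le_mul_left (b k) h4
        have := ha k
        have := hb k
        omega
    _ = 2 * Fintype.card ι * N := by
        rw [Finset.sum_const, Finset.card_univ, smul_eq_mul]
        ring

theorem totalDegree_relPoly (u : ι ⊕ ι → ℤ) :
    (relPoly u).totalDegree ≤ 2 * Fintype.card ι * nrm u := by
  rw [relPoly_eq]
  exact (totalDegree_sub _ _).trans (max_le
    (totalDegree_PP _ _ _ (fun i => (toNat_le_nrm u _).1) fun i => (toNat_le_nrm u _).1)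
    (totalDegree_PP _ _ _ (fun i => (toNat_le_nrm u _).2) fun i => (toNat_le_nrm u _).2))

end Pool.Agent.LThree
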