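import Pool.Agent.LThree.Defs

set_option autoImplicit false

/-! L2b. Northcott's theorem with relations. -/

namespace Pool.Agent.LThree

open NumberField Height Real Module

/-- the finite set of all conjugates of algebraic integers of house at most `A` -/
private theorem north_finite (D : ℕ) (A : ℝ) (hA : 1 ≤ A) : ∃ Z : Set ℂ, Z.Finite ∧
    ∀ (K : Type) [Field K] [NumberField K], finrank ℚ K ≤ D → ∀ x : K, IsIntegral ℤ x →
      (∀ φ : K →+* ℂ, ‖φ x‖ ≤ A) → ∀ φ : K →+* ℂ, φ x ∈ Z := by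
  classical
  refine ⟨⋃ (f : Polynomial ℤ) (_ : f.natDegree ≤ D ∧ ∀ i, f.coeff i ∈
      Set.Icc (-(⌈(A * 2) ^ D⌉₊ : ℤ)) (⌈(A * 2) ^ D⌉₊ : ℤ)),
        ((f.map (algebraMap ℤ ℂ)).roots.toFinset : Set ℂ),
    Polynomial.bUnion_roots_finite (algebraMap ℤ ℂ) D (Set.finite_Icc _ _), ?_⟩
  intro K _ _ hD x hx hx2 φ
  simp_rw [Set.mem_iUnion]
  have hm := minpoly.isIntegrallyClosed_eq_field_fractions' ℚ hx
  refine ⟨minpoly ℤ x, ⟨?_, fun i => ?_⟩, ?_⟩
  · rw [← (minpoly.monic hx).natDegree_map (algebraMap ℤ ℚ), ← hm]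
    exact (minpoly.natDegree_le x).trans hD
  · rw [Set.mem_Icc, ← abs_le, ← @Int.cast_le ℝ]
    refine (Eq.trans_le ?_ <| Embeddings.coeff_bdd_of_norm_le hx2 i).trans ?_
    · rw [hm, Polynomial.coeff_map, eq_intCast, Int.norm_cast_rat, Int.norm_eq_abs, Int.cast_abs]
    · have h1 : ((finrank ℚ K).choose (finrank ℚ K / 2) : ℝ) ≤ 2 ^ finrank ℚ K := by
        have := Nat.choose_le_two_pow (finrank ℚ K) (finrank ℚ K / 2)
        exact_mod_cast this
      rw [max_eq_left hA]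
      calc A ^ finrank ℚ K * (finrank ℚ K).choose (finrank ℚ K / 2)
          ≤ A ^ finrank ℚ K * 2 ^ finrank ℚ K := by gcongr
        _ = (A * 2) ^ finrank ℚ K := by rw [← mul_pow]
        _ ≤ (A * 2) ^ D := pow_le_pow_right₀ (by linarith) hD
        _ ≤ (⌈(A * 2) ^ D⌉₊ : ℝ) := Nat.le_ceil _
        _ = ((⌈(A * 2) ^ D⌉₊ : ℤ) : ℝ) := by push_cast; rfl
  · rw [Finset.mem_coe, Multiset.mem_toFinset, Polynomial.mem_roots']
    refine ⟨?_, ?_⟩
    · rw [Polynomial.map_ne_zero_iff]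
      · exact minpoly.ne_zero hx
      · exact (algebraMap ℤ ℂ).injective_int
    · rw [Polynomial.IsRoot.def, Polynomial.eval_map, Subsingleton.elim (algebraMap ℤ ℂ)
        (φ.comp (algebraMap ℤ K)), ← Polynomial.hom_eval₂]
      have h2 : Polynomial.eval₂ (algebraMap ℤ K) x (minpoly ℤ x) = 0 := minpoly.aeval ℤ x
      rw [h2, map_zero]

private theorem north_inf_le {K : Type} [Field K] [NumberField K] (γ : K)
    (v : InfinitePlace K) : log (v γ) ≤ logHeight₁ γ := by
  rw [NumberField.logHeight₁_eq]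
  have h1 : (v.mult : ℝ) * log⁺ (v γ) ≤
      ∑ v : InfinitePlace K, (v.mult : ℝ) * log⁺ (v γ) :=
    Finset.single_le_sum (f := fun v : InfinitePlace K => (v.mult : ℝ) * log⁺ (v γ))
      (fun w _ => mul_nonneg (Nat.cast_nonneg _) posLog_nonneg) (Finset.mem_univ v)
  have h2 : (1 : ℝ) ≤ v.mult := by exact_mod_cast InfinitePlace.one_le_mult
  have h3 : log⁺ (v γ) ≤ (v.mult : ℝ) * log⁺ (v γ) := by
    calc log⁺ (v γ) = 1 * log⁺ (v γ) := (one_mul _).symm
      _ ≤ _ := mul_le_mul_of_nonneg_right h2 posLog_nonneg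
  have h4 : log (v γ) ≤ log⁺ (v γ) := le_max_right _ _
  have h5 : 0 ≤ ∑ᶠ v : FinitePlace K, log⁺ (v γ) := finsum_nonneg fun _ => posLog_nonneg
  linarith

/-- The images in `ℂ` of all numbers of degree at most `D` and relative height at most `B` form a
finite set. Proof: `NumberField.exists_nat_le_mulHeight₁` gives `n ≤ exp B`, `n ≠ 0`, with `a = n x`
integral; every `‖φ a‖ ≤ n * mulHeight₁ x ≤ exp (2 B)`; so the minimal polynomial of `a` has
bounded degree and coefficients (`Embeddings.coeff_bdd_of_norm_le`), exactly as in the private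
theorem `deg_finite` of `MinHt/Deg.lean` (with `exp (2 B)` instead of `2`); and `φ x = φ a / n`. -/
theorem northcott_set (D : ℕ) (B : ℝ) : ∃ Z : Set ℂ, Z.Finite ∧
    ∀ (K : Type) [Field K] [NumberField K], finrank ℚ K ≤ D → ∀ x : K,
      logHeight₁ x ≤ B → ∀ φ : K →+* ℂ, φ x ∈ Z := by
  classical
  rcases lt_or_ge B 0 with hB | hB
  · refine ⟨∅, Set.finite_empty, ?_⟩
    intro K _ _ _ x hx φ
    exact absurd ((zero_le_logHeight₁ x).trans hx) (not_le.2 hB)
  obtain ⟨Z, hZ, hZK⟩ := north_finite D (exp (2 * B)) (Real.one_le_exp (by linarith))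
  refine ⟨⋃ n ∈ Finset.range (⌊exp B⌋₊ + 1), (fun z : ℂ => z / n) '' Z, ?_, ?_⟩
  · exact Set.Finite.biUnion (Finset.finite_toSet _) fun n _ => hZ.image _
  intro K _ _ hD x hx φ
  obtain ⟨n, hn0, hn1, hn⟩ := exists_nat_le_mulHeight₁ x
  have hmh : mulHeight₁ x ≤ exp B := by
    have h1 : exp (logHeight₁ x) = mulHeight₁ x := by
      rw [logHeight₁]
      exact Real.exp_log (zero_lt_one.trans_le (one_le_mulHeight₁ x))
    rw [← h1]
    exact Real.exp_le_exp.2 hx
  have hnB : (n : ℝ) ≤ exp B := hn1.trans hmh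
  have hnorm : ∀ ψ : K →+* ℂ, ‖ψ (n * x)‖ ≤ exp (2 * B) := by
    intro ψ
    have h1 : ‖ψ x‖ ≤ exp B := by
      rcases eq_or_ne x 0 with h0 | h0
      · rw [h0, map_zero, norm_zero]
        exact (Real.exp_pos B).le
      · have h2 := north_inf_le x (InfinitePlace.mk ψ)
        rw [InfinitePlace.apply] at h2
        have h3 : 0 < ‖ψ x‖ := by
          rw [norm_pos_iff]
          exact (map_ne_zero ψ).2 h0
        rw [← Real.exp_log h3]
        exact Real.exp_le_exp.2 (h2.trans hx)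
    rw [map_mul, map_natCast, norm_mul, Complex.norm_natCast, two_mul, Real.exp_add]
    exact mul_le_mul hnB h1 (norm_nonneg _) (Real.exp_pos B).le
  have hmem := hZK K hD _ hn hnorm φ
  have hnC : (n : ℂ) ≠ 0 := Nat.cast_ne_zero.2 hn0
  rw [Set.mem_iUnion₂]
  refine ⟨n, ?_, φ (n * x), hmem, ?_⟩
  · rw [Finset.mem_range]
    exact Nat.lt_succ_of_le (Nat.le_floor hnB)
  · change φ (n * x) / n = φ x
    rw [map_mul, map_natCast]
    field_simp

private theorem north_mono_map {K L : Type} [Field K] [Field L] (φ : K →+* L) {ι : Type}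
    [Fintype ι] (z : ι → K) (u : ι → ℤ) : φ (mono z u) = mono (fun i => φ (z i)) u := by
  rw [mono, mono, map_prod]
  exact Finset.prod_congr rfl fun i _ => map_zpow₀ φ (z i) (u i)

private theorem north_co_map {K L : Type} [Field K] [Field L] (φ : K →+* L) {ι : Type}
    (x : ι → K) : (fun i => φ (co x i)) = co fun i => φ (x i) := by
  funext i
  rcases i with i | i
  · rfl
  · simp [co]

/-- **Northcott with relations**: points of bounded degree and bounded height which satisfy some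
relation satisfy one of finitely many. Proof: `(φ (x i))_i` lies in the finite set `Z ^ r` of
`northcott_set D (max H 0 * D)`; for each tuple in `Z ^ r` which satisfies a nontrivial relation
choose one; `mono (co x) u = 1` iff `mono (co (φ ∘ x)) u = 1`. -/
theorem northcott_relations (r D : ℕ) (H : ℝ) : ∃ E : Finset (Fin r ⊕ Fin r → ℤ), 0 ∉ E ∧
    ∀ (K : Type) [Field K] [NumberField K] (x : Fin r → K), finrank ℚ K ≤ D →
      (∀ i, logHeight₁ (x i) ≤ H * finrank ℚ K) → (∃ u, u ≠ 0 ∧ mono (co x) u = 1) →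
      ∃ u ∈ E, mono (co x) u = 1 := by
  classical
  obtain ⟨Z, hZ, hZK⟩ := northcott_set D (max H 0 * D)
  have hT : {y : Fin r → ℂ | (∀ i, y i ∈ Z) ∧ ∃ u : Fin r ⊕ Fin r → ℤ,
      u ≠ 0 ∧ mono (co y) u = 1}.Finite := by
    refine (Set.Finite.pi' (t := fun _ : Fin r => Z) fun _ => hZ).subset ?_
    intro y hy
    exact hy.1
  choose! c hc using (fun y (hy : y ∈ {y : Fin r → ℂ | (∀ i, y i ∈ Z) ∧
    ∃ u : Fin r ⊕ Fin r → ℤ, u ≠ 0 ∧ mono (co y) u = 1}) => hy.2)
  refine ⟨hT.toFinset.image c, ?_, ?_⟩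
  · rw [Finset.mem_image]
    rintro ⟨y, hy, hy0⟩
    exact (hc y (hT.mem_toFinset.1 hy)).1 hy0
  · intro K _ _ x hD hx hu
    obtain ⟨u, hu0, hu1⟩ := hu
    obtain ⟨φ⟩ : Nonempty (K →+* ℂ) := inferInstance
    have key : ∀ u : Fin r ⊕ Fin r → ℤ, φ (mono (co x) u) = mono (co fun i => φ (x i)) u := by
      intro u
      rw [north_mono_map, north_co_map]
    have hy : (fun i => φ (x i)) ∈ {y : Fin r → ℂ | (∀ i, y i ∈ Z) ∧
        ∃ u : Fin r ⊕ Fin r → ℤ, u ≠ 0 ∧ mono (co y) u = 1} := by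
      refine ⟨fun i => ?_, u, hu0, ?_⟩
      · refine hZK K hD (x i) ((hx i).trans ?_) φ
        have h1 : (finrank ℚ K : ℝ) ≤ D := by exact_mod_cast hD
        calc H * finrank ℚ K ≤ max H 0 * finrank ℚ K :=
              mul_le_mul_of_nonneg_right (le_max_left _ _) (Nat.cast_nonneg _)
          _ ≤ max H 0 * D := mul_le_mul_of_nonneg_left h1 (le_max_right _ _)
      · rw [← key, hu1, map_one]
    refine ⟨c fun i => φ (x i), ?_, ?_⟩
    · exact Finset.mem_image_of_mem _ (hT.mem_toFinset.2 hy)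
    · apply φ.injective
      rw [key, map_one]
      exact (hc _ hy).2

end Pool.Agent.LThree
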