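import Mathlib

set_option autoImplicit false

/-! B3a. The total multiplicity of a set of infinite places. -/

namespace Pool.Agent.LThree

open NumberField Height Real Module

/-- The total multiplicity of the infinite places with a property. -/
noncomputable def mass (K : Type) [Field K] [NumberField K] (p : InfinitePlace K → Prop) : ℝ :=
  open Classical in ∑ v : InfinitePlace K, if p v then (v.mult : ℝ) else 0

theorem mass_mono (K : Type) [Field K] [NumberField K] (p q : InfinitePlace K → Prop)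
    (h : ∀ v, p v → q v) : mass K p ≤ mass K q := by
  classical
  unfold mass
  refine Finset.sum_le_sum fun v _ => ?_
  by_cases h1 : p v
  · rw [if_pos h1, if_pos (h v h1)]
  · rw [if_neg h1]
    split_ifs
    · exact Nat.cast_nonneg _
    · exact le_rfl

theorem mass_or_le (K : Type) [Field K] [NumberField K] (p q : InfinitePlace K → Prop) :
    mass K (fun v => p v ∨ q v) ≤ mass K p + mass K q := by
  classical
  unfold mass
  rw [← Finset.sum_add_distrib]
  refine Finset.sum_le_sum fun v _ => ?_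
  have hm : (0 : ℝ) ≤ v.mult := Nat.cast_nonneg _
  by_cases h1 : p v <;> by_cases h2 : q v <;> simp [h1, h2]

/-- `InfinitePlace.sum_mult_eq`. -/
theorem mass_not (K : Type) [Field K] [NumberField K] (p : InfinitePlace K → Prop) :
    mass K p + mass K (fun v => ¬ p v) = finrank ℚ K := by
  classical
  unfold mass
  rw [← Finset.sum_add_distrib, ← InfinitePlace.sum_mult_eq (K := K), Nat.cast_sum]
  refine Finset.sum_congr rfl fun v _ => ?_
  by_cases h1 : p v <;> simp [h1]

private theorem mass_sum_le (K : Type) [Field K] [NumberField K] (z : K) :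
    ∑ v : InfinitePlace K, (v.mult : ℝ) * log⁺ (v z) ≤ logHeight₁ z := by
  rw [NumberField.logHeight₁_eq]
  have h : 0 ≤ ∑ᶠ v : FinitePlace K, log⁺ (v z) := finsum_nonneg fun v => posLog_nonneg
  linarith

private theorem mass_mul_le (K : Type) [Field K] [NumberField K] (p : InfinitePlace K → Prop)
    (E : ℝ) (g : InfinitePlace K → ℝ) (hg : ∀ v, 0 ≤ g v) (h : ∀ v, p v → E ≤ g v) :
    mass K p * E ≤ ∑ v : InfinitePlace K, (v.mult : ℝ) * g v := by
  classical
  unfold mass
  rw [Finset.sum_mul]
  refine Finset.sum_le_sum fun v _ => ?_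
  have hm : (0 : ℝ) ≤ v.mult := Nat.cast_nonneg _
  by_cases h1 : p v
  · rw [if_pos h1]
    exact mul_le_mul_of_nonneg_left (h v h1) hm
  · rw [if_neg h1, zero_mul]
    exact mul_nonneg hm (hg v)

/-- A nonzero number which is at most `exp (-E)` at a set of infinite places of mass `m` has
height at least `E m` (`logHeight₁ w = logHeight₁ w⁻¹ ≥ ∑ m_v log⁺ (v w⁻¹)`,
`NumberField.logHeight₁_eq`). -/
theorem height_ge_mass (K : Type) [Field K] [NumberField K] (w : K) (hw : w ≠ 0) (E : ℝ)
    (hE : 0 ≤ E) : mass K (fun v => v w ≤ exp (-E)) * E ≤ logHeight₁ w := by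
  rw [← logHeight₁_inv w]
  refine le_trans (mass_mul_le K _ E (fun v => log⁺ (v w⁻¹)) (fun v => posLog_nonneg) ?_)
    (mass_sum_le K w⁻¹)
  intro v hv
  have h0 : 0 < v w := v.pos_iff.2 hw
  have h1 : log (v w) ≤ -E := by
    rw [Real.log_le_iff_le_exp h0]
    exact hv
  calc E ≤ -log (v w) := by linarith
    _ = log (v w⁻¹) := by rw [map_inv₀, Real.log_inv]
    _ ≤ log⁺ (v w⁻¹) := le_max_right _ _

/-- Few places where `|log (v z)|` is large (`∑ m_v |log (v z)| ≤ 2 logHeight₁ z` since
`log⁻ (v z) = log⁺ (v z⁻¹)`). -/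
theorem mass_large (K : Type) [Field K] [NumberField K] (z : K) (hz : z ≠ 0) (B : ℝ) (hB : 0 < B) :
    mass K (fun v => B ≤ |log (v z)|) * B ≤ 2 * logHeight₁ z := by
  refine le_trans (mass_mul_le K _ B (fun v => |log (v z)|) (fun v => abs_nonneg _)
    (fun v hv => hv)) ?_
  have h1 : ∀ v : InfinitePlace K, |log (v z)| = log⁺ (v z) + log⁺ (v z⁻¹) := by
    intro v
    rw [map_inv₀]
    have h2 := posLog_sub_posLog_inv (x := v z)
    have h3 := half_mul_log_add_log_abs (x := v z)
    linarith
  have h2 : ∑ v : InfinitePlace K, (v.mult : ℝ) * |log (v z)| =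
      ∑ v : InfinitePlace K, (v.mult : ℝ) * log⁺ (v z) +
        ∑ v : InfinitePlace K, (v.mult : ℝ) * log⁺ (v z⁻¹) := by
    rw [← Finset.sum_add_distrib]
    refine Finset.sum_congr rfl fun v _ => ?_
    rw [h1, mul_add]
  rw [h2]
  have h3 := mass_sum_le K z
  have h4 := mass_sum_le K z⁻¹
  rw [logHeight₁_inv] at h4
  linarith

/-- Few places where `x` is very close to a zero of `X² - X + 1`: `w = x² - x + 1 ≠ 0` has
`logHeight₁ w ≤ 3 logHeight₁ x + D log 3` (`logHeight₁_sum_le`, `totalWeight_eq_finrank`), and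
`height_ge_mass`. -/
theorem mass_sixth (K : Type) [Field K] [NumberField K] (x : K) (hw : x ^ 2 - x + 1 ≠ 0) (δ : ℝ)
    (hδ : 0 < δ) (hδ1 : δ < 1) :
    mass K (fun v => v (x ^ 2 - x + 1) ≤ δ) * (-log δ) ≤
      3 * logHeight₁ x + 2 * finrank ℚ K := by
  have h1 := height_ge_mass K (x ^ 2 - x + 1) hw (-log δ)
    (by have := Real.log_neg hδ hδ1; linarith)
  rw [neg_neg, Real.exp_log hδ] at h1
  refine h1.trans ?_
  have h2 := logHeight₁_sum_le (K := K) (Finset.univ : Finset (Fin 3)) ![x ^ 2, -x, 1]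
  rw [Fin.sum_univ_three, Fin.sum_univ_three, totalWeight_eq_finrank] at h2
  simp only [Matrix.cons_val_zero, Matrix.cons_val_one, Matrix.cons_val_two, Matrix.head_cons,
    Matrix.tail_cons, Finset.card_univ, Fintype.card_fin, logHeight₁_neg, logHeight₁_one,
    logHeight₁_pow, Matrix.cons_val] at h2
  have h3 : x ^ 2 - x + 1 = x ^ 2 + -x + 1 := by ring
  rw [h3]
  have h4 : Real.log 3 ≤ 2 := by
    have := Real.log_le_sub_one_of_pos (x := 3) (by norm_num)
    linarith
  have h5 : (0 : ℝ) ≤ finrank ℚ K := Nat.cast_nonneg _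
  push_cast at h2
  nlinarith

end Pool.Agent.LThree
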