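import Mathlib

set_option autoImplicit false

/-! B2. Complex numbers near `0`, `1`, `∞` and numbers of absolute value near `1`. -/

namespace Pool.Agent.LThree

open Real

/-- `|log t| ≤ 2 |t - 1|` for `|t - 1| ≤ 1/2` -/
private theorem tri_log {t : ℝ} (ht : |t - 1| ≤ 1 / 2) : |log t| ≤ 2 * |t - 1| := by
  obtain ⟨h1, h2⟩ := abs_le.1 ht
  have ht0 : 0 < t := by linarith
  have hu := Real.log_le_sub_one_of_pos ht0
  have hl := Real.one_sub_inv_le_log_of_pos ht0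
  have hinv : 1 - t⁻¹ = (t - 1) / t := by field_simp
  rw [hinv] at hl
  have h3 : -(2 * |t - 1|) ≤ (t - 1) / t := by
    rw [le_div_iff₀ ht0]
    have h4 : |t - 1| * 1 ≤ |t - 1| * (2 * t) :=
      mul_le_mul_of_nonneg_left (by linarith) (abs_nonneg _)
    have h5 := neg_abs_le (t - 1)
    linarith
  have h6 := le_abs_self (t - 1)
  have h7 := abs_nonneg (t - 1)
  rw [abs_le]
  constructor <;> linarith

private theorem tri_aux {e s t : ℝ} (he : e ≤ 1 / 2) (hs : s ≤ e) (h : |t - 1| ≤ s) :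
    |log t| ≤ 2 * e := by
  have h1 := tri_log (t := t) (by linarith)
  linarith

/-- Near `0`, near `1`, near `∞`, or of moderate size. Proof: if `exp (-L) < ‖z‖ < exp L` and
`exp (-L) < ‖1 - z‖` then `‖1 - z‖ ≤ 1 + exp L ≤ exp (2 L)` (as `exp L ≥ 2`): the fourth case.
In the other cases use `|log (1 + s)| ≤ 2 |s|` for `|s| ≤ 1/2` (`s = ‖1 - z‖ - 1`, `|s| ≤ ‖z‖`, etc.). -/
theorem trichotomy (z : ℂ) (hz0 : z ≠ 0) (hz1 : z ≠ 1) (L : ℝ) (hL : log 2 ≤ L) :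
    (‖z‖ ≤ exp (-L) ∧ |log ‖1 - z‖| ≤ 2 * exp (-L)) ∨
    (‖1 - z‖ ≤ exp (-L) ∧ |log ‖z‖| ≤ 2 * exp (-L)) ∨
    (exp L ≤ ‖z‖ ∧ |log ‖1 - z‖ - log ‖z‖| ≤ 2 * exp (-L)) ∨
    (|log ‖z‖| ≤ 2 * L ∧ |log ‖1 - z‖| ≤ 2 * L) := by
  have hE2 : 2 ≤ exp L := (Real.log_le_iff_le_exp (by norm_num)).1 hL
  have hE : exp (-L) ≤ 1 / 2 := by
    rw [Real.exp_neg, inv_eq_one_div]
    exact one_div_le_one_div_of_le (by norm_num) hE2
  have hE0 := Real.exp_pos L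
  have hL0 : 0 ≤ L := (Real.log_nonneg (by norm_num)).trans hL
  have hzn : 0 < ‖z‖ := norm_pos_iff.2 hz0
  have h1z : (1 : ℂ) - z ≠ 0 := sub_ne_zero.2 (Ne.symm hz1)
  have h1zn : 0 < ‖1 - z‖ := norm_pos_iff.2 h1z
  have hn1 : |‖1 - z‖ - 1| ≤ ‖z‖ := by
    have := abs_norm_sub_norm_le (1 - z) 1
    rw [norm_one] at this
    refine this.trans (le_of_eq ?_)
    rw [show (1 : ℂ) - z - 1 = -z by ring, norm_neg]
  have hn2 : |‖z‖ - 1| ≤ ‖1 - z‖ := by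
    have := abs_norm_sub_norm_le z 1
    rw [norm_one] at this
    refine this.trans (le_of_eq ?_)
    rw [← norm_neg, neg_sub]
  rcases le_or_gt ‖z‖ (exp (-L)) with h | h
  · exact Or.inl ⟨h, tri_aux hE h hn1⟩
  rcases le_or_gt ‖1 - z‖ (exp (-L)) with h' | h'
  · exact Or.inr (Or.inl ⟨h', tri_aux hE h' hn2⟩)
  rcases le_or_gt (exp L) ‖z‖ with h'' | h''
  · refine Or.inr (Or.inr (Or.inl ⟨h'', ?_⟩))
    rw [← Real.log_div h1zn.ne' hzn.ne']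
    refine tri_aux hE (s := 1 / ‖z‖) ?_ ?_
    · rw [Real.exp_neg, inv_eq_one_div]
      exact one_div_le_one_div_of_le hE0 h''
    · rw [div_sub_one hzn.ne', abs_div, abs_of_pos hzn]
      refine div_le_div_of_nonneg_right ?_ hzn.le
      have := abs_norm_sub_norm_le (1 - z) (-z)
      rw [norm_neg] at this
      refine this.trans (le_of_eq ?_)
      rw [show (1 : ℂ) - z - -z = 1 by ring, norm_one]
  · refine Or.inr (Or.inr (Or.inr ⟨?_, ?_⟩))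
    · rw [abs_le]
      constructor
      · have := (Real.lt_log_iff_exp_lt hzn).2 h
        linarith
      · have := (Real.log_lt_iff_lt_exp hzn).2 h''
        linarith
    · rw [abs_le]
      constructor
      · have := (Real.lt_log_iff_exp_lt h1zn).2 h'
        linarith
      · rw [Real.log_le_iff_le_exp h1zn]
        have h3 : ‖1 - z‖ ≤ 1 + ‖z‖ := by
          have := norm_sub_le (1 : ℂ) z
          rwa [norm_one] at this
        have h4 : exp (2 * L) = exp L * exp L := by rw [two_mul, Real.exp_add]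
        rw [h4]
        nlinarith

/-- `x² = S x - Q` with real `S`, `Q`. (Both sides are `2 Re(x) x - ‖x‖²`.) -/
theorem sq_eq (x : ℂ) :
    x ^ 2 = ((1 + ‖x‖ ^ 2 - ‖1 - x‖ ^ 2 : ℝ) : ℂ) * x - ((‖x‖ ^ 2 : ℝ) : ℂ) := by
  have h1 : ‖x‖ ^ 2 = x.re ^ 2 + x.im ^ 2 := by
    rw [← Complex.normSq_eq_norm_sq, Complex.normSq_apply]
    ring
  have h2 : ‖1 - x‖ ^ 2 = (1 - x.re) ^ 2 + x.im ^ 2 := by
    rw [← Complex.normSq_eq_norm_sq, Complex.normSq_apply]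
    simp
    ring
  rw [h1, h2]
  apply Complex.ext
  · simp [sq]
    ring
  · simp [sq]
    ring

/-- a number with small logarithm -/
private theorem tri_sq {t δ : ℝ} (ht : 0 < t) (hδ : δ ≤ 1) (h : |log t| ≤ δ) :
    t ≤ 2.72 ∧ 1 - 2 * δ ≤ t ^ 2 ∧ t ^ 2 ≤ 1 + 6.4 * δ := by
  have hδ0 : 0 ≤ δ := (abs_nonneg _).trans h
  obtain ⟨h1, h2⟩ := abs_le.1 h
  have he1 : exp 1 ≤ 2.72 := by
    have := Real.exp_one_lt_d9
    linarith
  have he2 : exp 2 ≤ 7.4 := by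
    have h3 : exp 2 = exp 1 * exp 1 := by rw [← Real.exp_add]; norm_num
    rw [h3]
    nlinarith [Real.exp_pos 1]
  have ht2 : t ^ 2 = exp (2 * log t) := by
    rw [two_mul, Real.exp_add, Real.exp_log ht]
    ring
  refine ⟨?_, ?_, ?_⟩
  · calc t = exp (log t) := (Real.exp_log ht).symm
      _ ≤ exp 1 := Real.exp_le_exp.2 (by linarith)
      _ ≤ 2.72 := he1
  · rw [ht2]
    have := Real.add_one_le_exp (2 * log t)
    linarith
  · rw [ht2]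
    have h3 : exp (2 * log t) ≤ exp (2 * δ) := Real.exp_le_exp.2 (by linarith)
    have h4 := convexOn_exp.2 (Set.mem_univ (2 : ℝ)) (Set.mem_univ (0 : ℝ)) hδ0
      (sub_nonneg.2 hδ) (by ring)
    rw [smul_eq_mul, smul_eq_mul, mul_zero, add_zero, smul_eq_mul, smul_eq_mul, Real.exp_zero,
      mul_one] at h4
    rw [mul_comm δ 2] at h4
    nlinarith

/-- If `‖x‖` and `‖1 - x‖` are near `1` then `x` is near a primitive sixth root of unity. Proof: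
`x² - x + 1 = (S - 1) x + (1 - Q)` with `S - 1 = ‖x‖² - ‖1-x‖²`, `Q = ‖x‖²` (`sq_eq`), and both
squares lie in `[exp (-2δ), exp (2δ)]`. -/
theorem near_sixth (x : ℂ) (hx0 : x ≠ 0) (hx1 : x ≠ 1) (δ : ℝ) (hδ : δ ≤ 1)
    (h0 : |log ‖x‖| ≤ δ) (h1 : |log ‖1 - x‖| ≤ δ) : ‖x ^ 2 - x + 1‖ ≤ 40 * δ := by
  have hδ0 : 0 ≤ δ := (abs_nonneg _).trans h0
  have hn0 : 0 < ‖x‖ := norm_pos_iff.2 hx0
  have hn1 : 0 < ‖1 - x‖ := norm_pos_iff.2 (sub_ne_zero.2 (Ne.symm hx1))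
  obtain ⟨a1, a2, a3⟩ := tri_sq hn0 hδ h0
  obtain ⟨-, b2, b3⟩ := tri_sq hn1 hδ h1
  have h2 : x ^ 2 - x + 1 = ((‖x‖ ^ 2 - ‖1 - x‖ ^ 2 : ℝ) : ℂ) * x + ((1 - ‖x‖ ^ 2 : ℝ) : ℂ) := by
    rw [sq_eq x]
    push_cast
    ring
  rw [h2]
  refine (norm_add_le _ _).trans ?_
  rw [norm_mul, Complex.norm_real, Complex.norm_real, Real.norm_eq_abs, Real.norm_eq_abs]
  have h3 : |‖x‖ ^ 2 - ‖1 - x‖ ^ 2| ≤ 8.4 * δ := by
    rw [abs_le]
    constructor <;> linarith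
  have h4 : |1 - ‖x‖ ^ 2| ≤ 6.4 * δ := by
    rw [abs_le]
    constructor <;> linarith
  have h5 : |‖x‖ ^ 2 - ‖1 - x‖ ^ 2| * ‖x‖ ≤ 8.4 * δ * 2.72 :=
    mul_le_mul h3 a1 (norm_nonneg _) (by positivity)
  linarith

end Pool.Agent.LThree
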