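import Pool.Agent.LThree.Coef
import Pool.Agent.LThree.Tri
import Pool.Agent.LThree.Mass

set_option autoImplicit false

/-! B3. For at least half of the infinite places the vector `(log |f_k|)` lies very close to one of
three fixed segments. -/

namespace Pool.Agent.LThree

open NumberField Height Real Module

/-- The place `v` is good: `(log |f_k|)_k` is within `ε` of `t • u τ` for some `τ` and some
`t ∈ [0, C]`. -/
def GoodPlace {K : Type} [Field K] (f : Fin 4 → K) (C ε : ℝ) (u : Fin 3 → Fin 4 → ℝ)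
    (v : InfinitePlace K) : Prop :=
  ∃ (τ : Fin 3) (t : ℝ), 0 ≤ t ∧ t ≤ C ∧ ∀ k, |log (v (f k)) - t * u τ k| ≤ ε

private theorem norm_place {K : Type} [Field K] (v : InfinitePlace K) (x : K) :
    v x = ‖v.embedding x‖ := (InfinitePlace.norm_embedding_eq v x).symm

/-- The local statement: at a place at which nothing bad happens the vector is near a segment. -/
private theorem local_good {K : Type} [Field K] [NumberField K] (v : InfinitePlace K) (z : K)
    (f : Fin 4 → K) (α β : Fin 4 → ℝ) (hz : z ≠ 0) (hz1 : z ≠ 1)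
    (hT : ∀ k, Tied z (f k) (α k) (β k)) (H U L C ε δ : ℝ) (hH : 0 < H) (hL : log 2 ≤ L)
    (hα : ∀ k, |α k| * H ≤ U / 2) (hβ : ∀ k, |β k| * H ≤ U / 2) (h1 : |log (v z)| < C * H)
    (h2 : |log (v (1 - z))| < C * H) (hδ : 2 * U * L ≤ δ * H) (hε : U * exp (-L) ≤ ε * H)
    (hb : ¬ (∀ k, |log (v (f k))| ≤ δ)) :
    GoodPlace f C ε ![fun k => -(α k * H), fun k => -(β k * H), fun k => (α k + β k) * H] v := by
  have hL0 : 0 < L := lt_of_lt_of_le (log_pos (by norm_num)) hL
  have hα' : ∀ k, |α k| ≤ U / 2 / H := fun k => by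
    rw [le_div_iff₀ hH]; exact hα k
  have hβ' : ∀ k, |β k| ≤ U / 2 / H := fun k => by
    rw [le_div_iff₀ hH]; exact hβ k
  have hU : 0 ≤ U / 2 / H := (abs_nonneg (α 0)).trans (hα' 0)
  have herr : U / 2 / H * (2 * exp (-L)) ≤ ε := by
    have : U / 2 / H * (2 * exp (-L)) = U * exp (-L) / H := by field_simp
    rw [this, div_le_iff₀ hH]
    exact hε
  have hw0 : v.embedding z ≠ 0 := fun h => hz (by simpa using h)
  have hw1 : v.embedding z ≠ 1 := fun h => hz1 (by
    apply v.embedding.injective; rw [h, map_one])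
  have hz' : ‖v.embedding z‖ = v z := (norm_place v z).symm
  have h1z' : ‖1 - v.embedding z‖ = v (1 - z) := by
    rw [norm_place, map_sub, map_one]
  have htri := trichotomy (v.embedding z) hw0 hw1 L hL
  rw [hz', h1z'] at htri
  have hvz : 0 < v z := InfinitePlace.pos_iff.mpr hz
  have hv1z : 0 < v (1 - z) := InfinitePlace.pos_iff.mpr (sub_ne_zero.mpr (Ne.symm hz1))
  rcases htri with ⟨a, b⟩ | ⟨a, b⟩ | ⟨a, b⟩ | ⟨a, b⟩
  · have hlog : log (v z) ≤ -L := by
      rw [← log_exp (-L)]; exact log_le_log hvz a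
    refine ⟨0, -log (v z) / H, div_nonneg (by linarith) hH.le, ?_, fun k => ?_⟩
    · rw [div_le_iff₀ hH]
      exact ((neg_le_abs _).trans h1.le)
    · have e : log (v (f k)) - -log (v z) / H *
          (![fun k => -(α k * H), fun k => -(β k * H), fun k => (α k + β k) * H] :
            Fin 3 → Fin 4 → ℝ) 0 k = β k * log (v (1 - z)) := by
        rw [(hT k).inf v]
        change α k * log (v z) + β k * log (v (1 - z)) - -log (v z) / H * -(α k * H) = _
        field_simp
        ring
      rw [e, abs_mul]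
      exact (mul_le_mul (hβ' k) b (abs_nonneg _) hU).trans herr
  · have hlog : log (v (1 - z)) ≤ -L := by
      rw [← log_exp (-L)]; exact log_le_log hv1z a
    refine ⟨1, -log (v (1 - z)) / H, div_nonneg (by linarith) hH.le, ?_, fun k => ?_⟩
    · rw [div_le_iff₀ hH]
      exact ((neg_le_abs _).trans h2.le)
    · have e : log (v (f k)) - -log (v (1 - z)) / H *
          (![fun k => -(α k * H), fun k => -(β k * H), fun k => (α k + β k) * H] :
            Fin 3 → Fin 4 → ℝ) 1 k = α k * log (v z) := by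
        rw [(hT k).inf v]
        change α k * log (v z) + β k * log (v (1 - z)) - -log (v (1 - z)) / H * -(β k * H) = _
        field_simp
        ring
      rw [e, abs_mul]
      exact (mul_le_mul (hα' k) b (abs_nonneg _) hU).trans herr
  · have hlog : L ≤ log (v z) := by
      rw [← log_exp L]; exact log_le_log (exp_pos L) a
    refine ⟨2, log (v z) / H, div_nonneg (by linarith) hH.le, ?_, fun k => ?_⟩
    · rw [div_le_iff₀ hH]
      exact ((le_abs_self _).trans h1.le)
    · have e : log (v (f k)) - log (v z) / H *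
          (![fun k => -(α k * H), fun k => -(β k * H), fun k => (α k + β k) * H] :
            Fin 3 → Fin 4 → ℝ) 2 k = β k * (log (v (1 - z)) - log (v z)) := by
        rw [(hT k).inf v]
        change α k * log (v z) + β k * log (v (1 - z)) - log (v z) / H * ((α k + β k) * H) = _
        field_simp
        ring
      rw [e, abs_mul]
      exact (mul_le_mul (hβ' k) b (abs_nonneg _) hU).trans herr
  · exfalso
    apply hb
    intro k
    rw [(hT k).inf v]
    have e1 : |α k * log (v z)| ≤ U / 2 / H * (2 * L) := by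
      rw [abs_mul]; exact mul_le_mul (hα' k) a (abs_nonneg _) hU
    have e2 : |β k * log (v (1 - z))| ≤ U / 2 / H * (2 * L) := by
      rw [abs_mul]; exact mul_le_mul (hβ' k) b (abs_nonneg _) hU
    have e3 : U / 2 / H * (2 * L) + U / 2 / H * (2 * L) ≤ δ := by
      have : U / 2 / H * (2 * L) + U / 2 / H * (2 * L) = 2 * U * L / H := by field_simp; ring
      rw [this, div_le_iff₀ hH]
      exact hδ
    exact (abs_add_le _ _).trans ((add_le_add e1 e2).trans e3)

private theorem sixth_of_small {K : Type} [Field K] (v : InfinitePlace K) (x : K) (hx : x ≠ 0)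
    (hx1 : x ≠ 1) (δ : ℝ) (hδ : δ ≤ 1) (h0 : |log (v x)| ≤ δ) (h1 : |log (v (1 - x))| ≤ δ) :
    v (x ^ 2 - x + 1) ≤ 40 * δ := by
  have hw0 : v.embedding x ≠ 0 := fun h => hx (by simpa using h)
  have hw1 : v.embedding x ≠ 1 := fun h => hx1 (by
    apply v.embedding.injective; rw [h, map_one])
  have := near_sixth (v.embedding x) hw0 hw1 δ hδ (by rw [← norm_place]; exact h0)
    (by
      have : ‖1 - v.embedding x‖ = v (1 - x) := by rw [norm_place, map_sub, map_one]
      rw [this]; exact h1)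
  rw [norm_place]
  simpa using this

/-- **At least half of the places are good.**

Proof. Put `D = finrank ℚ K`, `H = logHeight₁ z / D`, `U = 4 (H0 + 1)`. By `coef_le` (and
`logHeight₁ (1 - x) ≤ logHeight₁ x + D log 2`) `|α k| H, |β k| H ≤ 2 (H0 + 1) = U / 2`.
Put `u 0 k = -α k H`, `u 1 k = -β k H`, `u 2 k = (α k + β k) H`.
Choose `δ ∈ (0, 1/40)` with `(3 H0 + 2) ≤ -log (40 δ) / 8` and `t0 = δ / (2 U)`, `L = t0 H`, and
`C = 32`. A place is bad only if
(i) `|log (v z)| ≥ C H` or `|log (v (1-z))| ≥ C H`: mass `≤ 2 H D / (C H) + 2 (H + log 2) D / (C H) ≤ D/4`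
    by `mass_large` (`H ≥ log 2`); or
(ii) the fourth case of `trichotomy` (for the complex embedding of `v`, `v z = ‖v.embedding z‖`):
    `|log (v z)|, |log (v (1-z))| ≤ 2 L`, so `|log (v (f k))| ≤ 4 L U / (2 H) = δ`, so
    `v (x² - x + 1) ≤ 40 δ` by `near_sixth`: mass `≤ D / 4` by `mass_sixth`.
In the first case of `trichotomy` take `τ = 0`, `t = - log (v z) / H ∈ [0, C]`:
`log (v (f k)) = -t H α k + β k log (v (1-z))`, error `≤ |β k| 2 exp (-L) ≤ ε` for `H ≥ H1`.
Second case: `τ = 1`, `t = - log (v (1-z)) / H`. Third case: `τ = 2`, `t = log (v z) / H`,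
error `|β k| 2 exp (-L)`. -/
theorem good_places (H0 : ℝ) (hH0 : 0 ≤ H0) :
    ∃ C : ℝ, 0 < C ∧ ∀ ε : ℝ, 0 < ε → ∃ H1 : ℝ, ∀ (K : Type) [Field K] [NumberField K] (x y z : K)
      (α β : Fin 4 → ℝ), x ≠ 0 → x ≠ 1 → y ≠ 0 → y ≠ 1 → z ≠ 0 → z ≠ 1 → x ^ 2 - x + 1 ≠ 0 →
      (∀ k, Tied z (![x, 1 - x, y, 1 - y] k) (α k) (β k)) →
      logHeight₁ x ≤ H0 * finrank ℚ K → logHeight₁ y ≤ H0 * finrank ℚ K →
      H1 * finrank ℚ K ≤ logHeight₁ z →
      ∃ u : Fin 3 → Fin 4 → ℝ, (∀ τ k, |u τ k| ≤ 4 * (H0 + 1)) ∧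
        (finrank ℚ K : ℝ) ≤ 2 * mass K (GoodPlace ![x, 1 - x, y, 1 - y] C ε u) := by
  set U : ℝ := 4 * (H0 + 1) with hUdef
  have hU : 0 < U := by positivity
  set δ' : ℝ := exp (-(4 * (3 * H0 + 2))) with hδ'def
  have hδ'0 : 0 < δ' := exp_pos _
  have hδ'1 : δ' < 1 := by
    rw [hδ'def, exp_lt_one_iff]; linarith
  set δ : ℝ := δ' / 40 with hδdef
  have hδ0 : 0 < δ := by positivity
  have hδ1 : δ ≤ 1 := by rw [hδdef]; linarith
  set t0 : ℝ := δ / (2 * U) with ht0def
  have ht0 : 0 < t0 := by positivity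
  have hlog2 : log 2 ≤ 1 := by have := log_two_lt_d9; linarith
  have hlog2' : 0 < log 2 := log_pos (by norm_num)
  refine ⟨32, by norm_num, fun ε hε => ?_⟩
  refine ⟨4 + U / (t0 * ε) + 1 / t0, ?_⟩
  intro K _ _ x y z α β hx hx1 hy hy1 hz hz1 hsix hT hxH hyH hzH
  set D : ℝ := (finrank ℚ K : ℝ) with hD
  have hD0 : 0 < D := by rw [hD]; exact_mod_cast (finrank_pos : 0 < finrank ℚ K)
  set H : ℝ := logHeight₁ z / D with hHdef
  have hHD : logHeight₁ z = H * D := by rw [hHdef]; field_simp
  have hH1 : 4 + U / (t0 * ε) + 1 / t0 ≤ H := by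
    rw [hHD] at hzH
    exact le_of_mul_le_mul_right hzH hD0
  have hp1 : 0 < U / (t0 * ε) := by positivity
  have hp2 : 0 < 1 / t0 := by positivity
  have hH4 : 4 ≤ H := by linarith
  have hH0' : 0 < H := by linarith
  have hone : ∀ w : K, logHeight₁ w ≤ H0 * D → logHeight₁ (1 - w) ≤ (H0 + log 2) * D := by
    intro w hw
    have := CITNF.height_le_one_sub (1 - w)
    rw [sub_sub_cancel] at this
    calc logHeight₁ (1 - w) ≤ logHeight₁ w + D * log 2 := this
      _ ≤ H0 * D + D * log 2 := by gcongr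
      _ = (H0 + log 2) * D := by ring
  have hfk : ∀ k : Fin 4, (![x, 1 - x, y, 1 - y] : Fin 4 → K) k ≠ 0 ∧
      logHeight₁ ((![x, 1 - x, y, 1 - y] : Fin 4 → K) k) ≤ (H0 + 1) * D := by
    have hle : H0 * D ≤ (H0 + 1) * D := by nlinarith
    have hle2 : (H0 + log 2) * D ≤ (H0 + 1) * D := by nlinarith
    intro k
    fin_cases k
    · exact ⟨hx, hxH.trans hle⟩
    · exact ⟨sub_ne_zero.mpr (Ne.symm hx1), (hone x hxH).trans hle2⟩
    · exact ⟨hy, hyH.trans hle⟩
    · exact ⟨sub_ne_zero.mpr (Ne.symm hy1), (hone y hyH).trans hle2⟩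
  have hbig : 4 * log 2 * D ≤ logHeight₁ z := by
    rw [hHD]
    have : 4 * log 2 ≤ H := by linarith
    exact mul_le_mul_of_nonneg_right this hD0.le
  have hcoef : ∀ k, |α k| * H ≤ U / 2 ∧ |β k| * H ≤ U / 2 := by
    intro k
    obtain ⟨h1, h2⟩ := coef_le z _ hz hz1 (hfk k).1 (α k) (β k) (hT k) hbig
    have h3 := (hfk k).2
    rw [hHD] at h1 h2
    constructor
    · have : |α k| * H * D ≤ U / 2 * D := by
        rw [hUdef]; nlinarith
      exact le_of_mul_le_mul_right this hD0
    · have : |β k| * H * D ≤ U / 2 * D := by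
        rw [hUdef]; nlinarith
      exact le_of_mul_le_mul_right this hD0
  set L : ℝ := t0 * H with hLdef
  have hL : log 2 ≤ L := by
    have : 1 / t0 ≤ H := by linarith
    rw [div_le_iff₀ ht0] at this
    rw [hLdef]; linarith
  have hLpos : 0 < L := lt_of_lt_of_le hlog2' hL
  have hδL : 2 * U * L ≤ δ * H := by
    rw [hLdef, ht0def]
    apply le_of_eq
    field_simp
  have hεL : U * exp (-L) ≤ ε * H := by
    have h1 : U / (t0 * ε) ≤ H := by linarith
    rw [div_le_iff₀ (by positivity)] at h1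
    have h2 : exp (-L) ≤ 1 / L := by
      rw [exp_neg, ← one_div]
      apply one_div_le_one_div_of_le hLpos
      have := add_one_le_exp L
      linarith
    have h3 : U / L ≤ ε := by
      rw [div_le_iff₀ hLpos, hLdef]; linarith
    calc U * exp (-L) ≤ U * (1 / L) := by gcongr
      _ = U / L := by ring
      _ ≤ ε := h3
      _ ≤ ε * H := by nlinarith
  refine ⟨![fun k => -(α k * H), fun k => -(β k * H), fun k => (α k + β k) * H], ?_, ?_⟩
  · intro τ k
    obtain ⟨h1, h2⟩ := hcoef k
    have e1 : |α k * H| ≤ U / 2 := by rw [abs_mul, abs_of_pos hH0']; exact h1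
    have e2 : |β k * H| ≤ U / 2 := by rw [abs_mul, abs_of_pos hH0']; exact h2
    fin_cases τ
    · change |-(α k * H)| ≤ U
      rw [abs_neg]
      linarith
    · change |-(β k * H)| ≤ U
      rw [abs_neg]
      linarith
    · change |(α k + β k) * H| ≤ U
      rw [add_mul]
      exact (abs_add_le _ _).trans (by linarith)
  · set u : Fin 3 → Fin 4 → ℝ :=
      ![fun k => -(α k * H), fun k => -(β k * H), fun k => (α k + β k) * H] with hu
    set f : Fin 4 → K := ![x, 1 - x, y, 1 - y] with hf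
    have hsplit := mass_not K (GoodPlace f 32 ε u)
    have hbad : mass K (fun v => ¬ GoodPlace f 32 ε u v) ≤
        mass K (fun v => 32 * H ≤ |log (v z)|) + mass K (fun v => 32 * H ≤ |log (v (1 - z))|) +
          mass K (fun v => v (x ^ 2 - x + 1) ≤ δ') := by
      have h1 : mass K (fun v => ¬ GoodPlace f 32 ε u v) ≤
          mass K (fun v => (32 * H ≤ |log (v z)| ∨ 32 * H ≤ |log (v (1 - z))|) ∨
            v (x ^ 2 - x + 1) ≤ δ') := by
        apply mass_mono
        intro v hv
        by_contra hcon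
        push Not at hcon
        obtain ⟨⟨h1, h2⟩, h3⟩ := hcon
        apply hv
        refine local_good v z f α β hz hz1 hT H U L 32 ε δ hH0' hL (fun k => (hcoef k).1)
          (fun k => (hcoef k).2) h1 h2 hδL hεL ?_
        intro hall
        have h4 := sixth_of_small v x hx hx1 δ hδ1 (hall 0) (hall 1)
        have h5 : 40 * δ = δ' := by rw [hδdef]; ring
        rw [h5] at h4
        exact absurd h4 (not_le.mpr h3)
      refine h1.trans ((mass_or_le K _ _).trans ?_)
      gcongr
      exact mass_or_le K _ _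
    have hm1 := mass_large K z hz (32 * H) (by positivity)
    have hm2 := mass_large K (1 - z) (sub_ne_zero.mpr (Ne.symm hz1)) (32 * H) (by positivity)
    have hm3 := mass_sixth K x hsix δ' hδ'0 hδ'1
    have hz2 : logHeight₁ (1 - z) ≤ (H + log 2) * D := by
      have := CITNF.height_le_one_sub (1 - z)
      rw [sub_sub_cancel, hHD] at this
      calc logHeight₁ (1 - z) ≤ H * D + D * log 2 := this
        _ = (H + log 2) * D := by ring
    have hlogδ : -log δ' = 4 * (3 * H0 + 2) := by rw [hδ'def, log_exp]; ring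
    rw [hlogδ] at hm3
    have hb3 : mass K (fun v => v (x ^ 2 - x + 1) ≤ δ') ≤ D / 4 := by
      have h1 : 0 < 3 * H0 + 2 := by linarith
      have h2 : mass K (fun v => v (x ^ 2 - x + 1) ≤ δ') * (4 * (3 * H0 + 2)) ≤
          D / 4 * (4 * (3 * H0 + 2)) := by
        refine hm3.trans ?_
        have : D / 4 * (4 * (3 * H0 + 2)) = 3 * (H0 * D) + 2 * D := by ring
        rw [this]
        linarith
      exact le_of_mul_le_mul_right h2 (by linarith)
    have hb1 : mass K (fun v => 32 * H ≤ |log (v z)|) ≤ D / 16 := by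
      have h2 : mass K (fun v => 32 * H ≤ |log (v z)|) * (32 * H) ≤ D / 16 * (32 * H) := by
        refine hm1.trans ?_
        rw [hHD]
        apply le_of_eq; ring
      exact le_of_mul_le_mul_right h2 (by positivity)
    have hb2 : mass K (fun v => 32 * H ≤ |log (v (1 - z))|) ≤ D / 8 := by
      have h2 : mass K (fun v => 32 * H ≤ |log (v (1 - z))|) * (32 * H) ≤ D / 8 * (32 * H) := by
        refine hm2.trans ?_
        have h3 : (H + log 2) * D ≤ 2 * H * D := by
          apply mul_le_mul_of_nonneg_right _ hD0.le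
          linarith
        calc 2 * logHeight₁ (1 - z) ≤ 2 * (2 * H * D) := by linarith
          _ = D / 8 * (32 * H) := by ring
      exact le_of_mul_le_mul_right h2 (by positivity)
    linarith

end Pool.Agent.LThree
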