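import Mathlib

set_option autoImplicit false

/-! B8a. Heights of values of integer polynomials in two variables. -/

namespace Pool.Agent.LThree

open NumberField Height Real Module

section Places

variable {K : Type} [Field K] [NumberField K]

omit [NumberField K] in
private theorem hv_inf_int (v : InfinitePlace K) (n : ℤ) : v (n : K) = |(n : ℝ)| := by
  rcases Int.natAbs_eq n with h | h
  · rw [h]
    simp only [Int.cast_natCast, InfinitePlace.map_natCast, Nat.abs_cast]
  · rw [h]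
    have e : v (-((n.natAbs : ℕ) : K)) = v ((n.natAbs : ℕ) : K) := v.1.map_neg _
    simp only [Int.cast_neg, Int.cast_natCast, abs_neg, Nat.abs_cast]
    rw [e, InfinitePlace.map_natCast]

private theorem hv_fin_nat (v : FinitePlace K) (p : ℕ) : v (p : K) ≤ 1 := by
  have h := NumberField.FinitePlace.norm_le_one K v.maximalIdeal (p : 𝓞 K)
  rw [FinitePlace.norm_embedding_eq] at h
  simpa using h

private theorem hv_fin_int (v : FinitePlace K) (n : ℤ) : v (n : K) ≤ 1 := by
  rcases Int.natAbs_eq n with h | h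
  · rw [h]
    simp only [Int.cast_natCast]
    exact hv_fin_nat v _
  · rw [h]
    simp only [Int.cast_neg, Int.cast_natCast, map_neg_eq_map]
    exact hv_fin_nat v _

private theorem hv_fin_sum (v : FinitePlace K) {β : Type} (s : Finset β) (f : β → K) (B : ℝ)
    (hB : 0 ≤ B) (h : ∀ i ∈ s, v (f i) ≤ B) : v (∑ i ∈ s, f i) ≤ B := by
  classical
  induction s using Finset.induction_on with
  | empty => rw [Finset.sum_empty, map_zero]; exact hB
  | insert a s ha ih =>
    rw [Finset.sum_insert ha]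
    refine (FinitePlace.add_le v _ _).trans (max_le (h a (Finset.mem_insert_self a s)) ?_)
    exact ih fun i hi => h i (Finset.mem_insert_of_mem hi)

private theorem hv_pow_le {r : ℝ} (hr : 0 ≤ r) {i N : ℕ} (hi : i ≤ N) : r ^ i ≤ max 1 r ^ N :=
  (pow_le_pow_left₀ hr (le_max_right _ _) i).trans (pow_le_pow_right₀ (le_max_left _ _) hi)

private theorem hv_log_bound {r s : ℝ} (hr : 0 ≤ r) (hs : 0 ≤ s) (N : ℕ) :
    log (max 1 r ^ N * max 1 s ^ N) = N * (log⁺ r + log⁺ s) := by
  have h1 : 0 < max 1 r := lt_of_lt_of_le one_pos (le_max_left _ _)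
  have h2 : 0 < max 1 s := lt_of_lt_of_le one_pos (le_max_left _ _)
  rw [Real.log_mul (pow_pos h1 _).ne' (pow_pos h2 _).ne', Real.log_pow, Real.log_pow,
    posLog_eq_log_max_one hr, posLog_eq_log_max_one hs]
  ring

private theorem hv_one_le (r s : ℝ) (N : ℕ) : 1 ≤ max 1 r ^ N * max 1 s ^ N :=
  one_le_mul_of_one_le_of_one_le (one_le_pow₀ (le_max_left _ _)) (one_le_pow₀ (le_max_left _ _))

private theorem hv_inf (v : InfinitePlace K) (x y : K) (N : ℕ)
    (c : Fin (N + 1) → Fin (N + 1) → ℤ) (B : ℝ) (hB1 : 1 ≤ B) (hB : ∀ i j, (|c i j| : ℝ) ≤ B) :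
    log⁺ (v (∑ i, ∑ j, (c i j : K) * x ^ (i : ℕ) * y ^ (j : ℕ))) ≤
      N * (log⁺ (v x) + log⁺ (v y)) + (2 * log (N + 1) + log B) := by
  have hx : 0 ≤ v x := apply_nonneg v x
  have hy : 0 ≤ v y := apply_nonneg v y
  have hterm : ∀ i j : Fin (N + 1), v ((c i j : K) * x ^ (i : ℕ) * y ^ (j : ℕ)) ≤
      B * (max 1 (v x) ^ N * max 1 (v y) ^ N) := by
    intro i j
    rw [map_mul, map_mul, map_pow, map_pow, hv_inf_int, mul_assoc]
    have hi : (i : ℕ) ≤ N := Nat.lt_succ_iff.1 i.2
    have hj : (j : ℕ) ≤ N := Nat.lt_succ_iff.1 j.2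
    exact mul_le_mul (hB i j) (mul_le_mul (hv_pow_le hx hi) (hv_pow_le hy hj) (by positivity)
      (by positivity)) (by positivity) (by linarith)
  have hsum : v (∑ i, ∑ j, (c i j : K) * x ^ (i : ℕ) * y ^ (j : ℕ)) ≤
      ((N : ℝ) + 1) ^ 2 * (B * (max 1 (v x) ^ N * max 1 (v y) ^ N)) := by
    have h1 : v (∑ i, ∑ j, (c i j : K) * x ^ (i : ℕ) * y ^ (j : ℕ)) ≤
        ∑ i, v (∑ j, (c i j : K) * x ^ (i : ℕ) * y ^ (j : ℕ)) := v.1.sum_le _ _
    have h2 : ∀ i : Fin (N + 1), v (∑ j, (c i j : K) * x ^ (i : ℕ) * y ^ (j : ℕ)) ≤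
        ((N : ℝ) + 1) * (B * (max 1 (v x) ^ N * max 1 (v y) ^ N)) := by
      intro i
      have h3 : v (∑ j, (c i j : K) * x ^ (i : ℕ) * y ^ (j : ℕ)) ≤
          ∑ j, v ((c i j : K) * x ^ (i : ℕ) * y ^ (j : ℕ)) := v.1.sum_le _ _
      refine h3.trans ((Finset.sum_le_card_nsmul _ _ _ fun j _ => hterm i j).trans (le_of_eq ?_))
      rw [Finset.card_univ, Fintype.card_fin, nsmul_eq_mul]
      push_cast
      ring
    refine h1.trans ((Finset.sum_le_card_nsmul _ _ _ fun i _ => h2 i).trans (le_of_eq ?_))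
    rw [Finset.card_univ, Fintype.card_fin, nsmul_eq_mul]
    push_cast
    ring
  have hN : (1 : ℝ) ≤ (N : ℝ) + 1 := by
    have : (0 : ℝ) ≤ N := Nat.cast_nonneg N
    linarith
  have hone := hv_one_le (v x) (v y) N
  have hone' : 1 ≤ ((N : ℝ) + 1) ^ 2 * (B * (max 1 (v x) ^ N * max 1 (v y) ^ N)) :=
    one_le_mul_of_one_le_of_one_le (one_le_pow₀ hN) (one_le_mul_of_one_le_of_one_le hB1 hone)
  refine (posLog_le_posLog (apply_nonneg v _) hsum).trans ?_
  rw [posLog_eq_log (by rw [abs_of_nonneg (by linarith)]; exact hone'),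
    Real.log_mul (by positivity) (by positivity), Real.log_mul (by positivity) (by positivity),
    hv_log_bound hx hy, Real.log_pow]
  push_cast
  linarith

private theorem hv_fin (v : FinitePlace K) (x y : K) (N : ℕ)
    (c : Fin (N + 1) → Fin (N + 1) → ℤ) :
    log⁺ (v (∑ i, ∑ j, (c i j : K) * x ^ (i : ℕ) * y ^ (j : ℕ))) ≤
      N * (log⁺ (v x) + log⁺ (v y)) := by
  have hx : 0 ≤ v x := apply_nonneg v x
  have hy : 0 ≤ v y := apply_nonneg v y
  have hterm : ∀ i j : Fin (N + 1), v ((c i j : K) * x ^ (i : ℕ) * y ^ (j : ℕ)) ≤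
      max 1 (v x) ^ N * max 1 (v y) ^ N := by
    intro i j
    rw [map_mul, map_mul, map_pow, map_pow, mul_assoc]
    have hi : (i : ℕ) ≤ N := Nat.lt_succ_iff.1 i.2
    have hj : (j : ℕ) ≤ N := Nat.lt_succ_iff.1 j.2
    calc v (c i j : K) * (v x ^ (i : ℕ) * v y ^ (j : ℕ))
        ≤ 1 * (max 1 (v x) ^ N * max 1 (v y) ^ N) :=
          mul_le_mul (hv_fin_int v _) (mul_le_mul (hv_pow_le hx hi) (hv_pow_le hy hj)
            (by positivity) (by positivity)) (by positivity) one_pos.le
      _ = _ := one_mul _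
  have hone := hv_one_le (v x) (v y) N
  have hsum : v (∑ i, ∑ j, (c i j : K) * x ^ (i : ℕ) * y ^ (j : ℕ)) ≤
      max 1 (v x) ^ N * max 1 (v y) ^ N :=
    hv_fin_sum v _ _ _ (by linarith) fun i _ => hv_fin_sum v _ _ _ (by linarith) fun j _ => hterm i j
  refine (posLog_le_posLog (apply_nonneg v _) hsum).trans ?_
  rw [posLog_eq_log (by rw [abs_of_nonneg (by linarith)]; exact hone), hv_log_bound hx hy]

private theorem hv_support (x : K) :
    (Function.support fun v : FinitePlace K => log⁺ (v x)).Finite := by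
  rcases eq_or_ne x 0 with rfl | hx
  · refine Set.finite_empty.subset fun v hv => hv ?_
    simp
  · refine (FinitePlace.hasFiniteMulSupport hx).subset fun v hv => ?_
    rw [Function.mem_mulSupport]
    intro h
    apply hv
    simp only [h, posLog_one]

end Places

/-- The height of a value of a polynomial in two variables with integer coefficients `c i j`,
`|c i j| ≤ B`: place by place (`v (∑ ...) ≤ (N+1)² B max (1, v x) ^ N max (1, v y) ^ N` for infinite
`v`, `≤ max (1, v x) ^ N max (1, v y) ^ N` for finite `v`). -/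
theorem height_value_le (K : Type) [Field K] [NumberField K] (x y : K) (N : ℕ)
    (c : Fin (N + 1) → Fin (N + 1) → ℤ) (B : ℝ) (hB1 : 1 ≤ B) (hB : ∀ i j, (|c i j| : ℝ) ≤ B) :
    logHeight₁ (∑ i, ∑ j, (c i j : K) * x ^ (i : ℕ) * y ^ (j : ℕ)) ≤
      N * (logHeight₁ x + logHeight₁ y) + finrank ℚ K * (2 * log (N + 1) + log B) := by
  classical
  set w : K := ∑ i, ∑ j, (c i j : K) * x ^ (i : ℕ) * y ^ (j : ℕ) with hw
  let S : Finset (FinitePlace K) :=
    (hv_support w).toFinset ∪ (hv_support x).toFinset ∪ (hv_support y).toFinset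
  have hsum : ∀ z : K, (hv_support z).toFinset ⊆ S →
      ∑ᶠ v : FinitePlace K, log⁺ (v z) = ∑ v ∈ S, log⁺ (v z) := by
    intro z hz
    rw [finsum_eq_sum_of_support_subset (s := S)]
    intro v hv
    exact hz ((hv_support z).mem_toFinset.2 hv)
  have hS1 : (hv_support w).toFinset ⊆ S :=
    Finset.subset_union_left.trans Finset.subset_union_left
  have hS2 : (hv_support x).toFinset ⊆ S :=
    Finset.subset_union_right.trans Finset.subset_union_left
  have hS3 : (hv_support y).toFinset ⊆ S := Finset.subset_union_right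
  have hfin : ∑ v ∈ S, log⁺ (v w) ≤ N * (∑ v ∈ S, log⁺ (v x) + ∑ v ∈ S, log⁺ (v y)) := by
    rw [← Finset.sum_add_distrib, Finset.mul_sum]
    exact Finset.sum_le_sum fun v _ => hv_fin v x y N c
  have hinf : ∑ v : InfinitePlace K, (v.mult : ℝ) * log⁺ (v w) ≤
      N * (∑ v : InfinitePlace K, (v.mult : ℝ) * log⁺ (v x) +
        ∑ v : InfinitePlace K, (v.mult : ℝ) * log⁺ (v y)) +
      finrank ℚ K * (2 * log (N + 1) + log B) := by
    have h1 : (finrank ℚ K : ℝ) = ∑ v : InfinitePlace K, (v.mult : ℝ) := by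
      rw [← InfinitePlace.sum_mult_eq]
      push_cast
      rfl
    rw [h1, Finset.sum_mul, ← Finset.sum_add_distrib, Finset.mul_sum, ← Finset.sum_add_distrib]
    refine Finset.sum_le_sum fun v _ => ?_
    have h2 := mul_le_mul_of_nonneg_left (hv_inf v x y N c B hB1 hB) (Nat.cast_nonneg v.mult)
    refine h2.trans (le_of_eq ?_)
    ring
  rw [NumberField.logHeight₁_eq, NumberField.logHeight₁_eq, NumberField.logHeight₁_eq,
    hsum w hS1, hsum x hS2, hsum y hS3]
  linarith

/-- The polynomial with integer coefficients `c i j`. -/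
noncomputable def polyOf {N : ℕ} (c : Fin (N + 1) → Fin (N + 1) → ℤ) : MvPolynomial (Fin 2) ℚ :=
  ∑ i : Fin (N + 1), ∑ j : Fin (N + 1),
    MvPolynomial.monomial (Finsupp.single 0 (i : ℕ) + Finsupp.single 1 (j : ℕ)) (c i j : ℚ)

private theorem expo_inj {i j i' j' : ℕ}
    (h : (Finsupp.single 0 i + Finsupp.single 1 j : Fin 2 →₀ ℕ) =
      Finsupp.single 0 i' + Finsupp.single 1 j') : i = i' ∧ j = j' := by
  have h0 := DFunLike.congr_fun h 0
  have h1 := DFunLike.congr_fun h 1
  simpa using And.intro h0 h1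

private theorem coeff_polyOf {N : ℕ} (c : Fin (N + 1) → Fin (N + 1) → ℤ) (i j : Fin (N + 1)) :
    (polyOf c).coeff (Finsupp.single 0 (i : ℕ) + Finsupp.single 1 (j : ℕ)) = (c i j : ℚ) := by
  classical
  unfold polyOf
  simp only [MvPolynomial.coeff_sum, MvPolynomial.coeff_monomial]
  rw [Finset.sum_eq_single i, Finset.sum_eq_single j]
  · rw [if_pos rfl]
  · intro j' _ hj'
    rw [if_neg]
    intro h
    exact hj' (Fin.ext (expo_inj h).2)
  · intro h; exact absurd (Finset.mem_univ _) h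
  · intro i' _ hi'
    refine Finset.sum_eq_zero fun j' _ => ?_
    rw [if_neg]
    intro h
    exact hi' (Fin.ext (expo_inj h).1)
  · intro h; exact absurd (Finset.mem_univ _) h

theorem polyOf_ne_zero {N : ℕ} (c : Fin (N + 1) → Fin (N + 1) → ℤ) (hc : c ≠ 0) : polyOf c ≠ 0 := by
  intro h0
  apply hc
  funext i j
  have := coeff_polyOf c i j
  rw [h0, MvPolynomial.coeff_zero] at this
  exact_mod_cast this.symm

theorem aeval_polyOf {K : Type} [Field K] [Algebra ℚ K] {N : ℕ}
    (c : Fin (N + 1) → Fin (N + 1) → ℤ) (x y : K) :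
    MvPolynomial.aeval ![x, y] (polyOf c) = ∑ i, ∑ j, (c i j : K) * x ^ (i : ℕ) * y ^ (j : ℕ) := by
  unfold polyOf
  simp only [map_sum]
  refine Finset.sum_congr rfl fun i _ => Finset.sum_congr rfl fun j _ => ?_
  rw [MvPolynomial.aeval_monomial, Finsupp.prod_add_index', Finsupp.prod_single_index,
    Finsupp.prod_single_index]
  · simp [mul_assoc]
  · simp
  · simp
  · intro a; simp
  · intro a b₁ b₂; rw [pow_add]

end Pool.Agent.LThree
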