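import Mathlib

set_option autoImplicit false

/-! B4. Dirichlet's box principle for linear forms. -/

namespace Pool.Agent.LThree

/-- Integers `c j`, not all zero, `|c j| ≤ X`, which make all the forms `∑ c j a j i` small. Proof:
the vectors `c : J → {0, ..., X}` (there are `(X+1)^#J`) have `∑ c j a j i ∈ [-A, A]`,
`A = #J X R`; the map `c ↦ (⌊(∑ c j a j i + A) / δ⌋)_i` takes at most `(2 A / δ + 2) ^ #I` values
(`Fintype.exists_ne_map_eq_of_card_lt` or `Finset.exists_ne_map_eq_of_card_lt_of_maps_to`); subtract two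
vectors with the same image. -/
theorem pigeon {J I : Type} [Fintype J] [Fintype I] (a : J → I → ℝ) (X : ℕ) (R δ : ℝ)
    (hR0 : 0 ≤ R) (hδ : 0 < δ) (hR : ∀ j i, |a j i| ≤ R)
    (hcard : (2 * (Fintype.card J * X * R) / δ + 2) ^ Fintype.card I <
      ((X : ℝ) + 1) ^ Fintype.card J) :
    ∃ c : J → ℤ, c ≠ 0 ∧ (∀ j, |c j| ≤ X) ∧ ∀ i, |∑ j, (c j : ℝ) * a j i| ≤ δ := by
  classical
  set A : ℝ := Fintype.card J * X * R with hA
  have hA0 : 0 ≤ A := by positivity
  set M : ℕ := ⌊2 * A / δ⌋₊ with hM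
  have hM0 : (M : ℝ) ≤ 2 * A / δ := Nat.floor_le (by positivity)
  set S : (J → Fin (X + 1)) → I → ℝ := fun c i => ∑ j, ((c j : ℕ) : ℝ) * a j i with hS
  have hSA : ∀ c i, |S c i| ≤ A := by
    intro c i
    calc |S c i| ≤ ∑ j, |((c j : ℕ) : ℝ) * a j i| := Finset.abs_sum_le_sum_abs _ _
      _ ≤ ∑ _j : J, (X : ℝ) * R := by
          refine Finset.sum_le_sum fun j _ => ?_
          rw [abs_mul, Nat.abs_cast]
          have h1 : (((c j : Fin (X + 1)) : ℕ) : ℝ) ≤ X := by
            exact_mod_cast Nat.lt_succ_iff.1 (c j).2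
          exact mul_le_mul h1 (hR j i) (abs_nonneg _) (Nat.cast_nonneg _)
      _ = A := by
          rw [Finset.sum_const, Finset.card_univ, nsmul_eq_mul, hA]
          ring
  have hval : ∀ c i, 0 ≤ (S c i + A) / δ ∧ (S c i + A) / δ ≤ 2 * A / δ := by
    intro c i
    have h1 := abs_le.1 (hSA c i)
    exact ⟨div_nonneg (by linarith) hδ.le, div_le_div_of_nonneg_right (by linarith) hδ.le⟩
  set f : (J → Fin (X + 1)) → I → Fin (M + 1) := fun c i =>
    ⟨⌊(S c i + A) / δ⌋₊, Nat.lt_succ_of_le (Nat.floor_le_floor (hval c i).2)⟩ with hf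
  have hlt : Fintype.card (I → Fin (M + 1)) < Fintype.card (J → Fin (X + 1)) := by
    rw [Fintype.card_fun, Fintype.card_fun, Fintype.card_fin, Fintype.card_fin]
    have h1 : ((M : ℝ) + 1) ^ Fintype.card I ≤ (2 * A / δ + 2) ^ Fintype.card I :=
      pow_le_pow_left₀ (by positivity) (by linarith) _
    have h2 := h1.trans_lt hcard
    exact_mod_cast h2
  obtain ⟨c, c', hne, he⟩ := Fintype.exists_ne_map_eq_of_card_lt f hlt
  refine ⟨fun j => ((c j : ℕ) : ℤ) - ((c' j : ℕ) : ℤ), ?_, ?_, ?_⟩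
  · intro h0
    apply hne
    funext j
    have h1 := congrFun h0 j
    rw [Pi.zero_apply, sub_eq_zero] at h1
    exact Fin.ext (by exact_mod_cast h1)
  · intro j
    have h1 : ((c j : Fin (X + 1)) : ℕ) ≤ X := Nat.lt_succ_iff.1 (c j).2
    have h2 : ((c' j : Fin (X + 1)) : ℕ) ≤ X := Nat.lt_succ_iff.1 (c' j).2
    rw [abs_le]
    dsimp only
    constructor <;> omega
  · intro i
    have h1 : ⌊(S c i + A) / δ⌋₊ = ⌊(S c' i + A) / δ⌋₊ := congrArg Fin.val (congrFun he i)
    have h2 : (∑ j, ((((c j : ℕ) : ℤ) - ((c' j : ℕ) : ℤ) : ℤ) : ℝ) * a j i) = S c i - S c' i := by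
      rw [hS, ← Finset.sum_sub_distrib]
      refine Finset.sum_congr rfl fun j _ => ?_
      push_cast
      ring
    rw [h2]
    have a1 := Nat.floor_le (hval c i).1
    have a2 := Nat.lt_floor_add_one ((S c i + A) / δ)
    have b1 := Nat.floor_le (hval c' i).1
    have b2 := Nat.lt_floor_add_one ((S c' i + A) / δ)
    rw [h1] at a1 a2
    have h3 : |(S c i + A) / δ - (S c' i + A) / δ| ≤ 1 := by
      rw [abs_le]
      constructor <;> linarith
    rw [← sub_div, add_sub_add_right_eq_sub, abs_div, abs_of_pos hδ, div_le_one hδ] at h3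
    exact h3

end Pool.Agent.LThree
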