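import Pool.Agent.LThree.SmallCoef
import Pool.Agent.LThree.Tri

set_option autoImplicit false

/-! B7b. Integer polynomials in two variables which are tiny near three segments. -/

namespace Pool.Agent.LThree

open Real

/-- **Small near three segments.** From `small_coef` with `G + G'`, `N ≥ 1` large: for complex `x`, `y` with
`|log ‖x‖ - t u 0| ≤ ε` etc., `S = 1 + ‖x‖² - ‖1-x‖²`, `Q = ‖x‖²` (`sq_eq`) are within
`8 ε exp (2 U C + 2)` of the values in `gcoef` (`ε ≤ 1`), all of them are at most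
`R = 3 exp (2 U C + 2)` in absolute value; so (`pow_eq_pwc`)
`∑ c i j x^i y^j = ∑_{a,b} x^a y^b ∑ c i j (pwc i a) (pwc j b)` with
`‖x‖, ‖y‖ ≤ exp (U C + 1)`, and replacing the `pwc` by their values on the segment costs at most
`4 exp (2 U C + 2) (N+1)² exp N * 2 ε 8 exp (2 U C + 2) (4 R) ^ (2 N)` (`pwc_bound`, `pwc_lip`), which is
at most `exp (-G N) / 2` for small `ε`. The main term is at most
`4 exp (2 U C + 2) exp (-(G+G') N) ≤ exp (-G N) / 2`. -/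
theorem small_poly (U C G : ℝ) : ∃ N : ℕ, 1 ≤ N ∧ ∃ ε : ℝ, 0 < ε ∧
    ∀ u : Fin 3 → Fin 4 → ℝ, (∀ τ k, |u τ k| ≤ U) →
      ∃ c : Fin (N + 1) → Fin (N + 1) → ℤ, c ≠ 0 ∧ (∀ i j, (|c i j| : ℝ) ≤ exp N) ∧
        ∀ (τ : Fin 3) (t : ℝ), 0 ≤ t → t ≤ C → ∀ x y : ℂ, x ≠ 0 → x ≠ 1 → y ≠ 0 → y ≠ 1 →
          |log ‖x‖ - t * u τ 0| ≤ ε → |log ‖1 - x‖ - t * u τ 1| ≤ ε →
          |log ‖y‖ - t * u τ 2| ≤ ε → |log ‖1 - y‖ - t * u τ 3| ≤ ε →
          ‖∑ i, ∑ j, (c i j : ℂ) * x ^ (i : ℕ) * y ^ (j : ℕ)‖ ≤ exp (-G * N) := by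
  classical
  set V : ℝ := max U 0 * max C 0 with hV
  have hV0 : 0 ≤ V := mul_nonneg (le_max_right _ _) (le_max_right _ _)
  set E : ℝ := exp (V + 1) with hE
  have hE1 : 1 ≤ E := Real.one_le_exp (by linarith)
  set R : ℝ := 3 * E ^ 2 with hR
  have hE2 : 1 ≤ E ^ 2 := one_le_pow₀ hE1
  have hR1 : 1 ≤ R := by
    rw [hR]
    linarith
  set G' : ℝ := 2 * V + 5 with hG'
  obtain ⟨N0, hN0⟩ := small_coef U C (G + G')
  set N : ℕ := max N0 1 with hN
  have hN1 : 1 ≤ N := le_max_right _ _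
  have hN1R : (1 : ℝ) ≤ N := by exact_mod_cast hN1
  set K : ℝ := 4 * E ^ 2 * (((N : ℝ) + 1) ^ 2 * exp N * (8 * E ^ 2 * (4 * R) ^ (2 * N))) with hK
  have hKpos : 0 < K := by
    rw [hK]
    positivity
  set ε : ℝ := min 1 (exp (-G * N) / (2 * K)) with hε
  have hεpos : 0 < ε := lt_min one_pos (by positivity)
  have hε1 : ε ≤ 1 := min_le_left _ _
  have hεK : K * ε ≤ exp (-G * N) / 2 := by
    have h1 : ε ≤ exp (-G * N) / (2 * K) := min_le_right _ _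
    have h2 := mul_le_mul_of_nonneg_left h1 hKpos.le
    have h3 : K * (exp (-G * N) / (2 * K)) = exp (-G * N) / 2 := by
      field_simp
    rwa [h3] at h2
  refine ⟨N, hN1, ε, hεpos, fun u hu => ?_⟩
  obtain ⟨c, hc0, hcb, hc⟩ := hN0 N (le_max_left _ _) u hu
  refine ⟨c, hc0, hcb, fun τ t ht0 htC x y hx0 hx1 hy0 hy1 e0 e1 e2 e3 => ?_⟩
  have hU0 : ∀ k, |t * u τ k| ≤ V := by
    intro k
    rw [abs_mul, abs_of_nonneg ht0, mul_comm]
    exact mul_le_mul ((hu τ k).trans (le_max_left _ _)) (htC.trans (le_max_left _ _)) ht0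
      (le_max_right _ _)
  -- norms
  have norms : ∀ (z : ℂ) (k : Fin 4), z ≠ 0 → |log ‖z‖ - t * u τ k| ≤ ε →
      ‖z‖ ≤ E ∧ exp (2 * (t * u τ k)) ≤ E ^ 2 ∧
        |‖z‖ ^ 2 - exp (2 * (t * u τ k))| ≤ 2 * ε * E ^ 2 := by
    intro z k hz hzk
    have hpos : 0 < ‖z‖ := norm_pos_iff.2 hz
    obtain ⟨h1, h2⟩ := abs_le.1 hzk
    obtain ⟨h3, h4⟩ := abs_le.1 (hU0 k)
    have h5 : ‖z‖ = exp (log ‖z‖) := (Real.exp_log hpos).symm
    have h6 : log ‖z‖ ≤ V + 1 := by linarith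
    have h7 : ‖z‖ ≤ E := by
      rw [h5, hE]
      exact Real.exp_le_exp.2 h6
    have h8 : E ^ 2 = exp (2 * (V + 1)) := by
      rw [hE, ← Real.exp_nat_mul]
      norm_num
    have h9 : exp (2 * (t * u τ k)) ≤ E ^ 2 := by
      rw [h8]
      exact Real.exp_le_exp.2 (by linarith)
    refine ⟨h7, h9, ?_⟩
    have h10 : ‖z‖ ^ 2 = exp (2 * log ‖z‖) := by
      conv_lhs => rw [h5]
      rw [← Real.exp_nat_mul]
      norm_num
    -- the exponential is Lipschitz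
    have lip : ∀ p q : ℝ, q ≤ p → p ≤ 2 * (V + 1) → exp p - exp q ≤ E ^ 2 * (p - q) := by
      intro p q hqp hp
      have h11 : exp q = exp p * exp (q - p) := by
        rw [← Real.exp_add]
        congr 1
        ring
      have h12 := Real.add_one_le_exp (q - p)
      have h13 : exp p ≤ E ^ 2 := by
        rw [h8]
        exact Real.exp_le_exp.2 hp
      have h14 : 0 < exp p := Real.exp_pos p
      rw [h11]
      have h15 : exp p - exp p * exp (q - p) ≤ exp p * (p - q) := by nlinarith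
      exact h15.trans (mul_le_mul_of_nonneg_right h13 (by linarith))
    rw [h10, abs_le]
    rcases le_total (2 * log ‖z‖) (2 * (t * u τ k)) with h | h
    · have h16 := lip _ _ h (by linarith)
      have h17 := Real.exp_le_exp.2 h
      have h18 : E ^ 2 * (2 * (t * u τ k) - 2 * log ‖z‖) ≤ E ^ 2 * (2 * ε) :=
        mul_le_mul_of_nonneg_left (by linarith) (by linarith)
      have h19 : 0 ≤ 2 * ε * E ^ 2 := by positivity
      constructor <;> linarith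
    · have h16 := lip _ _ h (by linarith)
      have h17 := Real.exp_le_exp.2 h
      have h18 : E ^ 2 * (2 * log ‖z‖ - 2 * (t * u τ k)) ≤ E ^ 2 * (2 * ε) :=
        mul_le_mul_of_nonneg_left (by linarith) (by linarith)
      have h19 : 0 ≤ 2 * ε * E ^ 2 := by positivity
      constructor <;> linarith
  -- data of one point
  have data : ∀ (z : ℂ) (k l : Fin 4), z ≠ 0 → z ≠ 1 → |log ‖z‖ - t * u τ k| ≤ ε →
      |log ‖1 - z‖ - t * u τ l| ≤ ε → ∀ (i : ℕ), i ≤ N → ∀ a : Fin 2,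
        |pwc (1 + ‖z‖ ^ 2 - ‖1 - z‖ ^ 2) (‖z‖ ^ 2) i a| ≤ (4 * R) ^ N ∧
        |pwc (1 + exp (2 * (t * u τ k)) - exp (2 * (t * u τ l))) (exp (2 * (t * u τ k))) i a| ≤
          (4 * R) ^ N ∧
        |pwc (1 + ‖z‖ ^ 2 - ‖1 - z‖ ^ 2) (‖z‖ ^ 2) i a -
          pwc (1 + exp (2 * (t * u τ k)) - exp (2 * (t * u τ l))) (exp (2 * (t * u τ k))) i a| ≤
          4 * ε * E ^ 2 * (4 * R) ^ N := by
    intro z k l hz0 hz1 hk hl i hi a
    obtain ⟨n1, n2, n3⟩ := norms z k hz0 hk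
    obtain ⟨m1, m2, m3⟩ := norms (1 - z) l (sub_ne_zero.2 (Ne.symm hz1)) hl
    have p1 : ‖z‖ ^ 2 ≤ E ^ 2 := pow_le_pow_left₀ (norm_nonneg _) n1 2
    have p2 : ‖1 - z‖ ^ 2 ≤ E ^ 2 := pow_le_pow_left₀ (norm_nonneg _) m1 2
    have q1 : 0 ≤ ‖z‖ ^ 2 := by positivity
    have q2 : 0 ≤ ‖1 - z‖ ^ 2 := by positivity
    have q3 : 0 < exp (2 * (t * u τ k)) := Real.exp_pos _
    have q4 : 0 < exp (2 * (t * u τ l)) := Real.exp_pos _
    have bS : |1 + ‖z‖ ^ 2 - ‖1 - z‖ ^ 2| ≤ R := by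
      rw [hR, abs_le]
      constructor <;> linarith
    have bQ : |‖z‖ ^ 2| ≤ R := by
      rw [hR, abs_of_nonneg q1]
      linarith
    have bS' : |1 + exp (2 * (t * u τ k)) - exp (2 * (t * u τ l))| ≤ R := by
      rw [hR, abs_le]
      constructor <;> linarith
    have bQ' : |exp (2 * (t * u τ k))| ≤ R := by
      rw [hR, abs_of_pos q3]
      linarith
    have hεE : 0 ≤ ε * E ^ 2 := by positivity
    have dS : |(1 + ‖z‖ ^ 2 - ‖1 - z‖ ^ 2) -
        (1 + exp (2 * (t * u τ k)) - exp (2 * (t * u τ l)))| ≤ 4 * ε * E ^ 2 := by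
      obtain ⟨r1, r2⟩ := abs_le.1 n3
      obtain ⟨r3, r4⟩ := abs_le.1 m3
      rw [abs_le]
      constructor <;> linarith
    have dQ : |‖z‖ ^ 2 - exp (2 * (t * u τ k))| ≤ 4 * ε * E ^ 2 := by
      refine n3.trans ?_
      linarith
    have hmono : (2 * R) ^ i ≤ (4 * R) ^ N := by
      calc (2 * R) ^ i ≤ (4 * R) ^ i := pow_le_pow_left₀ (by linarith) (by linarith) i
        _ ≤ (4 * R) ^ N := pow_le_pow_right₀ (by linarith) hi
    have hmono' : (4 * R) ^ i ≤ (4 * R) ^ N := pow_le_pow_right₀ (by linarith) hi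
    refine ⟨(pwc_bound _ _ R hR1 bS bQ i a).trans hmono,
      (pwc_bound _ _ R hR1 bS' bQ' i a).trans hmono, ?_⟩
    refine (pwc_lip _ _ _ _ R _ hR1 bS bQ bS' bQ' dS dQ i a).trans ?_
    exact mul_le_mul_of_nonneg_left hmono' (by positivity)
  obtain ⟨nx, -, -⟩ := norms x 0 hx0 e0
  obtain ⟨ny, -, -⟩ := norms y 2 hy0 e2
  have dx := data x 0 1 hx0 hx1 e0 e1
  have dy := data y 2 3 hy0 hy1 e2 e3
  set S := 1 + ‖x‖ ^ 2 - ‖1 - x‖ ^ 2 with hS
  set Q := ‖x‖ ^ 2 with hQ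
  set T := 1 + ‖y‖ ^ 2 - ‖1 - y‖ ^ 2 with hT
  set P := ‖y‖ ^ 2 with hP
  have hx := pow_eq_pwc x S Q (sq_eq x)
  have hy := pow_eq_pwc y T P (sq_eq y)
  -- the coefficient sums
  have hcoef : ∀ a b : Fin 2, |∑ i : Fin (N + 1), ∑ j : Fin (N + 1),
      (c i j : ℝ) * (pwc S Q i a * pwc T P j b)| ≤
      exp (-(G + G') * N) +
        ((N : ℝ) + 1) ^ 2 * exp N * (8 * ε * E ^ 2 * (4 * R) ^ (2 * N)) := by
    intro a b
    have h1 : ∑ i : Fin (N + 1), ∑ j : Fin (N + 1), (c i j : ℝ) * (pwc S Q i a * pwc T P j b) =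
        ∑ i : Fin (N + 1), ∑ j : Fin (N + 1), (c i j : ℝ) * gcoef (u τ) t i j a b +
        ∑ i : Fin (N + 1), ∑ j : Fin (N + 1), (c i j : ℝ) * (pwc S Q i a * pwc T P j b -
          gcoef (u τ) t i j a b) := by
      rw [← Finset.sum_add_distrib]
      refine Finset.sum_congr rfl fun i _ => ?_
      rw [← Finset.sum_add_distrib]
      refine Finset.sum_congr rfl fun j _ => ?_
      ring
    rw [h1]
    refine (abs_add_le _ _).trans (add_le_add (hc τ t ht0 htC a b) ?_)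
    have h2 : ∀ i j : Fin (N + 1), |(c i j : ℝ) * (pwc S Q i a * pwc T P j b -
        gcoef (u τ) t i j a b)| ≤ exp N * (8 * ε * E ^ 2 * (4 * R) ^ (2 * N)) := by
      intro i j
      rw [abs_mul]
      have hi : (i : ℕ) ≤ N := Nat.lt_succ_iff.1 i.isLt
      have hj : (j : ℕ) ≤ N := Nat.lt_succ_iff.1 j.isLt
      obtain ⟨a1, a2, a3⟩ := dx i hi a
      obtain ⟨b1, b2, b3⟩ := dy j hj b
      have hcb' : |(c i j : ℝ)| ≤ exp N := hcb i j
      refine mul_le_mul hcb' ?_ (abs_nonneg _) (Real.exp_pos _).le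
      unfold gcoef
      set p := pwc S Q i a with hp
      set q := pwc T P j b with hq
      set p' := pwc (1 + exp (2 * (t * u τ 0)) - exp (2 * (t * u τ 1))) (exp (2 * (t * u τ 0)))
        i a with hp'
      set q' := pwc (1 + exp (2 * (t * u τ 2)) - exp (2 * (t * u τ 3))) (exp (2 * (t * u τ 2)))
        j b with hq'
      have h3 : p * q - p' * q' = (p - p') * q + p' * (q - q') := by ring
      rw [h3]
      refine (abs_add_le _ _).trans ?_
      rw [abs_mul, abs_mul]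
      have h4 : |p - p'| * |q| ≤ (4 * ε * E ^ 2 * (4 * R) ^ N) * (4 * R) ^ N :=
        mul_le_mul a3 b1 (abs_nonneg _) (by positivity)
      have h5 : |p'| * |q - q'| ≤ (4 * R) ^ N * (4 * ε * E ^ 2 * (4 * R) ^ N) :=
        mul_le_mul a2 b3 (abs_nonneg _) (by positivity)
      have h6 : (4 * R) ^ (2 * N) = (4 * R) ^ N * (4 * R) ^ N := by
        rw [two_mul, pow_add]
      rw [h6]
      linarith
    calc |∑ i : Fin (N + 1), ∑ j : Fin (N + 1), (c i j : ℝ) * (pwc S Q i a * pwc T P j b -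
          gcoef (u τ) t i j a b)|
        ≤ ∑ i : Fin (N + 1), ∑ j : Fin (N + 1), |(c i j : ℝ) * (pwc S Q i a * pwc T P j b -
          gcoef (u τ) t i j a b)| := by
          refine (Finset.abs_sum_le_sum_abs _ _).trans (Finset.sum_le_sum fun i _ => ?_)
          exact Finset.abs_sum_le_sum_abs _ _
      _ ≤ ∑ _i : Fin (N + 1), ∑ _j : Fin (N + 1),
          exp N * (8 * ε * E ^ 2 * (4 * R) ^ (2 * N)) :=
          Finset.sum_le_sum fun i _ => Finset.sum_le_sum fun j _ => h2 i j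
      _ = _ := by
          rw [Finset.sum_const, Finset.sum_const, Finset.card_univ, Fintype.card_fin]
          simp only [nsmul_eq_mul]
          push_cast
          ring
  have hexp : ∑ i : Fin (N + 1), ∑ j : Fin (N + 1), (c i j : ℂ) * x ^ (i : ℕ) * y ^ (j : ℕ) =
      ∑ a : Fin 2, ∑ b : Fin 2, ((∑ i : Fin (N + 1), ∑ j : Fin (N + 1),
        (c i j : ℝ) * (pwc S Q i a * pwc T P j b) : ℝ) : ℂ) * (x ^ (a : ℕ) * y ^ (b : ℕ)) := by
    have h1 : ∀ i j : Fin (N + 1), (c i j : ℂ) * x ^ (i : ℕ) * y ^ (j : ℕ) =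
        ∑ a : Fin 2, ∑ b : Fin 2, ((c i j : ℂ) * ((pwc S Q i a : ℂ) * (pwc T P j b : ℂ))) *
          (x ^ (a : ℕ) * y ^ (b : ℕ)) := by
      intro i j
      rw [hx i, hy j]
      simp only [Fin.sum_univ_two]
      ring
    have h2 : ∑ i : Fin (N + 1), ∑ j : Fin (N + 1), (c i j : ℂ) * x ^ (i : ℕ) * y ^ (j : ℕ) =
        ∑ i : Fin (N + 1), ∑ j : Fin (N + 1), ∑ a : Fin 2, ∑ b : Fin 2,
          ((c i j : ℂ) * ((pwc S Q i a : ℂ) * (pwc T P j b : ℂ))) *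
          (x ^ (a : ℕ) * y ^ (b : ℕ)) :=
      Finset.sum_congr rfl fun i _ => Finset.sum_congr rfl fun j _ => h1 i j
    rw [h2]
    push_cast
    simp only [Finset.sum_mul, Fin.sum_univ_two]
    simp only [← Finset.sum_add_distrib]
  rw [hexp]
  have hterm : ∀ a b : Fin 2, ‖((∑ i : Fin (N + 1), ∑ j : Fin (N + 1),
        (c i j : ℝ) * (pwc S Q i a * pwc T P j b) : ℝ) : ℂ) * (x ^ (a : ℕ) * y ^ (b : ℕ))‖ ≤
      (exp (-(G + G') * N) +
        ((N : ℝ) + 1) ^ 2 * exp N * (8 * ε * E ^ 2 * (4 * R) ^ (2 * N))) * E ^ 2 := by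
    intro a b
    rw [norm_mul, Complex.norm_real, Real.norm_eq_abs]
    refine mul_le_mul (hcoef a b) ?_ (norm_nonneg _) (by positivity)
    rw [norm_mul, norm_pow, norm_pow]
    have h1 : ‖x‖ ^ (a : ℕ) ≤ E := by
      fin_cases a
      · simpa using hE1
      · simpa using nx
    have h2 : ‖y‖ ^ (b : ℕ) ≤ E := by
      fin_cases b
      · simpa using hE1
      · simpa using ny
    calc ‖x‖ ^ (a : ℕ) * ‖y‖ ^ (b : ℕ) ≤ E * E :=
          mul_le_mul h1 h2 (by positivity) (by linarith)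
      _ = E ^ 2 := by ring
  have hsum : ‖∑ a : Fin 2, ∑ b : Fin 2, ((∑ i : Fin (N + 1), ∑ j : Fin (N + 1),
        (c i j : ℝ) * (pwc S Q i a * pwc T P j b) : ℝ) : ℂ) * (x ^ (a : ℕ) * y ^ (b : ℕ))‖ ≤
      4 * ((exp (-(G + G') * N) +
        ((N : ℝ) + 1) ^ 2 * exp N * (8 * ε * E ^ 2 * (4 * R) ^ (2 * N))) * E ^ 2) := by
    refine (norm_sum_le _ _).trans ?_
    rw [Fin.sum_univ_two]
    have h1 := (norm_sum_le (Finset.univ : Finset (Fin 2)) fun b =>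
      ((∑ i : Fin (N + 1), ∑ j : Fin (N + 1),
        (c i j : ℝ) * (pwc S Q i 0 * pwc T P j b) : ℝ) : ℂ) * (x ^ ((0 : Fin 2) : ℕ) * y ^ (b : ℕ)))
    have h2 := (norm_sum_le (Finset.univ : Finset (Fin 2)) fun b =>
      ((∑ i : Fin (N + 1), ∑ j : Fin (N + 1),
        (c i j : ℝ) * (pwc S Q i 1 * pwc T P j b) : ℝ) : ℂ) * (x ^ ((1 : Fin 2) : ℕ) * y ^ (b : ℕ)))
    rw [Fin.sum_univ_two (f := fun b => ‖((∑ i : Fin (N + 1), ∑ j : Fin (N + 1),
        (c i j : ℝ) * (pwc S Q i 0 * pwc T P j b) : ℝ) : ℂ) *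
        (x ^ ((0 : Fin 2) : ℕ) * y ^ (b : ℕ))‖)] at h1
    rw [Fin.sum_univ_two (f := fun b => ‖((∑ i : Fin (N + 1), ∑ j : Fin (N + 1),
        (c i j : ℝ) * (pwc S Q i 1 * pwc T P j b) : ℝ) : ℂ) *
        (x ^ ((1 : Fin 2) : ℕ) * y ^ (b : ℕ))‖)] at h2
    have t00 := hterm 0 0
    have t01 := hterm 0 1
    have t10 := hterm 1 0
    have t11 := hterm 1 1
    linarith
  refine hsum.trans ?_
  -- numerics
  have hE2' : E ^ 2 = exp (2 * V + 2) := by
    rw [hE, ← Real.exp_nat_mul]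
    congr 1
    push_cast
    ring
  have n1 : 4 * (exp (-(G + G') * N) * E ^ 2) ≤ exp (-G * N) / 2 := by
    have h8 : (8 : ℝ) ≤ exp 3 := by
      have h2 : exp (3 : ℝ) = exp 1 ^ 3 := by
        rw [← Real.exp_nat_mul]
        norm_num
      rw [h2]
      have h3 := Real.exp_one_gt_d9
      have h4 : (2.7 : ℝ) ^ 3 ≤ exp 1 ^ 3 := pow_le_pow_left₀ (by norm_num) (by linarith) 3
      linarith [show (8 : ℝ) ≤ 2.7 ^ 3 by norm_num]
    have h9 : exp (-(G + G') * N) * E ^ 2 ≤ exp (-G * N) * exp (-3) := by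
      rw [hE2', ← Real.exp_add, ← Real.exp_add, Real.exp_le_exp, hG']
      have h10 : (2 * V + 5) * 1 ≤ (2 * V + 5) * (N : ℝ) :=
        mul_le_mul_of_nonneg_left hN1R (by linarith)
      nlinarith
    have h11 : exp (-3) ≤ 1 / 8 := by
      rw [Real.exp_neg, ← one_div]
      exact one_div_le_one_div_of_le (by norm_num) h8
    have h12 : 0 < exp (-G * N) := Real.exp_pos _
    nlinarith
  have n2 : 4 * ((((N : ℝ) + 1) ^ 2 * exp N * (8 * ε * E ^ 2 * (4 * R) ^ (2 * N))) * E ^ 2) =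
      K * ε := by
    rw [hK]
    ring
  have n3 : 4 * ((exp (-(G + G') * N) +
        ((N : ℝ) + 1) ^ 2 * exp N * (8 * ε * E ^ 2 * (4 * R) ^ (2 * N))) * E ^ 2) =
      4 * (exp (-(G + G') * N) * E ^ 2) +
      4 * ((((N : ℝ) + 1) ^ 2 * exp N * (8 * ε * E ^ 2 * (4 * R) ^ (2 * N))) * E ^ 2) := by
    ring
  rw [n3, n2]
  linarith

end Pool.Agent.LThree
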