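import Mathlib

set_option autoImplicit false

/-! A zero estimate on `G_a × G_m` (Vandermonde and a degree count). -/

namespace Pool.Agent.LThree

open Polynomial

/-- **Zero estimate.** Let `P(X, Y) = ∑ p j l X^j Y^l` (`j < J`, `l < M`) vanish at the points
`(ξ + m a, g^(r + m))`, `m < M`, `(r, ξ) ∈ Ω`, where the `ξ` are more than `M (J - 1)` different
numbers and `1, g, …, g^(M-1)` are different. Then `P = 0`. -/
theorem zero_est {K : Type} [Field K] (J M : ℕ) (g a : K) (hg0 : g ≠ 0)
    (hg : ∀ i j : Fin M, g ^ (i : ℕ) = g ^ (j : ℕ) → i = j) (p : Fin J → Fin M → K)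
    (Ω : Finset (ℕ × K)) (hinj : Set.InjOn Prod.snd (Ω : Set (ℕ × K)))
    (hcard : M * (J - 1) < Ω.card)
    (hz : ∀ q ∈ Ω, ∀ m < M,
      ∑ j, ∑ l, p j l * (q.2 + m * a) ^ (j : ℕ) * (g ^ (q.1 + m)) ^ (l : ℕ) = 0) :
    p = 0 := by
  classical
  by_contra hp
  -- the polynomials
  set P : Fin M → K[X] := fun l => ∑ j : Fin J, C (p j l) * X ^ (j : ℕ) with hP
  have hPne : ∃ l, P l ≠ 0 := by
    by_contra hcon
    push Not at hcon
    apply hp
    funext j l
    have h1 := congrArg (fun q => q.coeff (j : ℕ)) (hcon l)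
    simp only [hP, finsetSum_coeff, coeff_C_mul, coeff_X_pow, coeff_zero] at h1
    rw [Finset.sum_eq_single j] at h1
    · simpa using h1
    · intro b _ hb
      rw [if_neg, mul_zero]
      intro h
      exact hb (Fin.ext h.symm)
    · intro h
      exact absurd (Finset.mem_univ j) h
  obtain ⟨l0, hl0⟩ := hPne
  have hJ : 0 < J := by
    rcases Nat.eq_zero_or_pos J with h | h
    · subst h
      exact absurd (by simp [hP]) hl0
    · exact h
  have hdeg : ∀ l, (P l).natDegree < J := by
    intro l
    rw [hP]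
    refine lt_of_le_of_lt (natDegree_sum_le_of_forall_le (n := J - 1) _ _ ?_) (by omega)
    intro i _
    refine (natDegree_C_mul_X_pow_le _ _).trans ?_
    have := i.2
    omega
  have heval : ∀ l x, (P l).eval x = ∑ j : Fin J, p j l * x ^ (j : ℕ) := by
    intro l x
    rw [hP]
    simp only [eval_finsetSum, eval_mul, eval_C, eval_pow, eval_X]
  set N : Matrix (Fin M) (Fin M) K[X] := fun m l =>
    if P l = 0 then C (g ^ ((m : ℕ) * l)) else
      C (g ^ ((m : ℕ) * l)) * (P l).taylor ((m : ℕ) * a) with hN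
  set c : Fin M → K := fun l => if P l = 0 then 1 else (P l).leadingCoeff with hc
  have hNdeg : ∀ m l, (N m l).natDegree ≤ (P l).natDegree := by
    intro m l
    rw [hN]
    dsimp only
    split_ifs with h
    · rw [natDegree_C]
      exact Nat.zero_le _
    · refine (natDegree_C_mul_le _ _).trans ?_
      rw [natDegree_taylor]
  have hNc : ∀ m l, (N m l).coeff (P l).natDegree = (g ^ ((m : ℕ))) ^ (l : ℕ) * c l := by
    intro m l
    rw [hN, hc]
    dsimp only
    split_ifs with h
    · rw [h, natDegree_zero, coeff_C_zero, pow_mul, mul_one]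
    · rw [coeff_C_mul, pow_mul]
      congr 1
      have h1 : (taylor ((m : ℕ) * a) (P l)).coeff (P l).natDegree =
          (taylor ((m : ℕ) * a) (P l)).leadingCoeff := by
        rw [leadingCoeff, natDegree_taylor]
      rw [h1, leadingCoeff_taylor]
  set Q : Matrix (Fin M) (Fin M) K[X] :=
    Matrix.of fun m l => X ^ (J - 1 - (P l).natDegree) * N m l with hQ
  have hQdet : Q.det = (∏ l, (X : K[X]) ^ (J - 1 - (P l).natDegree)) * N.det := by
    rw [hQ, Matrix.det_mul_row]
  have hQdeg : ∀ m l, (Q m l).natDegree ≤ J - 1 := by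
    intro m l
    rw [hQ, Matrix.of_apply]
    refine natDegree_mul_le.trans ?_
    rw [natDegree_X_pow]
    have h1 := hNdeg m l
    have h2 := hdeg l
    omega
  have hQc : ∀ m l, (Q m l).coeff (J - 1) = (g ^ ((m : ℕ))) ^ (l : ℕ) * c l := by
    intro m l
    rw [hQ, Matrix.of_apply, coeff_X_pow_mul', if_pos (by omega), ← hNc m l]
    congr 1
    have h2 := hdeg l
    omega
  -- the determinant
  have hdetc : (Q.det).coeff (M * (J - 1)) ≠ 0 := by
    have h1 : (Q.det).coeff (M * (J - 1)) =
        (Matrix.of fun (m l : Fin M) => (g ^ (m : ℕ)) ^ (l : ℕ) * c l).det := by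
      rw [Matrix.det_apply, Matrix.det_apply, finsetSum_coeff]
      refine Finset.sum_congr rfl fun σ _ => ?_
      rw [coeff_smul]
      congr 1
      have h2 := coeff_prod_of_natDegree_le (Finset.univ : Finset (Fin M)) (fun i => Q (σ i) i)
        (J - 1) (fun i _ => hQdeg _ _)
      rw [Finset.card_univ, Fintype.card_fin] at h2
      rw [h2]
      exact Finset.prod_congr rfl fun i _ => by rw [hQc]; rfl
    rw [h1]
    have h2 : (Matrix.of fun (m l : Fin M) => (g ^ (m : ℕ)) ^ (l : ℕ) * c l) =
        Matrix.vandermonde (fun m : Fin M => g ^ (m : ℕ)) * Matrix.diagonal c := by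
      ext m l
      rw [Matrix.mul_diagonal]
      rfl
    rw [h2, Matrix.det_mul, Matrix.det_diagonal]
    refine mul_ne_zero ?_ ?_
    · rw [Matrix.det_vandermonde_ne_zero_iff]
      intro i j h
      exact hg i j h
    · rw [Finset.prod_ne_zero_iff]
      intro l _
      rw [hc]
      dsimp only
      split_ifs with h
      · exact one_ne_zero
      · exact leadingCoeff_ne_zero.2 h
  have hdet0 : N.det ≠ 0 := fun h => hdetc (by rw [hQdet, h, mul_zero, coeff_zero])
  have hdetdeg : N.det.natDegree ≤ M * (J - 1) := by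
    rw [Matrix.det_apply]
    refine natDegree_sum_le_of_forall_le _ _ fun σ _ => ?_
    refine (natDegree_smul_le _ _).trans ?_
    refine (natDegree_prod_le _ _).trans ?_
    refine (Finset.sum_le_card_nsmul _ _ (J - 1) fun i _ => ?_).trans ?_
    · have h1 := hNdeg (σ i) i
      have h2 := hdeg i
      omega
    · rw [Finset.card_univ, Fintype.card_fin, smul_eq_mul]
  -- the zeros
  have hroot : ∀ q ∈ Ω, N.det.eval q.2 = 0 := by
    intro q hq
    have h1 : N.det.eval q.2 = ((evalRingHom q.2).mapMatrix N).det := by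
      rw [← RingHom.map_det]
      rfl
    rw [h1, ← Matrix.exists_mulVec_eq_zero_iff]
    refine ⟨fun l => if P l = 0 then 0 else (g ^ q.1) ^ (l : ℕ), ?_, ?_⟩
    · intro h
      have h2 := congrFun h l0
      rw [if_neg hl0] at h2
      exact pow_ne_zero _ (pow_ne_zero _ hg0) h2
    · funext m
      have h3 := hz q hq m m.2
      rw [Finset.sum_comm] at h3
      refine Eq.trans ?_ h3
      rw [Matrix.mulVec, dotProduct]
      refine Finset.sum_congr rfl fun l _ => ?_
      have h4 : ((evalRingHom q.2).mapMatrix N) m l = (N m l).eval q.2 := rfl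
      rw [h4]
      have h5 : ∑ j : Fin J, p j l * (q.2 + (m : ℕ) * a) ^ (j : ℕ) * (g ^ (q.1 + (m : ℕ))) ^ (l : ℕ) =
          (P l).eval (q.2 + (m : ℕ) * a) * (g ^ (q.1 + (m : ℕ))) ^ (l : ℕ) := by
        rw [heval, Finset.sum_mul]
      rw [h5, hN]
      dsimp only
      by_cases h : P l = 0
      · rw [if_pos h, if_pos h, h, eval_zero, mul_zero, zero_mul]
      · rw [if_neg h, if_neg h, eval_mul, eval_C, taylor_eval, ← pow_mul, ← pow_mul, pow_mul,
          pow_mul, pow_mul, pow_add, mul_pow]
        ring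
  have h1 : (Ω.image Prod.snd).card ≤ N.det.natDegree := by
    refine card_le_degree_of_subset_roots ?_
    intro x hx
    have hx' : x ∈ Ω.image Prod.snd := hx
    obtain ⟨q, hq, rfl⟩ := Finset.mem_image.1 hx'
    rw [mem_roots hdet0]
    exact hroot q hq
  rw [Finset.card_image_of_injOn hinj] at h1
  omega

end Pool.Agent.LThree
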