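import Pool.Agent.LThree.SmallFun
import Pool.Agent.LThree.ZeroEst
import Pool.Agent.LThree.HtVal
import Pool.Agent.LThree.Mass

set_option autoImplicit false

/-! Linear forms `n log g - 2 π i k`: the auxiliary function. -/

namespace Pool.Agent.LThree

open NumberField Height Real Module

/-- Liouville. -/
theorem exp_neg_height_le (K : Type) [Field K] [NumberField K] (w : K) (hw : w ≠ 0)
    (v : InfinitePlace K) : exp (-logHeight₁ w) ≤ v w := by
  by_contra hcon
  push Not at hcon
  have h0 : 0 < v w := v.pos_iff.2 hw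
  set E : ℝ := -log (v w) with hE
  have h1 : logHeight₁ w < E := by
    have h2 := Real.log_lt_log h0 hcon
    rw [Real.log_exp] at h2
    linarith
  have hh : 0 ≤ logHeight₁ w := by exact zero_le_logHeight₁ w
  have hE0 : 0 ≤ E := hh.trans h1.le
  have h2 := height_ge_mass K w hw E hE0
  have h3 : (1 : ℝ) ≤ mass K (fun u => u w ≤ exp (-E)) := by
    classical
    unfold mass
    have h4 : v w ≤ exp (-E) := by
      rw [hE, neg_neg, Real.exp_log h0]
    calc (1 : ℝ) ≤ v.mult := by
          have := v.mult_pos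
          exact_mod_cast this
      _ = if v w ≤ exp (-E) then (v.mult : ℝ) else 0 := by rw [if_pos h4]
      _ ≤ _ := Finset.single_le_sum (f := fun u : InfinitePlace K =>
          if u w ≤ exp (-E) then (u.mult : ℝ) else 0)
          (fun u _ => by split_ifs; exacts [Nat.cast_nonneg _, le_rfl])
          (Finset.mem_univ v)
  nlinarith

/-- The height of a value of an integer polynomial in one variable. -/
theorem height_value_one (K : Type) [Field K] [NumberField K] (y : K) (M : ℕ) (q : Fin M → ℤ)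
    (B : ℝ) (hB1 : 1 ≤ B) (hB : ∀ l, (|q l| : ℝ) ≤ B) :
    logHeight₁ (∑ l, (q l : K) * y ^ (l : ℕ)) ≤
      M * logHeight₁ y + finrank ℚ K * (2 * log (M + 1) + log B) := by
  classical
  set c : Fin (M + 1) → Fin (M + 1) → ℤ := fun i j =>
    if i = 0 then (if h : (j : ℕ) < M then q ⟨j, h⟩ else 0) else 0 with hc
  have h1 := height_value_le K 1 y M c B hB1 (by
    intro i j
    rw [hc]
    dsimp only
    split_ifs
    · exact hB _
    · simp only [Int.cast_zero, abs_zero]; linarith
    · simp only [Int.cast_zero, abs_zero]; linarith)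
  have h2 : (∑ i, ∑ j, (c i j : K) * (1 : K) ^ (i : ℕ) * y ^ (j : ℕ)) =
      ∑ l, (q l : K) * y ^ (l : ℕ) := by
    rw [Finset.sum_eq_single 0]
    · rw [Fin.sum_univ_castSucc]
      have h3 : (c 0 (Fin.last M) : K) = 0 := by
        rw [hc]
        simp
      rw [h3, zero_mul, zero_mul, add_zero]
      refine Finset.sum_congr rfl fun l _ => ?_
      rw [hc]
      simp
    · intro i _ hi
      refine Finset.sum_eq_zero fun j _ => ?_
      rw [hc]
      dsimp only
      rw [if_neg hi, Int.cast_zero, zero_mul, zero_mul]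
    · intro h
      exact absurd (Finset.mem_univ _) h
  rw [h2, logHeight₁_one, zero_add] at h1
  exact h1

/-- The Taylor coefficients of `(n z) ^ j exp (2 π i l z)`. -/
noncomputable def tlc (n j l : ℕ) (t : ℕ) : ℂ :=
  if j ≤ t then (n : ℂ) ^ j * ((2 * (π : ℂ) * Complex.I * (l : ℂ)) ^ (t - j) /
    ((Nat.factorial (t - j) : ℕ) : ℂ)) else 0

theorem tlc_shift (n j l t : ℕ) (z : ℂ) : tlc n j l (t + j) * z ^ (t + j) =
    ((n : ℂ) * z) ^ j * ((2 * (π : ℂ) * Complex.I * (l : ℂ) * z) ^ t /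
      ((Nat.factorial t : ℕ) : ℂ)) := by
  rw [tlc, if_pos (Nat.le_add_left j t), Nat.add_sub_cancel, mul_pow _ z t, mul_pow, pow_add]
  ring

theorem tlc_hasSum (n j l : ℕ) (z : ℂ) : HasSum (fun t => tlc n j l t * z ^ t)
    (((n : ℂ) * z) ^ j * Complex.exp (2 * (π : ℂ) * Complex.I * (l : ℂ) * z)) := by
  have h1 : HasSum (fun t => tlc n j l (t + j) * z ^ (t + j))
      (((n : ℂ) * z) ^ j * Complex.exp (2 * (π : ℂ) * Complex.I * (l : ℂ) * z)) := by
    have h2 : HasSum (fun t : ℕ => (2 * (π : ℂ) * Complex.I * (l : ℂ) * z) ^ t /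
        ((Nat.factorial t : ℕ) : ℂ)) (Complex.exp (2 * (π : ℂ) * Complex.I * (l : ℂ) * z)) := by
      rw [Complex.exp_eq_exp_ℂ]
      exact NormedSpace.expSeries_div_hasSum_exp _
    have h3 := h2.mul_left (((n : ℂ) * z) ^ j)
    simp_rw [tlc_shift]
    exact h3
  have h2 := (hasSum_nat_add_iff (f := fun t => tlc n j l t * z ^ t) j).1 h1
  have h3 : ∑ i ∈ Finset.range j, tlc n j l i * z ^ i = 0 := by
    refine Finset.sum_eq_zero fun i hi => ?_
    rw [tlc, if_neg (by have := Finset.mem_range.1 hi; omega), zero_mul]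
  rwa [h3, add_zero] at h2

theorem tlc_bound (n J M j l : ℕ) (hj : j < J) (hl : l < M) (hn : 1 ≤ n) (ρ : ℝ) (hρ : 1 ≤ ρ) (t : ℕ) :
    ‖tlc n j l t‖ * ρ ^ t ≤
      (n * ρ * exp 1) ^ J * exp (2 * π * M * (ρ * exp 1)) * exp (-(t : ℝ)) := by
  have he : (1 : ℝ) ≤ exp 1 := Real.one_le_exp (by norm_num)
  have hn' : (1 : ℝ) ≤ n := by exact_mod_cast hn
  rw [tlc]
  split_ifs with h
  · obtain ⟨s, rfl⟩ := Nat.exists_eq_add_of_le h
    rw [Nat.add_sub_cancel_left]
    have hw : ‖(2 * π * Complex.I * l : ℂ)‖ = 2 * π * l := by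
      simp [abs_of_pos Real.pi_pos]
    have h1 : ‖(n : ℂ) ^ j * ((2 * π * Complex.I * l) ^ s / s.factorial)‖ =
        (n : ℝ) ^ j * ((2 * π * l) ^ s / s.factorial) := by
      rw [norm_mul, norm_pow, norm_div, norm_pow, hw, Complex.norm_natCast, Complex.norm_natCast]
    rw [h1]
    have h2 : exp (-((j + s : ℕ) : ℝ)) = (exp 1 ^ (j + s))⁻¹ := by
      rw [Real.exp_neg, ← Real.exp_nat_mul, mul_one]
    rw [h2, ← div_eq_mul_inv, le_div_iff₀ (by positivity)]
    have h3 : (2 * π * l * (ρ * exp 1)) ^ s / s.factorial ≤ exp (2 * π * M * (ρ * exp 1)) := by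
      refine (Real.pow_div_factorial_le_exp _ (by positivity) s).trans ?_
      rw [Real.exp_le_exp]
      have : (l : ℝ) ≤ M := by exact_mod_cast hl.le
      gcongr
    have h4 : (n * ρ * exp 1) ^ j ≤ (n * ρ * exp 1) ^ J := by
      refine pow_le_pow_right₀ ?_ hj.le
      calc (1 : ℝ) = 1 * 1 * 1 := by norm_num
        _ ≤ n * ρ * exp 1 := by gcongr
    calc (n : ℝ) ^ j * ((2 * π * l) ^ s / s.factorial) * ρ ^ (j + s) * exp 1 ^ (j + s)
        = (n * ρ * exp 1) ^ j * ((2 * π * l * (ρ * exp 1)) ^ s / s.factorial) := by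
          rw [pow_add, pow_add, mul_pow, mul_pow, mul_pow, mul_pow]
          ring
      _ ≤ _ := mul_le_mul h4 h3 (by positivity) (by positivity)
  · rw [norm_zero, zero_mul]
    positivity

end Pool.Agent.LThree
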