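import Pool.Agent.LThree.Triples

set_option autoImplicit false

/-! The theorem over all fields of characteristic zero. -/

namespace Pool.Agent.LThree

open NumberField Height Real Module

/-- integer vectors as rational vectors -/
private def toQ (ι : Type) : (ι → ℤ) →ₗ[ℤ] (ι → ℚ) where
  toFun a i := (a i : ℚ)
  map_add' a b := by
    funext i
    simp
  map_smul' c a := by
    funext i
    simp

private lemma toQ_apply {ι : Type} (a : ι → ℤ) (i : ι) : toQ ι a i = (a i : ℚ) := rfl

private lemma toQ_injective (ι : Type) : Function.Injective (toQ ι) := by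
  intro a b h
  funext i
  have := congrFun h i
  rw [toQ_apply, toQ_apply] at this
  exact_mod_cast this

private lemma mono_smul {F : Type} [Field F] {ι : Type} [Fintype ι] (z : ι → F) (m : ℕ)
    (a : ι → ℤ) : mono z (m • a) = mono z a ^ m := by
  unfold mono
  rw [← Finset.prod_pow]
  apply Finset.prod_congr rfl
  intro i _
  rw [← zpow_natCast, ← zpow_mul]
  congr 1
  simp [mul_comm]

private lemma clear_den {κ : Type} [Finite κ] (v : κ → ℚ) :
    ∃ N : ℕ, 0 < N ∧ ∃ a : κ → ℤ, ∀ i, (a i : ℚ) = N * v i := by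
  obtain ⟨b, hb⟩ := IsLocalization.exist_integer_multiples_of_finite (nonZeroDivisors ℤ) v
  choose a ha using hb
  have hb0 : (b : ℤ) ≠ 0 := nonZeroDivisors.coe_ne_zero b
  refine ⟨(b : ℤ).natAbs, Int.natAbs_pos.2 hb0, fun i => Int.sign (b : ℤ) * a i, fun i => ?_⟩
  have h1 : ((a i : ℤ) : ℚ) = (b : ℤ) * v i := by
    have h2 := ha i
    rw [Algebra.smul_def] at h2
    exact_mod_cast h2
  rw [Int.cast_mul, h1, ← mul_assoc, ← Int.cast_mul, Int.sign_mul_self_eq_natAbs,
    Int.cast_natCast]

/-- Relations between the numbers `z i` up to torsion, all exponents in a saturated or unsaturated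
subgroup of rank at least `card - k`, give `RankLe k`. -/
theorem rankLe_of_submodule {F : Type} [Field F] {ι : Type} [Fintype ι] (z : ι → F) (k : ℕ)
    (M : Submodule ℤ (ι → ℤ)) (hM : Fintype.card ι ≤ finrank ℤ M + k)
    (h : ∀ a ∈ M, ∃ m : ℕ, 0 < m ∧ mono z a ^ m = 1) : RankLe k z := by
  classical
  let b := finBasis ℤ M
  let v : Fin (finrank ℤ M) → ι → ℚ := fun j => toQ ι (b j : ι → ℤ)
  have hv : LinearIndependent ℚ v := by
    rw [← LinearIndependent.iff_fractionRing (R := ℤ) (K := ℚ)]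
    have h1 : LinearIndependent ℤ fun j => (b j : ι → ℤ) :=
      b.linearIndependent.map' M.subtype (Submodule.ker_subtype M)
    exact h1.map' (toQ ι) (LinearMap.ker_eq_bot.2 (toQ_injective ι))
  refine ⟨Submodule.span ℚ (Set.range v), ?_, ?_⟩
  · rw [finrank_span_eq_card hv, Fintype.card_fin]
    exact hM
  · intro a ha
    obtain ⟨c, hc⟩ := (Submodule.mem_span_range_iff_exists_fun ℚ).1 ha
    obtain ⟨N, hN, n, hn⟩ := clear_den c
    have h1 : N • a = ∑ j, n j • (b j : ι → ℤ) := by
      apply toQ_injective ι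
      rw [map_nsmul, map_sum]
      have h2 : toQ ι a = ∑ j, c j • v j := hc.symm
      rw [h2, ← Nat.cast_smul_eq_nsmul ℚ, Finset.smul_sum]
      apply Finset.sum_congr rfl
      intro j _
      rw [smul_smul, ← hn, map_smul, Int.cast_smul_eq_zsmul]
    have h2 : N • a ∈ M := by
      rw [h1]
      exact Submodule.sum_mem _ fun j _ => Submodule.smul_mem _ _ (b j).2
    obtain ⟨m, hm, h3⟩ := h _ h2
    refine ⟨N * m, Nat.mul_pos hN hm, ?_⟩
    rw [pow_mul, ← mono_smul]
    exact h3

/-- independent relations -/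
private lemma exists_rel {F : Type} [Field F] {ι : Type} [Fintype ι] {z : ι → F} {k : ℕ}
    (h : RankLe k z) (n : ℕ) (hn : n + k ≤ Fintype.card ι) :
    ∃ u : Fin n → ι → ℤ, LinearIndependent ℤ u ∧ ∀ j, mono z (u j) = 1 := by
  classical
  obtain ⟨U, hU, hz⟩ := h
  have hnU : n ≤ finrank ℚ U := by omega
  let b := finBasis ℚ U
  let v : Fin n → ι → ℚ := fun j => (b (Fin.castLE hnU j) : ι → ℚ)
  have hv : LinearIndependent ℚ v := by
    have h1 : LinearIndependent ℚ fun j => (b j : ι → ℚ) :=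
      b.linearIndependent.map' U.subtype (Submodule.ker_subtype U)
    exact h1.comp _ (Fin.castLE_injective hnU)
  choose N hN a ha using fun j => clear_den (v j)
  have haU : ∀ j, (fun i => (a j i : ℚ)) ∈ U := by
    intro j
    have h1 : (fun i => (a j i : ℚ)) = (N j : ℚ) • v j := by
      funext i
      rw [ha j i]
      rfl
    rw [h1]
    exact Submodule.smul_mem _ _ (b (Fin.castLE hnU j)).2
  choose m hm hmz using fun j => hz (a j) (haU j)
  refine ⟨fun j => m j • a j, ?_, fun j => ?_⟩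
  · have h1 : LinearIndependent ℚ fun j => toQ ι (m j • a j) := by
      have h2 : ∀ j, ((m j * N j : ℕ) : ℚ) ≠ 0 := fun j =>
        Nat.cast_ne_zero.2 (Nat.mul_pos (hm j) (hN j)).ne'
      have h3 := hv.units_smul fun j => Units.mk0 ((m j * N j : ℕ) : ℚ) (h2 j)
      convert h3 using 1
      funext j i
      change ((m j • a j) i : ℤ) = ((m j * N j : ℕ) : ℚ) * v j i
      rw [Pi.smul_apply, nsmul_eq_mul]
      push_cast
      rw [ha j i]
      ring
    rw [← LinearIndependent.iff_fractionRing (R := ℤ) (K := ℚ)] at h1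
    exact LinearIndependent.of_comp (toQ ι) h1
  · change mono z (m j • a j) = 1
    rw [mono_smul]
    exact hmz j

/-- a box without the origin -/
private noncomputable def box (B : ℕ) : Finset (Fin 3 ⊕ Fin 3 → ℤ) :=
  (Fintype.piFinset fun _ => Finset.Icc (-(B : ℤ)) B).erase 0

private lemma mem_box {B : ℕ} {m : Fin 3 ⊕ Fin 3 → ℤ} (h0 : m ≠ 0) (h : nrm m ≤ B) :
    m ∈ box B := by
  rw [box, Finset.mem_erase]
  refine ⟨h0, Fintype.mem_piFinset.2 fun i => ?_⟩
  have h1 : (m i).natAbs ≤ B := (Finset.le_sup (f := fun i => (m i).natAbs)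
    (Finset.mem_univ i)).trans h
  rw [Finset.mem_Icc]
  omega

private lemma zero_notMem_box (B : ℕ) : (0 : Fin 3 ⊕ Fin 3 → ℤ) ∉ box B :=
  Finset.notMem_erase _ _

private lemma card_six : Fintype.card (Fin 3 ⊕ Fin 3) = 6 := by simp

/-- **Points of rank at most two over any field of characteristic zero.** If all `x i` are algebraic
over `ℚ`, they lie in a number field (`IntermediateField.adjoin ℚ (Set.range x)`), `RankLe.of_map`,
`triples`. Otherwise three independent integer vectors of `U`, each multiplied by its `m`, are three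
independent relations: `TransThree`. -/
theorem field_two (h1 : ShortOne) (h3 : ShortThree) (hT : TransThree) :
    ∃ E : Finset (Fin 3 ⊕ Fin 3 → ℤ), 0 ∉ E ∧
    ∀ (F : Type) [Field F] [CharZero F] (x : Fin 3 → F), (∀ i, x i ≠ 0 ∧ x i ≠ 1) →
      RankLe 2 (co x) → ∃ u ∈ E, mono (co x) u = 1 := by
  classical
  obtain ⟨E, hE0, hE⟩ := triples h1 h3 hT
  obtain ⟨B, hB⟩ := hT
  refine ⟨E ∪ box B, fun h => ?_, ?_⟩
  · rcases Finset.mem_union.1 h with h | h
    · exact hE0 h
    · exact zero_notMem_box B h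
  · intro F _ _ x hx hr
    by_cases halg : ∀ i, IsAlgebraic ℚ (x i)
    · have : FiniteDimensional ℚ (IntermediateField.adjoin ℚ (Set.range x)) :=
        IntermediateField.finiteDimensional_adjoin fun y hy => by
          obtain ⟨i, rfl⟩ := hy
          exact (halg i).isIntegral
      have : NumberField (IntermediateField.adjoin ℚ (Set.range x)) := ⟨⟩
      let y : Fin 3 → IntermediateField.adjoin ℚ (Set.range x) := fun i =>
        ⟨x i, IntermediateField.subset_adjoin ℚ _ ⟨i, rfl⟩⟩
      let φ : IntermediateField.adjoin ℚ (Set.range x) →+* F := algebraMap _ F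
      have hco : (fun i => φ (co y i)) = co x := by
        funext i
        rcases i with i | i
        · rfl
        · change φ (1 - y i) = 1 - x i
          rw [map_sub, map_one]
          rfl
      obtain ⟨u, hu, hu1⟩ := hE _ y (fun i => ⟨fun h => (hx i).1 (congrArg Subtype.val h),
        fun h => (hx i).2 (congrArg Subtype.val h)⟩) (RankLe.of_map φ (by rw [hco]; exact hr))
      refine ⟨u, Finset.mem_union_left _ hu, ?_⟩
      have h4 : φ (mono (co y) u) = mono (co x) u := by
        rw [← hco]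
        simp only [mono, map_prod, map_zpow₀]
      rw [← h4, hu1, map_one]
    · push Not at halg
      obtain ⟨i, hi⟩ := halg
      obtain ⟨u, hu, hu1⟩ := exists_rel hr 3 (by rw [card_six]; norm_num)
      obtain ⟨m, hm0, hmB, hm⟩ := hB F x hx ⟨i, hi⟩ ⟨u, hu, hu1⟩
      exact ⟨m, Finset.mem_union_right _ (mem_box hm0 hmB), hm⟩

/-- Points of rank at most three with a transcendental coordinate. -/
theorem field_three (hT : TransThree) :
    ∃ E : Finset (Fin 3 ⊕ Fin 3 → ℤ), 0 ∉ E ∧
    ∀ (F : Type) [Field F] [CharZero F] (x : Fin 3 → F), (∀ i, x i ≠ 0 ∧ x i ≠ 1) →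
      (∃ i, Transcendental ℚ (x i)) → RankLe 3 (co x) → ∃ u ∈ E, mono (co x) u = 1 := by
  obtain ⟨B, hB⟩ := hT
  refine ⟨box B, zero_notMem_box B, ?_⟩
  intro F _ _ x hx ht hr
  obtain ⟨u, hu, hu1⟩ := exists_rel hr 3 (by rw [card_six])
  obtain ⟨m, hm0, hmB, hm⟩ := hB F x hx ht ⟨u, hu, hu1⟩
  exact ⟨m, mem_box hm0 hmB, hm⟩

/-- Points of rank at most four with two algebraically independent coordinates. -/
theorem field_four (hT : TransTwo) :
    ∃ E : Finset (Fin 3 ⊕ Fin 3 → ℤ), 0 ∉ E ∧
    ∀ (F : Type) [Field F] [CharZero F] (x : Fin 3 → F), (∀ i, x i ≠ 0 ∧ x i ≠ 1) →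
      (∃ i j, i ≠ j ∧ AlgebraicIndependent ℚ ![x i, x j]) → RankLe 4 (co x) →
      ∃ u ∈ E, mono (co x) u = 1 := by
  obtain ⟨B, hB⟩ := hT
  refine ⟨box B, zero_notMem_box B, ?_⟩
  intro F _ _ x hx ht hr
  obtain ⟨u, hu, hu1⟩ := exists_rel hr 2 (by rw [card_six])
  obtain ⟨m, hm0, hmB, hm⟩ := hB F x hx ht ⟨u, hu, hu1⟩
  exact ⟨m, mem_box hm0 hmB, hm⟩

/-- Three algebraically independent coordinates satisfy no relation (`relPoly_ne_zero`,
`aeval_relPoly`). -/
theorem field_five (F : Type) [Field F] [CharZero F] (x : Fin 3 → F)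
    (hx : AlgebraicIndependent ℚ x) : ¬ RankLe 5 (co x) := by
  intro hr
  obtain ⟨u, hu, hu1⟩ := exists_rel hr 1 (by rw [card_six])
  have hu0 : u 0 ≠ 0 := hu.ne_zero 0
  have hx' : ∀ i, x i ≠ 0 ∧ x i ≠ 1 := by
    intro i
    have ht : Transcendental ℚ (x i) := hx.transcendental i
    refine ⟨fun h => ht ?_, fun h => ht ?_⟩
    · rw [h]
      exact isAlgebraic_zero
    · rw [h]
      exact isAlgebraic_one
  have h1 := (aeval_relPoly x hx' (u 0)).2 (hu1 0)
  exact relPoly_ne_zero (u 0) hu0 (hx.eq_zero_of_aeval_eq_zero _ h1)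

end Pool.Agent.LThree
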