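import Pool.Agent.LThree.TwoLogC

set_option autoImplicit false

/-! Linear forms `n log g - 2 π i k`: the lower bound. -/

namespace Pool.Agent.LThree

open NumberField Height Real Module

private theorem tl_log_two_le (n : ℕ) : 1 ≤ log ((n : ℝ) + 2) ∨ n = 0 := by
  rcases Nat.eq_zero_or_pos n with h | h
  · exact Or.inr h
  · left
    rw [Real.le_log_iff_exp_le (by positivity)]
    have := Real.exp_one_lt_d9
    have h1 : (1 : ℝ) ≤ n := by exact_mod_cast h
    linarith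

/-- The case of a small order. -/
private theorem tl_small (K : Type) [Field K] [NumberField K] (g : K) (v : InfinitePlace K) (n : ℕ)
    (hne : g ^ n ≠ 1) : exp (-(2 * (n * logHeight₁ g) + 3 * finrank ℚ K)) ≤ v (g ^ n - 1) := by
  have h1 := exp_neg_height_le K (g ^ n - 1) (sub_ne_zero.2 hne) v
  refine le_trans ?_ h1
  rw [Real.exp_le_exp, neg_le_neg_iff]
  have h2 := height_value_one K (g ^ n) 2 ![-1, 1] 1 le_rfl (by
    intro l
    fin_cases l <;> simp)
  rw [Fin.sum_univ_two, logHeight₁_pow] at h2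
  have h3 : ((![-1, 1] : Fin 2 → ℤ) 0 : K) * (g ^ n) ^ ((0 : Fin 2) : ℕ) +
      ((![-1, 1] : Fin 2 → ℤ) 1 : K) * (g ^ n) ^ ((1 : Fin 2) : ℕ) = g ^ n - 1 := by
    simp
    ring
  have e3 : ((2 : ℕ) : ℝ) + 1 = 3 := by norm_num
  rw [h3, e3, Real.log_one, add_zero] at h2
  refine h2.trans ?_
  have h4 : log (3 : ℝ) ≤ 3 / 2 := by
    rw [Real.log_le_iff_le_exp (by norm_num)]
    have h6 : exp (3 / 2 : ℝ) = exp (3 / 4) ^ 2 := by
      rw [← Real.exp_nat_mul]
      norm_num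
    rw [h6]
    have h7 := Real.add_one_le_exp (3 / 4 : ℝ)
    nlinarith
  have hD : (0 : ℝ) ≤ finrank ℚ K := Nat.cast_nonneg _
  have h5 : (finrank ℚ K : ℝ) * (2 * log (3 : ℝ)) ≤ finrank ℚ K * (2 * (3 / 2)) := by
    gcongr
  push_cast
  linarith

/-- **A lower bound for `|g^n - 1|`** (`g` not a root of unity), polynomial in the degree and in `log n`. -/
theorem two_log (H0 : ℝ) : ∃ C : ℝ, 0 < C ∧ ∀ (K : Type) [Field K] [NumberField K] (g : K), g ≠ 0 →
    (∀ m : ℕ, 0 < m → g ^ m ≠ 1) → logHeight₁ g ≤ H0 * finrank ℚ K →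
    ∀ (v : InfinitePlace K) (n : ℕ), 1 ≤ n →
      exp (-(C * (finrank ℚ K * log (n + 2)) ^ 10)) ≤ v (g ^ n - 1) := by
  set H : ℝ := max H0 1 with hH
  have hH1 : 1 ≤ H := le_max_right _ _
  obtain ⟨C1, hC1⟩ := exists_nat_ge (72 * (22 + H) + 1)
  have hC1' : (1 : ℝ) ≤ C1 := by linarith
  obtain ⟨c, hc1, hc⟩ := tl_exists_c (log (6 * C1))
  have rc : (1 : ℝ) ≤ c := by exact_mod_cast hc1
  refine ⟨1024 * (6 * C1 ^ 2 * c ^ 2 + 6 * C1 * c ^ 2 + 4 * C1 * H * c + 5), by positivity, ?_⟩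
  intro K _ _ g hg0 hg hh v n hn
  set D : ℕ := finrank ℚ K with hD
  have hDpos : 0 < D := finrank_pos
  have rD : (1 : ℝ) ≤ D := by exact_mod_cast hDpos
  have rn : (1 : ℝ) ≤ n := by exact_mod_cast hn
  have hh' : logHeight₁ g ≤ H * D :=
    hh.trans (mul_le_mul_of_nonneg_right (le_max_left _ _) (by linarith))
  have hl1 : 1 ≤ log ((n : ℝ) + 2) := by
    rcases tl_log_two_le n with h | h
    · exact h
    · omega
  set q : ℕ := ⌈D * log ((n : ℝ) + 2)⌉₊ with hq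
  have hq1 : D * log ((n : ℝ) + 2) ≤ q := Nat.le_ceil _
  have hq2 : (q : ℝ) ≤ 2 * (D * log ((n : ℝ) + 2)) := by
    have h1 := Nat.ceil_lt_add_one (show 0 ≤ D * log ((n : ℝ) + 2) by positivity)
    have h2 : 1 ≤ D * log ((n : ℝ) + 2) := one_le_mul_of_one_le_of_one_le rD hl1
    linarith
  have hDq' : (D : ℝ) ≤ q := by
    refine le_trans ?_ hq1
    exact le_mul_of_one_le_right (by linarith) hl1
  have hDq : D ≤ q := by exact_mod_cast hDq'
  have hlq : log ((n : ℝ) + 2) ≤ q := by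
    refine le_trans ?_ hq1
    exact le_mul_of_one_le_left (by linarith) rD
  have rq : (1 : ℝ) ≤ q := rD.trans hDq'
  set M : ℕ := c * q ^ 3 with hM
  set R2 : ℕ := 2 * C1 * D ^ 2 * M with hR2
  set S : ℕ := 3 * C1 * D ^ 2 * M with hS
  set J : ℕ := 6 * C1 ^ 2 * D ^ 4 * M with hJ
  set T : ℕ := J * M / (2 * (2 * D + 1)) with hT
  set E : ℝ := (6 * C1 ^ 2 * c ^ 2 + 6 * C1 * c ^ 2 + 4 * C1 * H * c + 5) * (q : ℝ) ^ 10 with hE
  have hEle : E ≤ 1024 * (6 * C1 ^ 2 * c ^ 2 + 6 * C1 * c ^ 2 + 4 * C1 * H * c + 5) *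
      (D * log ((n : ℝ) + 2)) ^ 10 := by
    have h1 : (q : ℝ) ^ 10 ≤ (2 * (D * log ((n : ℝ) + 2))) ^ 10 :=
      pow_le_pow_left₀ (by linarith) hq2 10
    rw [mul_pow] at h1
    calc E ≤ (6 * C1 ^ 2 * c ^ 2 + 6 * C1 * c ^ 2 + 4 * C1 * H * c + 5) *
        (2 ^ 10 * (D * log ((n : ℝ) + 2)) ^ 10) := by
          rw [hE]
          gcongr
      _ = _ := by ring
  refine le_trans (Real.exp_le_exp.2 (neg_le_neg hEle)) ?_
  -- real forms
  have eM : (M : ℝ) = c * q ^ 3 := by rw [hM]; push_cast; ring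
  have eR2 : (R2 : ℝ) = 2 * C1 * D ^ 2 * M := by rw [hR2]; push_cast; ring
  have eJ : (J : ℝ) = 6 * C1 ^ 2 * D ^ 4 * M := by rw [hJ]; push_cast; ring
  have rM : (1 : ℝ) ≤ M := by
    rw [eM]
    exact one_le_mul_of_one_le_of_one_le rc (one_le_pow₀ rq)
  have hqp : ∀ i : ℕ, i ≤ 10 → (q : ℝ) ^ i ≤ q ^ 10 := fun i hi => pow_le_pow_right₀ rq hi
  have bR2 : (R2 : ℝ) ≤ 2 * C1 * c * q ^ 5 := by
    rw [eR2, eM]
    calc 2 * (C1 : ℝ) * D ^ 2 * (c * q ^ 3) ≤ 2 * C1 * (q : ℝ) ^ 2 * (c * q ^ 3) := by gcongr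
      _ = _ := by ring
  have bJM : (J : ℝ) * M ≤ 6 * C1 ^ 2 * c ^ 2 * q ^ 10 := by
    rw [eJ, eM]
    calc 6 * (C1 : ℝ) ^ 2 * D ^ 4 * (c * q ^ 3) * (c * q ^ 3) ≤
        6 * (C1 : ℝ) ^ 2 * (q : ℝ) ^ 4 * (c * q ^ 3) * (c * q ^ 3) := by gcongr
      _ = _ := by ring
  have bMR : ((M : ℝ) + R2) * M ≤ 3 * C1 * c ^ 2 * q ^ 10 := by
    have h1 : (M : ℝ) ≤ C1 * c * q ^ 5 := by
      rw [eM]
      calc (c : ℝ) * (q : ℝ) ^ 3 = 1 * c * (q : ℝ) ^ 3 := by ring
        _ ≤ (C1 : ℝ) * c * (q : ℝ) ^ 5 := by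
          have := pow_le_pow_right₀ rq (show 3 ≤ 5 by norm_num)
          gcongr
    calc ((M : ℝ) + R2) * M ≤ (C1 * c * q ^ 5 + 2 * C1 * c * q ^ 5) * (c * q ^ 3) := by
          rw [← eM]
          gcongr
      _ = 3 * C1 * c ^ 2 * q ^ 8 := by ring
      _ ≤ 3 * C1 * c ^ 2 * q ^ 10 := by
          have := hqp 8 (by norm_num)
          gcongr
  have bT : (T : ℝ) ≤ J * M := by
    have h1 : T ≤ J * M := Nat.div_le_self _ _
    exact_mod_cast h1
  -- suppose the value is small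
  by_contra hcon
  push Not at hcon
  set η : ℝ := v (g ^ n - 1) with hη
  set γ : ℂ := v.embedding g with hγ
  have hγ0 : γ ≠ 0 := by
    rw [hγ]
    exact fun h => hg0 (v.embedding.injective (by rw [h, map_zero]))
  have hη' : ‖γ ^ n - 1‖ = η := by
    rw [hη, ← InfinitePlace.norm_embedding_eq v, map_sub, map_pow, map_one]
  have hE5 : 5 ≤ E := by
    rw [hE]
    have h1 : (1 : ℝ) ≤ (q : ℝ) ^ 10 := one_le_pow₀ rq
    have h2 : (5 : ℝ) ≤ 6 * C1 ^ 2 * c ^ 2 + 6 * C1 * c ^ 2 + 4 * C1 * H * c + 5 := by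
      have : 0 ≤ 6 * (C1 : ℝ) ^ 2 * c ^ 2 + 6 * C1 * c ^ 2 + 4 * C1 * H * c := by positivity
      linarith
    calc (5 : ℝ) = 5 * 1 := by norm_num
      _ ≤ _ := mul_le_mul h2 h1 (by norm_num) (by linarith)
  have hηsmall : η ≤ 1 / 4 := by
    refine hcon.le.trans ?_
    rw [Real.exp_neg, one_div]
    apply inv_anti₀ (by norm_num)
    have := Real.add_one_le_exp E
    linarith
  set Λ : ℂ := Complex.log (γ ^ n) with hΛ
  have hΛle : ‖Λ‖ ≤ 2 * η := by
    have h1 := Complex.norm_log_one_add_half_le_self (z := γ ^ n - 1) (by rw [hη']; linarith)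
    rw [add_sub_cancel, hη'] at h1
    have h2 : 0 ≤ η := by rw [← hη']; exact norm_nonneg _
    linarith
  have hexpΛ : Complex.exp Λ = γ ^ n := Complex.exp_log (pow_ne_zero _ hγ0)
  have hn0 : (n : ℂ) ≠ 0 := by
    have : n ≠ 0 := by omega
    exact_mod_cast this
  set lam : ℂ := Λ / n with hlam
  have hlamΛ : ‖lam‖ ≤ ‖Λ‖ := by
    rw [hlam, norm_div, Complex.norm_natCast]
    exact div_le_self (norm_nonneg _) rn
  set ω : ℂ := γ * Complex.exp (-lam) with hω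
  have hωn : ω ^ n = 1 := by
    rw [hω, mul_pow, ← hexpΛ, ← Complex.exp_nat_mul, ← Complex.exp_add]
    have : Λ + n * -lam = 0 := by
      rw [hlam]
      field_simp
      ring
    rw [this, Complex.exp_zero]
  have hγω : γ = ω * Complex.exp lam := by
    rw [hω, mul_assoc, ← Complex.exp_add, neg_add_cancel, Complex.exp_zero, mul_one]
  set n' : ℕ := orderOf ω with hn'
  have hn'pos : 0 < n' := by
    rw [hn', orderOf_pos_iff, isOfFinOrder_iff_pow_eq_one]
    exact ⟨n, hn, hωn⟩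
  have hn'le : n' ≤ n := Nat.le_of_dvd hn (orderOf_dvd_of_pow_eq_one hωn)
  have hprim : IsPrimitiveRoot ω n' := IsPrimitiveRoot.orderOf ω
  obtain ⟨k, hk, hcop, hkω⟩ := (Complex.isPrimitiveRoot_iff ω n' (by omega)).1 hprim
  rcases le_or_gt R2 n' with hR | hR
  · -- the main case
    have hmain := tl_main H hH1 D C1 c q n' hDpos hn'pos hC1 hc1 hc hDq (by
        refine le_trans ?_ hlq
        apply Real.log_le_log (by exact_mod_cast hn'pos)
        have : (n' : ℝ) ≤ n := by exact_mod_cast hn'le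
        linarith) M R2 S J T hM hR2 hS hJ hT _ _ _ rfl rfl rfl
    have hJ1 : 1 ≤ J := by
      by_contra h
      have h0 : J = 0 := by omega
      rw [hT, h0] at hmain
      simp at hmain
    have hMn : 1 ≤ M := by exact_mod_cast rM
    by_cases hsm : ‖lam‖ * (((M : ℝ) + R2) * M) ≤ exp (-(T : ℝ))
    · refine two_log_core K g hg0 hg v H hh' M R2 S J T n' k hMn hJ1 hn'pos ?_ hR hcop hk.le
        hmain.1 ?_ lam ?_ hsm _ _ _ rfl rfl rfl ?_
      · rw [hR2, hS, hJ]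
        ring
      · have := Nat.div_mul_le_self (J * M) (2 * (2 * D + 1))
        rw [← hT] at this
        calc 2 * T * (2 * D + 1) = T * (2 * (2 * D + 1)) := by ring
          _ ≤ _ := this
      · rw [← hγ, hγω, hkω]
      · exact hmain.2
    · push Not at hsm
      have h1 : exp (-(T : ℝ)) < 2 * η * (((M : ℝ) + R2) * M) := by
        refine hsm.trans_le ?_
        have : 0 ≤ ((M : ℝ) + R2) * M := by positivity
        exact mul_le_mul_of_nonneg_right (hlamΛ.trans hΛle) this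
      have h2 : 2 * (((M : ℝ) + R2) * M) ≤ exp (2 * (((M : ℝ) + R2) * M)) := by
        have := Real.add_one_le_exp (2 * (((M : ℝ) + R2) * M))
        linarith
      have h3 : exp (-(T : ℝ)) < exp (-E) * exp (2 * (((M : ℝ) + R2) * M)) := by
        calc exp (-(T : ℝ)) < 2 * η * (((M : ℝ) + R2) * M) := h1
          _ = η * (2 * (((M : ℝ) + R2) * M)) := by ring
          _ ≤ exp (-E) * exp (2 * (((M : ℝ) + R2) * M)) := by
              apply mul_le_mul hcon.le h2 (by positivity) (Real.exp_pos _).le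
      rw [← Real.exp_add, Real.exp_lt_exp] at h3
      have h4 : E = 6 * C1 ^ 2 * c ^ 2 * q ^ 10 + 2 * (3 * C1 * c ^ 2 * q ^ 10) +
          (4 * C1 * H * c + 5) * q ^ 10 := by
        rw [hE]
        ring
      have h5 : 0 ≤ (4 * C1 * H * c + 5) * (q : ℝ) ^ 10 := by positivity
      linarith
  · -- small order
    have hne : g ^ n' ≠ 1 := hg n' hn'pos
    have h1 := tl_small K g v n' hne
    have h2 : v (g ^ n' - 1) ≤ 4 * η := by
      rw [← InfinitePlace.norm_embedding_eq v, map_sub, map_pow, map_one, ← hγ, hγω, mul_pow,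
        hprim.pow_eq_one, one_mul, ← Complex.exp_nat_mul]
      have h3 : ‖(n' : ℂ) * lam‖ ≤ ‖Λ‖ := by
        rw [hlam, norm_mul, norm_div, Complex.norm_natCast, Complex.norm_natCast, ← mul_div_assoc,
          div_le_iff₀ (by linarith), mul_comm]
        have : (n' : ℝ) ≤ n := by exact_mod_cast hn'le
        exact mul_le_mul_of_nonneg_left this (norm_nonneg _)
      have h4 := Complex.norm_exp_sub_one_le (x := (n' : ℂ) * lam) (by linarith)
      linarith
    have h3 : exp (-(2 * (n' * logHeight₁ g) + 3 * D)) ≤ 4 * exp (-E) := by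
      calc _ ≤ v (g ^ n' - 1) := h1
        _ ≤ 4 * η := h2
        _ ≤ _ := by linarith
    have h4 : (4 : ℝ) ≤ exp 2 := by
      have h5 : exp (2 : ℝ) = exp 1 ^ 2 := by
        rw [← Real.exp_nat_mul]
        norm_num
      have h6 := Real.exp_one_gt_d9
      rw [h5]
      nlinarith
    have h5 : exp (-(2 * (n' * logHeight₁ g) + 3 * D)) ≤ exp (2 - E) := by
      refine h3.trans ?_
      rw [sub_eq_add_neg, Real.exp_add]
      exact mul_le_mul_of_nonneg_right h4 (Real.exp_pos _).le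
    rw [Real.exp_le_exp] at h5
    have h6 : (n' : ℝ) * logHeight₁ g ≤ 2 * C1 * c * q ^ 5 * (H * q) := by
      have h7 : (n' : ℝ) ≤ 2 * C1 * c * q ^ 5 := by
        have : (n' : ℝ) ≤ R2 := by exact_mod_cast hR.le
        linarith
      have h8 : 0 ≤ logHeight₁ g := zero_le_logHeight₁ g
      have h9 : logHeight₁ g ≤ H * q := hh'.trans (by gcongr)
      gcongr
    have h7 : 2 * ((n' : ℝ) * logHeight₁ g) ≤ 4 * C1 * H * c * q ^ 10 := by
      calc 2 * ((n' : ℝ) * logHeight₁ g) ≤ 2 * (2 * C1 * c * q ^ 5 * (H * q)) := by linarith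
        _ = 4 * C1 * H * c * (q : ℝ) ^ 6 := by ring
        _ ≤ _ := by
          have := hqp 6 (by norm_num)
          gcongr
    have h8 : 3 * (D : ℝ) ≤ 3 * q ^ 10 := by
      have h9 : (q : ℝ) ≤ q ^ 10 := le_self_pow₀ rq (by norm_num)
      linarith
    have h9 : 1 ≤ (q : ℝ) ^ 10 := one_le_pow₀ rq
    have h10 : E = 4 * C1 * H * c * q ^ 10 + 5 * q ^ 10 +
        (6 * C1 ^ 2 * c ^ 2 + 6 * C1 * c ^ 2) * q ^ 10 := by
      rw [hE]
      ring
    have h11 : 0 < (6 * (C1 : ℝ) ^ 2 * c ^ 2 + 6 * C1 * c ^ 2) * q ^ 10 := by positivity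
    linarith

end Pool.Agent.LThree
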