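import Pool.Agent.LThree.Good
import Pool.Agent.LThree.SmallPoly
import Pool.Agent.LThree.HtVal

set_option autoImplicit false

/-! B8. Part [B]: if one coordinate is large then the other two lie on one of finitely many curves. -/

namespace Pool.Agent.LThree

open NumberField Height Real Module

/-- **Part [B].** If `z` is large, `(x, y)` lies on one of finitely many curves over `ℚ`.

Proof. Let `C` be the constant of `good_places H0`, `U = 4 (H0 + 1)`, `G = 4 H0 + 10`,
`N, ε` from `small_poly U C G`, `H1` from `good_places` for `ε`, also `H1 ≥ 4` (so that `CITNF.MI z` by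
`MinHt.rank_one_unif`; then `exists_tied` gives `α`, `β` for `f = ![x, 1 - x, y, 1 - y]`). `𝓕` = the
`polyOf c` with `c ≠ 0`, `|c i j| ≤ exp N` (finite). Given the point, `good_places` gives `u`,
`small_poly` gives `c`; `w = ∑ c i j x^i y^j`. At a good place `v`, `v w = ‖v.embedding w‖ ≤ exp (-G N)`.
If `w ≠ 0`: `D/2 * G N ≤ logHeight₁ w ≤ 2 N H0 D + D (2 log (N+1) + N) ≤ (2 H0 + 3) N D` (`height_value_le`,
`B = exp N`, `log (N+1) ≤ N`), a contradiction. So `w = 0`. -/
theorem curve_of_large (H0 : ℝ) (hH0 : 0 ≤ H0) :
    ∃ (H1 : ℝ) (𝓕 : Finset (MvPolynomial (Fin 2) ℚ)), 0 ∉ 𝓕 ∧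
      ∀ (K : Type) [Field K] [NumberField K] (x : Fin 3 → K), (∀ i, x i ≠ 0 ∧ x i ≠ 1) →
        RankLe 2 (co x) → ∀ i j k : Fin 3, x i ^ 2 - x i + 1 ≠ 0 →
        logHeight₁ (x i) ≤ H0 * finrank ℚ K → logHeight₁ (x j) ≤ H0 * finrank ℚ K →
        H1 * finrank ℚ K ≤ logHeight₁ (x k) →
        ∃ F ∈ 𝓕, MvPolynomial.aeval ![x i, x j] F = 0 := by
  classical
  obtain ⟨C, hC, hgood⟩ := good_places H0 hH0
  obtain ⟨N, hN1, ε, hε, hpoly⟩ := small_poly (4 * (H0 + 1)) C (4 * H0 + 10)
  obtain ⟨H1, hH1⟩ := hgood ε hε
  set M : ℕ := ⌊exp (N : ℝ)⌋₊ with hM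
  let S : Finset (Fin (N + 1) → Fin (N + 1) → ℤ) :=
    (Fintype.piFinset fun _ : Fin (N + 1) => Fintype.piFinset fun _ : Fin (N + 1) =>
      Finset.Icc (-(M : ℤ)) M).filter fun c => c ≠ 0
  refine ⟨max H1 4, S.image polyOf, ?_, ?_⟩
  · intro h
    obtain ⟨c, hc, h0⟩ := Finset.mem_image.1 h
    exact polyOf_ne_zero c (Finset.mem_filter.1 hc).2 h0
  · intro K _ _ x hx hrank i j k hsix hxi hxj hk
    have hD : (0 : ℝ) < finrank ℚ K := by
      have : 0 < finrank ℚ K := finrank_pos
      exact_mod_cast this
    have hk1 : H1 * finrank ℚ K ≤ logHeight₁ (x k) :=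
      (mul_le_mul_of_nonneg_right (le_max_left _ _) hD.le).trans hk
    have hk4 : 4 * (finrank ℚ K : ℝ) ≤ logHeight₁ (x k) :=
      (mul_le_mul_of_nonneg_right (le_max_right _ _) hD.le).trans hk
    have hmi : CITNF.MI (x k) := by
      by_contra hcon
      have h1 := MinHt.rank_one_unif K (x k) (hx k).1 (hx k).2 hcon
      have h2 : Real.log 2 < 1 := by
        have := Real.log_two_lt_d9
        linarith
      nlinarith
    have htied := exists_tied x hx hrank k hmi
    have htied' : ∀ l : Fin 4, ∃ α β : ℝ,
        Tied (x k) (![x i, 1 - x i, x j, 1 - x j] l) α β := by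
      intro l
      fin_cases l
      · exact htied (Sum.inl i)
      · exact htied (Sum.inr i)
      · exact htied (Sum.inl j)
      · exact htied (Sum.inr j)
    choose α β hαβ using htied'
    obtain ⟨u, hu, hmass⟩ := hH1 K (x i) (x j) (x k) α β (hx i).1 (hx i).2 (hx j).1 (hx j).2
      (hx k).1 (hx k).2 hsix hαβ hxi hxj hk1
    obtain ⟨c, hc0, hcb, hsmall⟩ := hpoly u hu
    refine ⟨polyOf c, ?_, ?_⟩
    · refine Finset.mem_image_of_mem _ (Finset.mem_filter.2 ⟨?_, hc0⟩)
      rw [Fintype.mem_piFinset]
      intro a
      rw [Fintype.mem_piFinset]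
      intro b
      rw [Finset.mem_Icc, ← abs_le]
      have h1 : ((c a b).natAbs : ℝ) ≤ exp (N : ℝ) := by
        have h2 := hcb a b
        have h3 : ((c a b).natAbs : ℝ) = |(c a b : ℝ)| := by
          rw [Nat.cast_natAbs, Int.cast_abs]
        rw [h3]
        exact h2
      have h2 : (c a b).natAbs ≤ M := Nat.le_floor h1
      rw [← Int.natCast_natAbs]
      exact_mod_cast h2
    · rw [aeval_polyOf]
      by_contra hw
      set w : K := ∑ a : Fin (N + 1), ∑ b : Fin (N + 1),
        (c a b : K) * x i ^ (a : ℕ) * x j ^ (b : ℕ) with hwdef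
      have hNr : (1 : ℝ) ≤ N := by exact_mod_cast hN1
      have hE : (0 : ℝ) ≤ (4 * H0 + 10) * N := by positivity
      have h1 := height_ge_mass K w hw ((4 * H0 + 10) * N) hE
      have h2 : mass K (GoodPlace ![x i, 1 - x i, x j, 1 - x j] C ε u) ≤
          mass K (fun v => v w ≤ exp (-((4 * H0 + 10) * N))) := by
        refine mass_mono K _ _ fun v hv => ?_
        obtain ⟨τ, t, ht0, htC, hlog⟩ := hv
        have hnorm : ∀ y : K, v y = ‖v.embedding y‖ := fun y =>
          (InfinitePlace.norm_embedding_eq v y).symm
        have hne : ∀ {y z : K}, y ≠ z → v.embedding y ≠ v.embedding z := fun h h' =>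
          h (v.embedding.injective h')
        have hx1 : v.embedding (x i) ≠ 0 := by
          have := hne (hx i).1
          rwa [map_zero] at this
        have hx2 : v.embedding (x i) ≠ 1 := by
          have := hne (hx i).2
          rwa [map_one] at this
        have hy1 : v.embedding (x j) ≠ 0 := by
          have := hne (hx j).1
          rwa [map_zero] at this
        have hy2 : v.embedding (x j) ≠ 1 := by
          have := hne (hx j).2
          rwa [map_one] at this
        have h3 := hsmall τ t ht0 htC (v.embedding (x i)) (v.embedding (x j)) hx1 hx2 hy1 hy2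
          (by
            have := hlog 0
            rw [hnorm] at this
            exact this)
          (by
            have := hlog 1
            rw [hnorm] at this
            rw [← map_one v.embedding, ← map_sub]
            exact this)
          (by
            have := hlog 2
            rw [hnorm] at this
            exact this)
          (by
            have := hlog 3
            rw [hnorm] at this
            rw [← map_one v.embedding, ← map_sub]
            exact this)
        rw [hnorm, hwdef]
        simp only [map_sum, map_mul, map_pow, map_intCast]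
        rw [neg_mul] at h3
        exact h3
      have h4 := height_value_le K (x i) (x j) N c (exp N) (Real.one_le_exp (by positivity)) hcb
      rw [← hwdef, Real.log_exp] at h4
      have h5 : Real.log (N + 1) ≤ N := by
        have := Real.log_le_sub_one_of_pos (show (0 : ℝ) < N + 1 by positivity)
        linarith
      have h6 : (finrank ℚ K : ℝ) * ((4 * H0 + 10) * N) ≤ 2 * logHeight₁ w := by
        calc (finrank ℚ K : ℝ) * ((4 * H0 + 10) * N) ≤
            (2 * mass K (GoodPlace ![x i, 1 - x i, x j, 1 - x j] C ε u)) *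
              ((4 * H0 + 10) * N) := mul_le_mul_of_nonneg_right hmass hE
          _ ≤ (2 * mass K (fun v => v w ≤ exp (-((4 * H0 + 10) * N)))) *
              ((4 * H0 + 10) * N) := mul_le_mul_of_nonneg_right (by linarith) hE
          _ ≤ 2 * logHeight₁ w := by linarith
      have h7 : (N : ℝ) * (logHeight₁ (x i) + logHeight₁ (x j)) ≤
          N * (2 * H0 * finrank ℚ K) := mul_le_mul_of_nonneg_left (by linarith) (by positivity)
      have h8 : (finrank ℚ K : ℝ) * (2 * Real.log (N + 1) + N) ≤
          finrank ℚ K * (3 * N) := mul_le_mul_of_nonneg_left (by linarith) hD.le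
      have h9 : 0 < (finrank ℚ K : ℝ) * N := by positivity
      nlinarith

end Pool.Agent.LThree
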