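import Pool.Agent.LThree.Defs
import Pool.Agent.Leh2.HtExt

set_option autoImplicit false

/-! L2. Heights in extensions, fields generated by the coordinates, Northcott. -/

namespace Pool.Agent.LThree

open NumberField Height Real Module

/-- The field generated by the coordinates. Proof: `K = IntermediateField.adjoin ℚ (Set.range x)`
(as a type), `φ` the inclusion; `Leh2.nh_algebraMap` (stub of helper8, may be used; the class
`Algebra K L` is the one of the intermediate field). -/
theorem exists_generated {r : ℕ} (L : Type) [Field L] [NumberField L] (x : Fin r → L) :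
    ∃ (K : Type) (_ : Field K) (_ : NumberField K) (φ : K →+* L) (y : Fin r → K),
      (∀ i, φ (y i) = x i) ∧ IntermediateField.adjoin ℚ (Set.range y) = ⊤ ∧
      ∀ i, logHeight₁ (x i) * finrank ℚ K = logHeight₁ (y i) * finrank ℚ L := by
  set K := IntermediateField.adjoin ℚ (Set.range x) with hK
  have hmem : ∀ i, x i ∈ K := fun i =>
    IntermediateField.subset_adjoin ℚ (Set.range x) (Set.mem_range_self i)
  refine ⟨K, inferInstance, inferInstance, algebraMap K L, fun i => ⟨x i, hmem i⟩,
    fun i => rfl, ?_, fun i => ?_⟩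
  · rw [eq_top_iff]
    rintro ⟨w, hw⟩ _
    refine IntermediateField.adjoin_induction (F := ℚ) (s := Set.range x)
      (p := fun w hw => (⟨w, hw⟩ : K) ∈
        IntermediateField.adjoin ℚ (Set.range fun i => (⟨x i, hmem i⟩ : K))) ?_ ?_ ?_ ?_ ?_ hw
    · rintro _ ⟨i, rfl⟩
      exact IntermediateField.subset_adjoin ℚ _ ⟨i, rfl⟩
    · intro q
      have e : (⟨algebraMap ℚ L q, K.algebraMap_mem q⟩ : K) = (q : K) := by
        apply Subtype.ext
        show algebraMap ℚ L q = ((q : K) : L)
        rw [eq_ratCast]
        exact (map_ratCast (algebraMap K L) q).symm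
      rw [e]
      exact SubfieldClass.ratCast_mem _ q
    · intro a b ha hb h1 h2
      exact add_mem h1 h2
    · intro a ha h1
      exact inv_mem h1
    · intro a b ha hb h1 h2
      exact mul_mem h1 h2
  · have h := Leh2.nh_algebraMap (K := K) (L := L) ⟨x i, hmem i⟩
    have h1 : (0 : ℝ) < finrank ℚ K := Nat.cast_pos.2 finrank_pos
    have h2 : (0 : ℝ) < finrank ℚ L := Nat.cast_pos.2 finrank_pos
    unfold Leh2.nh at h
    rw [div_eq_div_iff h2.ne' h1.ne'] at h
    exact h

/-- The rank condition is the same in a larger field (`φ` is injective). -/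
theorem RankLe.of_map {K F : Type} [Field K] [Field F] {ι : Type} [Fintype ι] (φ : K →+* F) {k : ℕ}
    {z : ι → K} (h : RankLe k fun i => φ (z i)) : RankLe k z := by
  obtain ⟨U, h1, h2⟩ := h
  refine ⟨U, h1, fun a ha => ?_⟩
  obtain ⟨m, hm, h3⟩ := h2 a ha
  refine ⟨m, hm, ?_⟩
  have h4 : mono (fun i => φ (z i)) a = φ (mono z a) := by
    unfold mono
    rw [map_prod]
    exact Finset.prod_congr rfl fun i _ => (map_zpow₀ φ _ _).symm
  rw [h4, ← map_pow] at h3
  exact φ.injective (by rw [h3, map_one])

/-- Sub-tuples. Proof: `V = U.comap` of the linear map `(κ → ℚ) → (ι → ℚ)`, extension by zero along `f`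
(`Function.extend`, or `Pi.single` sums): it is injective with image `W` of dimension `card κ`, so
`finrank V = finrank (U ⊓ W) ≥ finrank U + card κ - card ι` (`Submodule.finrank_sup_add_finrank_inf_eq`). -/
theorem RankLe.comp {F : Type} [Field F] {ι κ : Type} [Fintype ι] [Fintype κ] {k : ℕ}
    {z : ι → F} (hz : ∀ i, z i ≠ 0) (h : RankLe k z) (f : κ → ι) (hf : Function.Injective f) :
    RankLe k (z ∘ f) := by
  obtain ⟨U, h1, h2⟩ := h
  set E : (κ → ℚ) →ₗ[ℚ] (ι → ℚ) := Function.ExtendByZero.linearMap ℚ f with hE
  have hEa : ∀ b : κ → ℚ, E b = Function.extend f b 0 := fun b => rfl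
  have hEi : Function.Injective E := by
    intro b b' hb
    funext i
    have := congrFun hb (f i)
    rwa [hEa, hEa, hf.extend_apply, hf.extend_apply] at this
  refine ⟨U.comap E, ?_, fun a ha => ?_⟩
  · have e1 : finrank ℚ (U.comap E) = finrank ℚ (LinearMap.range E ⊓ U : Submodule ℚ (ι → ℚ)) := by
      rw [← Submodule.map_comap_eq]
      exact LinearEquiv.finrank_eq (Submodule.equivMapOfInjective E hEi _)
    have e2 := Submodule.finrank_sup_add_finrank_inf_eq (LinearMap.range E) U
    have e3 : finrank ℚ (LinearMap.range E ⊔ U : Submodule ℚ (ι → ℚ)) ≤ Fintype.card ι := by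
      have := Submodule.finrank_le (LinearMap.range E ⊔ U)
      rwa [finrank_fintype_fun_eq_card] at this
    have e4 : finrank ℚ (LinearMap.range E) = Fintype.card κ := by
      rw [LinearMap.finrank_range_of_inj hEi, finrank_fintype_fun_eq_card]
    omega
  · have e1 : (fun i => ((Function.extend f a 0 i : ℤ) : ℚ)) ∈ U := by
      have e2 : (fun i => ((Function.extend f a 0 i : ℤ) : ℚ)) = E (fun i => (a i : ℚ)) := by
        rw [hEa]
        funext i
        by_cases hi : ∃ j, f j = i
        · obtain ⟨j, rfl⟩ := hi
          rw [hf.extend_apply, hf.extend_apply]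
        · rw [Function.extend_apply' _ _ _ hi, Function.extend_apply' _ _ _ hi]
          simp
      rw [e2]
      exact ha
    obtain ⟨m, hm, h3⟩ := h2 _ e1
    refine ⟨m, hm, ?_⟩
    have e3 : mono (z ∘ f) a = mono z (Function.extend f a 0) := by
      unfold mono
      refine Fintype.prod_of_injective f hf _ _ ?_ ?_
      · intro i hi
        rw [Function.extend_apply' _ _ _ hi]
        simp
      · intro j
        rw [hf.extend_apply]
        rfl
    rw [e3]
    exact h3

end Pool.Agent.LThree
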