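import Pool.Agent.LThree.Inputs
import Pool.Agent.LThree.Ext
import Pool.Agent.LThree.North
import Pool.Agent.LThree.RelPoly
import Pool.Agent.LThree.CurveLarge
import Pool.Agent.M05Full.Bezout

set_option autoImplicit false

/-! B9. Points with one large coordinate. -/

namespace Pool.Agent.LThree

open NumberField Height Real Module

private theorem mono_map {K F : Type} [Field K] [Field F] {ι : Type} [Fintype ι] (φ : K →+* F)
    (x : ι → K) (u : ι ⊕ ι → ℤ) : mono (co fun i => φ (x i)) u = φ (mono (co x) u) := by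
  rw [mono, mono, map_prod]
  apply Finset.prod_congr rfl
  intro i _
  rw [map_zpow₀]
  rcases i with i | i
  · rfl
  · simp only [co, Sum.elim_inr, map_sub, map_one]

private theorem aeval_map {K F : Type} [Field K] [Field F] [Algebra ℚ K] [Algebra ℚ F]
    (φ : K →+* F) (x : Fin 2 → K) (p : MvPolynomial (Fin 2) ℚ) :
    MvPolynomial.aeval (fun i => φ (x i)) p = φ (MvPolynomial.aeval x p) := by
  induction p using MvPolynomial.induction_on with
  | C a => rw [MvPolynomial.aeval_C, MvPolynomial.aeval_C, eq_ratCast, eq_ratCast, map_ratCast]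
  | add p q hp hq => rw [map_add, map_add, map_add, hp, hq]
  | mul_X p i hp =>
    rw [map_mul, map_mul, map_mul, hp, MvPolynomial.aeval_X, MvPolynomial.aeval_X]

/-- a zero of a polynomial is a zero of one of its factors -/
private theorem exists_factor {K : Type} [Field K] [Algebra ℚ K] (x : Fin 2 → K)
    {p : MvPolynomial (Fin 2) ℚ} (hp : p ≠ 0) (h : MvPolynomial.aeval x p = 0) :
    ∃ f ∈ UniqueFactorizationMonoid.factors p, MvPolynomial.aeval x f = 0 := by
  obtain ⟨v, hv⟩ := UniqueFactorizationMonoid.factors_prod hp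
  have h1 : MvPolynomial.aeval x (UniqueFactorizationMonoid.factors p).prod = 0 := by
    rw [← hv, map_mul] at h
    rcases mul_eq_zero.1 h with h2 | h2
    · exact h2
    · exact absurd h2 ((v.isUnit.map (MvPolynomial.aeval x)).ne_zero)
  rw [map_multiset_prod, Multiset.prod_eq_zero_iff, Multiset.mem_map] at h1
  obtain ⟨f, hf, hf0⟩ := h1
  exact ⟨f, hf, hf0⟩

/-- Points on finitely many plane curves, of rank at most two and bounded height, satisfy one of
finitely many relations.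

Proof. Enough for one `F ≠ 0`; let `x : Fin 2 → L`, `aeval x F = 0`; pass to the field `K` generated
by `x` (`exists_generated`, `RankLe.of_map`). Let `f ∣ F` be an irreducible factor with
`aeval x f = 0` (`MvPolynomial` over a field is a unique factorisation domain; factors of `F`
up to units form a finite set, e.g. `UniqueFactorizationMonoid.normalizedFactors` or `factors F`). For each
factor `f` of `F` for which some `u ≠ 0` has `f ∣ relPoly u` choose one such `u_f` (finite set `E1`).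
`h1 (1/4) H` gives `u ≠ 0` with `nrm u ≤ C D ^ (3/4)`. If `f ∣ relPoly u` then `mono (co x) u_f = 1`
by `aeval_relPoly`. Otherwise `IsRelPrime f (relPoly u)` and `M05Full.bezout` gives
`D ≤ degreeOf 0 f * 2 nrm u + degreeOf 1 f * 2 nrm u ≤ C' D ^ (3/4)`, so `D ≤ D0`
and `northcott_relations 2 D0 H` applies. -/
theorem pairs_on_curves (h1 : ShortOne) (H : ℝ) (𝓕 : Finset (MvPolynomial (Fin 2) ℚ))
    (h𝓕 : 0 ∉ 𝓕) : ∃ E : Finset (Fin 2 ⊕ Fin 2 → ℤ), 0 ∉ E ∧
    ∀ (K : Type) [Field K] [NumberField K] (x : Fin 2 → K), (∀ i, x i ≠ 0 ∧ x i ≠ 1) →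
      RankLe 2 (co x) → (∀ i, logHeight₁ (x i) ≤ H * finrank ℚ K) →
      (∃ F ∈ 𝓕, MvPolynomial.aeval x F = 0) →
      ∃ u ∈ E, mono (co x) u = 1 := by
  classical
  -- the irreducible factors
  let P : Finset (MvPolynomial (Fin 2) ℚ) :=
    𝓕.biUnion fun F => (UniqueFactorizationMonoid.factors F).toFinset
  let Good : MvPolynomial (Fin 2) ℚ → Prop := fun f => ∃ u, u ≠ 0 ∧ f ∣ relPoly u
  let g : MvPolynomial (Fin 2) ℚ → Fin 2 ⊕ Fin 2 → ℤ := fun f =>
    if h : Good f then h.choose else 0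
  have hg : ∀ f, Good f → g f ≠ 0 ∧ f ∣ relPoly (g f) := by
    intro f hf
    simp only [g, dif_pos hf]
    exact hf.choose_spec
  let E1 : Finset (Fin 2 ⊕ Fin 2 → ℤ) := (P.filter Good).image g
  obtain ⟨C, hC⟩ := h1 (1 / 4) (by norm_num) H
  let M : ℕ := P.sup fun f => f.degreeOf 0 + f.degreeOf 1
  let A : ℝ := 2 * M * max C 0
  have hA : 0 ≤ A := by positivity
  let D0 : ℕ := ⌈A ^ 4⌉₊
  obtain ⟨E2, hE2, hE2'⟩ := northcott_relations 2 D0 H
  refine ⟨E1 ∪ E2, ?_, ?_⟩
  · intro h0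
    rcases Finset.mem_union.1 h0 with h | h
    · obtain ⟨f, hf, hf0⟩ := Finset.mem_image.1 h
      exact (hg f (Finset.mem_filter.1 hf).2).1 hf0
    · exact hE2 h
  intro L _ _ X hX hR hH ⟨F, hF, hF0⟩
  obtain ⟨K, _, _, φ, x, hφ, hgen, hht⟩ := exists_generated L X
  obtain rfl : X = fun i => φ (x i) := funext fun i => (hφ i).symm
  -- reduction to the generated field
  have hx : ∀ i, x i ≠ 0 ∧ x i ≠ 1 := by
    intro i
    refine ⟨fun h => (hX i).1 ?_, fun h => (hX i).2 ?_⟩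
    · show φ (x i) = 0
      rw [h, map_zero]
    · show φ (x i) = 1
      rw [h, map_one]
  have hR' : RankLe 2 (co x) := by
    apply RankLe.of_map φ
    convert hR using 2 with i
    rcases i with i | i
    · rfl
    · simp only [co, Sum.elim_inr, map_sub, map_one]
  have hDL : (0 : ℝ) < finrank ℚ L := by exact_mod_cast finrank_pos
  have hDK : (0 : ℝ) < finrank ℚ K := by exact_mod_cast finrank_pos
  have hH' : ∀ i, logHeight₁ (x i) ≤ H * finrank ℚ K := by
    intro i
    have h2 := hht i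
    have h3 := mul_le_mul_of_nonneg_right (hH i) hDK.le
    rw [h2] at h3
    have h4 : logHeight₁ (x i) * finrank ℚ L ≤ (H * finrank ℚ K) * finrank ℚ L := by linarith
    exact le_of_mul_le_mul_right h4 hDL
  have hF0' : MvPolynomial.aeval x F = 0 := by
    rw [aeval_map] at hF0
    exact (map_eq_zero φ).1 hF0
  suffices h : ∃ u ∈ E1 ∪ E2, mono (co x) u = 1 by
    obtain ⟨u, hu, hu'⟩ := h
    refine ⟨u, hu, ?_⟩
    rw [mono_map, hu', map_one]
  have hFne : F ≠ 0 := by
    rintro rfl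
    exact h𝓕 hF
  obtain ⟨f, hf, hf0⟩ := exists_factor x hFne hF0'
  have hirr : Irreducible f := UniqueFactorizationMonoid.irreducible_of_factor f hf
  have hfP : f ∈ P := Finset.mem_biUnion.2 ⟨F, hF, Multiset.mem_toFinset.2 hf⟩
  by_cases hgood : Good f
  · refine ⟨g f, Finset.mem_union_left _ (Finset.mem_image.2
      ⟨f, Finset.mem_filter.2 ⟨hfP, hgood⟩, rfl⟩), ?_⟩
    rw [← aeval_relPoly x hx]
    obtain ⟨w, hw⟩ := (hg f hgood).2
    rw [hw, map_mul, hf0, zero_mul]
  -- the degree is bounded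
  obtain ⟨u, hu0, hu1, hun⟩ := hC K x hx hR' hH'
  have hndvd : ¬ f ∣ relPoly u := fun h => hgood ⟨u, hu0, h⟩
  have hrp : IsRelPrime f (relPoly u) := (hirr.isRelPrime_iff_not_dvd).2 hndvd
  have hb := (M05Full.bezout hirr.ne_zero (relPoly_ne_zero u hu0) hrp x hf0
    ((aeval_relPoly x hx u).2 hu1)).2
  rw [hgen, IntermediateField.finrank_top'] at hb
  have hM : f.degreeOf 0 + f.degreeOf 1 ≤ M :=
    Finset.le_sup (f := fun f : MvPolynomial (Fin 2) ℚ => f.degreeOf 0 + f.degreeOf 1) hfP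
  have hb2 : finrank ℚ K ≤ M * (2 * nrm u) := by
    refine hb.trans ?_
    refine le_trans (Nat.add_le_add (Nat.mul_le_mul_left _ (degreeOf_relPoly u 1))
      (Nat.mul_le_mul_left _ (degreeOf_relPoly u 0))) ?_
    rw [← add_mul]
    exact Nat.mul_le_mul_right _ hM
  have hb3 : (finrank ℚ K : ℝ) ≤ A * (finrank ℚ K : ℝ) ^ (3 / 4 : ℝ) := by
    have h2 : (finrank ℚ K : ℝ) ≤ M * (2 * nrm u) := by exact_mod_cast hb2
    refine h2.trans ?_
    have h3 : (nrm u : ℝ) ≤ max C 0 * (finrank ℚ K : ℝ) ^ (3 / 4 : ℝ) := by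
      have h4 : ((1 / 2 : ℝ) + 1 / 4) = 3 / 4 := by norm_num
      rw [h4] at hun
      refine hun.trans ?_
      gcongr
      exact le_max_left _ _
    calc (M : ℝ) * (2 * nrm u) ≤ M * (2 * (max C 0 * (finrank ℚ K : ℝ) ^ (3 / 4 : ℝ))) := by
          gcongr
      _ = A * (finrank ℚ K : ℝ) ^ (3 / 4 : ℝ) := by
          simp only [A]
          ring
  have hb4 : (finrank ℚ K : ℝ) ≤ A ^ 4 := by
    have h2 : (0 : ℝ) < (finrank ℚ K : ℝ) ^ (3 / 4 : ℝ) := Real.rpow_pos_of_pos hDK _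
    have h3 : (finrank ℚ K : ℝ) = (finrank ℚ K : ℝ) ^ (1 / 4 : ℝ) * (finrank ℚ K : ℝ) ^ (3 / 4 : ℝ) := by
      rw [← Real.rpow_add hDK]
      norm_num
    have h4 : (finrank ℚ K : ℝ) ^ (1 / 4 : ℝ) ≤ A := by
      have h5 : (finrank ℚ K : ℝ) ^ (1 / 4 : ℝ) * (finrank ℚ K : ℝ) ^ (3 / 4 : ℝ) ≤
          A * (finrank ℚ K : ℝ) ^ (3 / 4 : ℝ) := by
        rw [← h3]
        exact hb3
      exact le_of_mul_le_mul_right h5 h2
    calc (finrank ℚ K : ℝ) = ((finrank ℚ K : ℝ) ^ (1 / 4 : ℝ)) ^ 4 := by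
          rw [← Real.rpow_natCast, ← Real.rpow_mul hDK.le]
          norm_num
      _ ≤ A ^ 4 := by
          gcongr
  have hD0 : finrank ℚ K ≤ D0 := by
    have h2 : (finrank ℚ K : ℝ) ≤ D0 := hb4.trans (Nat.le_ceil _)
    exact_mod_cast h2
  obtain ⟨u', hu', hu''⟩ := hE2' K x hD0 hH' ⟨u, hu0, hu1⟩
  exact ⟨u', Finset.mem_union_right _ hu', hu''⟩

/-- **One large coordinate.** `pairs_on_curves` and `curve_of_large`; if `x² - x + 1 = 0` then
`x (1 - x) = 1`. -/
theorem big_third (h1 : ShortOne) (H0 : ℝ) (hH0 : 0 ≤ H0) :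
    ∃ (H1 : ℝ) (E : Finset (Fin 2 ⊕ Fin 2 → ℤ)), 0 ∉ E ∧
      ∀ (K : Type) [Field K] [NumberField K] (x : Fin 3 → K), (∀ i, x i ≠ 0 ∧ x i ≠ 1) →
        RankLe 2 (co x) → ∀ i j k : Fin 3, i ≠ j → i ≠ k → j ≠ k →
        logHeight₁ (x i) ≤ H0 * finrank ℚ K → logHeight₁ (x j) ≤ H0 * finrank ℚ K →
        H1 * finrank ℚ K ≤ logHeight₁ (x k) →
        ∃ u ∈ E, mono (co ![x i, x j]) u = 1 := by
  classical
  obtain ⟨H1, 𝓕, h𝓕, hcurve⟩ := curve_of_large H0 hH0
  obtain ⟨E, hE, hpairs⟩ := pairs_on_curves h1 H0 𝓕 h𝓕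
  let w : Fin 2 ⊕ Fin 2 → ℤ := Sum.elim ![1, 0] ![1, 0]
  refine ⟨H1, insert w E, ?_, ?_⟩
  · intro h
    rcases Finset.mem_insert.1 h with h | h
    · have h2 := congrFun h (Sum.inl 0)
      simp [w] at h2
    · exact hE h
  intro K _ _ x hx hR i j k hij hik hjk hi hj hk
  by_cases h6 : x i ^ 2 - x i + 1 = 0
  · refine ⟨w, Finset.mem_insert_self _ _, ?_⟩
    rw [mono, Fintype.prod_sum_type, Fin.prod_univ_two, Fin.prod_univ_two]
    simp only [co, w, Sum.elim_inl, Sum.elim_inr, Matrix.cons_val_zero, Matrix.cons_val_one,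
      zpow_one, zpow_zero, mul_one]
    linear_combination -h6
  obtain ⟨F, hF, hF0⟩ := hcurve K x hx hR i j k h6 hi hj hk
  have hz : ∀ l, co x l ≠ 0 := by
    rintro (l | l)
    · exact (hx l).1
    · simp only [co, Sum.elim_inr]
      exact sub_ne_zero.2 (Ne.symm (hx l).2)
  have hinj2 : Function.Injective ![i, j] := by
    intro a b hab
    fin_cases a <;> fin_cases b <;> simp at hab ⊢
    · exact hij hab
    · exact hij hab.symm
  have hinj : Function.Injective (Sum.map ![i, j] ![i, j]) := hinj2.sumMap hinj2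
  have hR2 := RankLe.comp hz hR (Sum.map ![i, j] ![i, j]) hinj
  have hco : co x ∘ Sum.map ![i, j] ![i, j] = co ![x i, x j] := by
    funext l
    rcases l with l | l <;> fin_cases l <;> simp [co]
  rw [hco] at hR2
  obtain ⟨u, hu, hu'⟩ := hpairs K ![x i, x j] (by
    intro l
    fin_cases l
    · exact hx i
    · exact hx j) hR2 (by
    intro l
    fin_cases l
    · exact hi
    · exact hj) ⟨F, hF, hF0⟩
  exact ⟨u, Finset.mem_insert_of_mem hu, hu'⟩

end Pool.Agent.LThree
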