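import Pool.Agent.LThree.CaseA
import Pool.Agent.LThree.CaseB
import Pool.Agent.MinHt.ThmA

set_option autoImplicit false

/-! The theorem for algebraic points. -/

namespace Pool.Agent.LThree

open NumberField Height Real Module

private theorem mono_single_add {K : Type} [Field K] {ι : Type} [Fintype ι] [DecidableEq ι]
    (z : ι → K) {a b : ι} (hab : a ≠ b) (s t : ℤ) :
    mono z (Pi.single a s + Pi.single b t) = z a ^ s * z b ^ t := by
  unfold mono
  have h1 : ∀ i, z i ^ ((Pi.single a s + Pi.single b t : ι → ℤ) i) =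
      (if i = a then z a ^ s else 1) * (if i = b then z b ^ t else 1) := by
    intro i
    by_cases ha : i = a
    · subst ha
      rw [if_pos rfl, if_neg hab, Pi.add_apply, Pi.single_eq_same, Pi.single_eq_of_ne hab,
        add_zero, mul_one]
    · by_cases hb : i = b
      · subst hb
        rw [if_neg ha, if_pos rfl, Pi.add_apply, Pi.single_eq_same, Pi.single_eq_of_ne ha,
          zero_add, one_mul]
      · rw [if_neg ha, if_neg hb, Pi.add_apply, Pi.single_eq_of_ne ha, Pi.single_eq_of_ne hb,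
          add_zero, zpow_zero, one_mul]
  rw [Finset.prod_congr rfl fun i _ => h1 i, Finset.prod_mul_distrib, Finset.prod_ite_eq',
    Finset.prod_ite_eq', if_pos (Finset.mem_univ _), if_pos (Finset.mem_univ _)]

private theorem mono_extend {K : Type} [Field K] {ι κ : Type} [Fintype ι] [Fintype κ]
    (z : ι → K) (f : κ → ι) (hf : Function.Injective f) (u : κ → ℤ) :
    mono z (Function.extend f u 0) = mono (z ∘ f) u := by
  unfold mono
  symm
  refine Fintype.prod_of_injective f hf _ _ ?_ ?_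
  · intro i hi
    rw [Function.extend_apply' _ _ _ (fun ⟨a, ha⟩ => hi ⟨a, ha⟩)]
    exact zpow_zero _
  · intro k
    rw [hf.extend_apply]
    rfl

/-- Equivalent coordinates satisfy one of six explicit relations
(`y = x / (x - 1)`: `y² (1 - x)² x⁻² = 1`). -/
theorem eqv_relation : ∃ E : Finset (Fin 3 ⊕ Fin 3 → ℤ), 0 ∉ E ∧
    ∀ (K : Type) [Field K] (x : Fin 3 → K), (∀ i, x i ≠ 0 ∧ x i ≠ 1) →
      (∃ i j, i ≠ j ∧ CITNF.Eqv (x i) (x j)) → ∃ u ∈ E, mono (co x) u = 1 := by
  classical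
  let φ : (Fin 3 ⊕ Fin 3) × (Fin 3 ⊕ Fin 3) × Bool → (Fin 3 ⊕ Fin 3 → ℤ) := fun p =>
    Pi.single p.1 1 + Pi.single p.2.1 (if p.2.2 then 1 else -1)
  refine ⟨(Finset.univ.filter fun p : (Fin 3 ⊕ Fin 3) × (Fin 3 ⊕ Fin 3) × Bool =>
    p.1 ≠ p.2.1).image φ, ?_, ?_⟩
  · intro h
    obtain ⟨⟨a, b, s⟩, hp, h0⟩ := Finset.mem_image.1 h
    have hab : a ≠ b := (Finset.mem_filter.1 hp).2
    have h1 := congrFun h0 a
    simp only [φ, Pi.add_apply, Pi.single_eq_same, Pi.zero_apply] at h1
    rw [Pi.single_eq_of_ne hab, add_zero] at h1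
    exact one_ne_zero h1
  · rintro K _ x hx ⟨i, j, hij, h⟩
    have key : ∀ (a b : Fin 3 ⊕ Fin 3) (s : Bool), a ≠ b →
        co x a ^ (1 : ℤ) * co x b ^ (if s then (1 : ℤ) else -1) = 1 →
        ∃ u ∈ (Finset.univ.filter fun p : (Fin 3 ⊕ Fin 3) × (Fin 3 ⊕ Fin 3) × Bool =>
          p.1 ≠ p.2.1).image φ, mono (co x) u = 1 := by
      intro a b s hab h1
      refine ⟨φ (a, b, s), Finset.mem_image_of_mem φ (Finset.mem_filter.2
        ⟨Finset.mem_univ _, hab⟩), ?_⟩
      rw [← h1]
      exact mono_single_add _ hab _ _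
    have hi0 := (hx i).1
    have hi1 : 1 - x i ≠ 0 := sub_ne_zero.2 (Ne.symm (hx i).2)
    have hi2 : x i - 1 ≠ 0 := sub_ne_zero.2 (hx i).2
    have c1 : ∀ l, co x (Sum.inl l) = x l := fun _ => rfl
    have c2 : ∀ l, co x (Sum.inr l) = 1 - x l := fun _ => rfl
    rcases h with h | h | h | h | h | h
    · refine key (Sum.inl j) (Sum.inl i) false (fun h' => hij (Sum.inl_injective h').symm) ?_
      rw [c1, c1, h]
      simp [hi0]
    · refine key (Sum.inl j) (Sum.inr i) false (by simp) ?_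
      rw [c1, c2, h]
      simp [hi1]
    · refine key (Sum.inl j) (Sum.inl i) true (fun h' => hij (Sum.inl_injective h').symm) ?_
      rw [c1, c1, h]
      simp [hi0]
    · refine key (Sum.inl j) (Sum.inr i) true (by simp) ?_
      rw [c1, c2, h]
      simp [hi1]
    · refine key (Sum.inr j) (Sum.inr i) true (fun h' => hij (Sum.inr_injective h').symm) ?_
      rw [c2, c2, h]
      simp only [zpow_one, if_true]
      field_simp
      ring
    · refine key (Sum.inr j) (Sum.inl i) true (by simp) ?_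
      rw [c1, c2, h]
      simp only [zpow_one, if_true]
      field_simp
      ring

private theorem clear_denom {n : ℕ} (v : Fin n → ℚ) :
    ∃ (N : ℕ) (a : Fin n → ℤ), 0 < N ∧ (fun i => (a i : ℚ)) = (N : ℚ) • v := by
  classical
  refine ⟨∏ i, (v i).den, fun i => (v i).num * ∏ j ∈ Finset.univ.erase i, ((v j).den : ℤ), ?_, ?_⟩
  · exact Finset.prod_pos fun i _ => (v i).den_pos
  · funext i
    have h1 : (∏ j, ((v j).den : ℚ)) =
        (v i).den * ∏ j ∈ Finset.univ.erase i, ((v j).den : ℚ) :=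
      (Finset.mul_prod_erase _ _ (Finset.mem_univ i)).symm
    rw [Pi.smul_apply, smul_eq_mul]
    push_cast
    rw [h1]
    have h2 : ((v i).num : ℚ) = v i * (v i).den := (Rat.mul_den_eq_num (v i)).symm
    rw [h2]
    ring

/-- `RankLe 2` for three coordinates gives two independent relations for any two of them
(`RankLe.comp` with the injection `Fin 2 ⊕ Fin 2 → Fin 3 ⊕ Fin 3`; then a space of dimension `≥ 2` in
`ℚ^4` contains two independent integer vectors, each to a power `m`). -/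
theorem rel2_of_rankLe {K : Type} [Field K] (x : Fin 3 → K) (hx : ∀ i, x i ≠ 0 ∧ x i ≠ 1)
    (h : RankLe 2 (co x)) (i j : Fin 3) (hij : i ≠ j) : CITNF.Rel2 (x i) (x j) := by
  classical
  have hne : ∀ s : Fin 3 ⊕ Fin 3, co x s ≠ 0 := by
    rintro (l | l)
    · exact (hx l).1
    · exact sub_ne_zero.2 (Ne.symm (hx l).2)
  let f : Fin 4 → Fin 3 ⊕ Fin 3 := ![Sum.inl i, Sum.inr i, Sum.inl j, Sum.inr j]
  have hf : Function.Injective f := by
    intro a b hab
    fin_cases a <;> fin_cases b <;> simp_all [f]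
  obtain ⟨U, hU, hUm⟩ := RankLe.comp hne h f hf
  rw [Fintype.card_fin] at hU
  have hfr : 2 ≤ finrank ℚ U := by omega
  have hmono : ∀ a : Fin 4 → ℤ, mono (co x ∘ f) a = CITNF.R (x i) (x j) a := by
    intro a
    unfold mono CITNF.R
    rw [Fin.prod_univ_four]
    simp only [Function.comp, f, co, Matrix.cons_val_zero, Matrix.cons_val_one, Matrix.cons_val,
      Sum.elim_inl, Sum.elim_inr]
    ring
  let b := finBasis ℚ U
  let v : Fin 2 → U := fun t => b ⟨t, by omega⟩
  have hv : LinearIndependent ℚ v := by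
    refine b.linearIndependent.comp (fun t : Fin 2 => (⟨t, by omega⟩ : Fin (finrank ℚ U))) ?_
    intro s t hst
    exact Fin.ext (by simpa using hst)
  have hex : ∀ t : Fin 2, ∃ (c : ℚ) (a : Fin 4 → ℤ), c ≠ 0 ∧
      (fun l => (a l : ℚ)) = c • (v t : Fin 4 → ℚ) ∧ CITNF.R (x i) (x j) a = 1 := by
    intro t
    obtain ⟨N, a, hN, ha⟩ := clear_denom (v t : Fin 4 → ℚ)
    have haU : (fun l => (a l : ℚ)) ∈ U := by
      rw [ha]
      exact U.smul_mem _ (v t).2
    obtain ⟨m, hm, hm1⟩ := hUm a haU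
    refine ⟨m * N, (m : ℤ) • a, ?_, ?_, ?_⟩
    · have h1 : (m : ℚ) ≠ 0 := by exact_mod_cast hm.ne'
      have h2 : (N : ℚ) ≠ 0 := by exact_mod_cast hN.ne'
      exact mul_ne_zero h1 h2
    · rw [mul_smul, ← ha]
      funext l
      simp
    · rw [← hm1, hmono]
      have h1 := CITNF.R_comb (hx i).1 (hx i).2 (hx j).1 (hx j).2 a 0 (m : ℤ) 0
      rw [smul_zero, add_zero, zpow_zero, mul_one, zpow_natCast] at h1
      exact h1
  obtain ⟨c, a, hc, hac, ha⟩ := hex 0
  obtain ⟨c', a', hc', hac', ha'⟩ := hex 1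
  refine ⟨a, a', fun s t hst => ?_, ha, ha'⟩
  have h1 : ((s : ℚ) * c) • v 0 + ((t : ℚ) * c') • v 1 = 0 := by
    apply Subtype.ext
    rw [Submodule.coe_add, Submodule.coe_smul, Submodule.coe_smul, mul_smul, mul_smul, ← hac,
      ← hac', Submodule.coe_zero]
    funext l
    have h2 := congrFun hst l
    simp only [Pi.add_apply, Pi.smul_apply, smul_eq_mul, Pi.zero_apply] at h2 ⊢
    exact_mod_cast h2
  have h2 := Fintype.linearIndependent_iff.1 hv ![(s : ℚ) * c, (t : ℚ) * c'] (by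
    rw [Fin.sum_univ_two]
    exact h1)
  have h3 := h2 0
  have h4 := h2 1
  simp only [Matrix.cons_val_zero, Matrix.cons_val_one, mul_eq_zero] at h3 h4
  constructor
  · rcases h3 with h3 | h3
    · exact_mod_cast h3
    · exact absurd h3 hc
  · rcases h4 with h4 | h4
    · exact_mod_cast h4
    · exact absurd h4 hc'

/-- **The theorem for algebraic points.**

Proof. `H0` from `MinHt.min_height`, `H1` and `E1` from `big_third`, `H = max H0 H1`. If two
coordinates are `CITNF.Eqv`: `eqv_relation`. Otherwise by `MinHt.min_height` at most one coordinate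
has height `> H0 D`. If some `x k` has height `≥ H1 D`, `> H0 D`: `big_third` for the other two, and
extend the relation by zero. Otherwise all heights are `≤ H D`: `triples_bounded`. -/
theorem triples (h1 : ShortOne) (h3 : ShortThree) (hT : TransThree) :
    ∃ E : Finset (Fin 3 ⊕ Fin 3 → ℤ), 0 ∉ E ∧
    ∀ (K : Type) [Field K] [NumberField K] (x : Fin 3 → K), (∀ i, x i ≠ 0 ∧ x i ≠ 1) →
      RankLe 2 (co x) → ∃ u ∈ E, mono (co x) u = 1 := by
  classical
  obtain ⟨H0, hH0, hmin⟩ := MinHt.min_height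
  obtain ⟨H1, E1, hE1, hbig⟩ := big_third h1 H0 hH0.le
  obtain ⟨E0, hE0, heqv⟩ := eqv_relation
  obtain ⟨E2, hE2, hbdd⟩ := triples_bounded h3 hT (max H0 H1)
  let g : Fin 3 × Fin 3 → (Fin 2 ⊕ Fin 2) → (Fin 3 ⊕ Fin 3) := fun p =>
    Sum.map ![p.1, p.2] ![p.1, p.2]
  have hg : ∀ p : Fin 3 × Fin 3, p.1 ≠ p.2 → Function.Injective (g p) := by
    intro p hp
    have h1 : Function.Injective ![p.1, p.2] := by
      intro a b hab
      fin_cases a <;> fin_cases b <;> simp_all
    exact h1.sumMap h1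
  let ext : (Fin 3 × Fin 3) × (Fin 2 ⊕ Fin 2 → ℤ) → (Fin 3 ⊕ Fin 3 → ℤ) := fun q =>
    Function.extend (g q.1) q.2 0
  refine ⟨E0 ∪ E2 ∪ ((Finset.univ.filter fun p : Fin 3 × Fin 3 => p.1 ≠ p.2) ×ˢ E1).image ext,
    ?_, ?_⟩
  · simp only [Finset.mem_union, not_or]
    refine ⟨⟨hE0, hE2⟩, fun h => ?_⟩
    obtain ⟨⟨p, u⟩, hp, h0⟩ := Finset.mem_image.1 h
    obtain ⟨hp1, hp2⟩ := Finset.mem_product.1 hp
    have hpne : p.1 ≠ p.2 := (Finset.mem_filter.1 hp1).2
    apply hE1
    have hu : u = 0 := by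
      funext t
      have h1 := congrFun h0 (g p t)
      simp only [ext] at h1
      rw [(hg p hpne).extend_apply] at h1
      exact h1
    rw [← hu]
    exact hp2
  · intro K _ _ x hx hr
    by_cases he : ∃ i j, i ≠ j ∧ CITNF.Eqv (x i) (x j)
    · obtain ⟨u, hu, h⟩ := heqv K x hx he
      exact ⟨u, Finset.mem_union_left _ (Finset.mem_union_left _ hu), h⟩
    have hmin' : ∀ i j, i ≠ j → min (logHeight₁ (x i)) (logHeight₁ (x j)) ≤ H0 * finrank ℚ K := by
      intro i j hij
      exact hmin K (x i) (x j) (hx i).1 (hx i).2 (hx j).1 (hx j).2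
        (rel2_of_rankLe x hx hr i j hij) fun h => he ⟨i, j, hij, h⟩
    have hd : (0 : ℝ) < finrank ℚ K := by exact_mod_cast finrank_pos
    by_cases hall : ∀ i, logHeight₁ (x i) ≤ max H0 H1 * finrank ℚ K
    · obtain ⟨u, hu, h⟩ := hbdd K x hx hr hall
      exact ⟨u, Finset.mem_union_left _ (Finset.mem_union_right _ hu), h⟩
    push Not at hall
    obtain ⟨k, hk⟩ := hall
    have hk0 : H0 * finrank ℚ K < logHeight₁ (x k) :=
      lt_of_le_of_lt (mul_le_mul_of_nonneg_right (le_max_left _ _) hd.le) hk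
    have hk1 : H1 * finrank ℚ K ≤ logHeight₁ (x k) :=
      (lt_of_le_of_lt (mul_le_mul_of_nonneg_right (le_max_right _ _) hd.le) hk).le
    have hother : ∀ i, i ≠ k → logHeight₁ (x i) ≤ H0 * finrank ℚ K := by
      intro i hik
      rcases min_le_iff.1 (hmin' i k hik) with h | h
      · exact h
      · exact absurd h (not_le.2 hk0)
    have hdec : ∀ k : Fin 3, ∃ i j : Fin 3, i ≠ j ∧ i ≠ k ∧ j ≠ k := by decide
    obtain ⟨i, j, hij, hik, hjk⟩ := hdec k
    obtain ⟨u, hu, h⟩ := hbig K x hx hr i j k hij hik hjk (hother i hik) (hother j hjk) hk1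
    refine ⟨ext ((i, j), u), Finset.mem_union_right _ (Finset.mem_image_of_mem _
      (Finset.mem_product.2 ⟨Finset.mem_filter.2 ⟨Finset.mem_univ _, hij⟩, hu⟩)), ?_⟩
    rw [← h]
    have h2 : co x ∘ g (i, j) = co ![x i, x j] := by
      funext t
      rcases t with t | t
      · fin_cases t <;> rfl
      · fin_cases t <;> rfl
    rw [← h2]
    exact mono_extend _ _ (hg (i, j) hij) u

end Pool.Agent.LThree
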