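import Pool.Agent.LThree.Tied
import Pool.Agent.CITNF.Basic
import Pool.Agent.CITNF.Places

set_option autoImplicit false

/-! B1b. The exponents of a coordinate of bounded height in terms of a large one. -/

namespace Pool.Agent.LThree

open NumberField Height Real Module

private theorem coef_inv {K : Type} [Field K] [NumberField K] {z f : K} {α β : ℝ}
    (h : Tied z f α β) : Tied z f⁻¹ (-α) (-β) := by
  refine ⟨fun v => ?_, fun v => ?_⟩
  · rw [map_inv₀, Real.log_inv, h.inf v]
    ring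
  · rw [map_inv₀, Real.log_inv, h.fin v]
    ring

private theorem coef_swap {K : Type} [Field K] [NumberField K] {z f : K} {α β : ℝ}
    (h : Tied z f α β) : Tied (1 - z) f β α := by
  refine ⟨fun v => ?_, fun v => ?_⟩
  · rw [sub_sub_cancel, h.inf v]
    ring
  · rw [sub_sub_cancel, h.fin v]
    ring

private theorem coef_inf {K : Type} [Field K] [NumberField K] {z f : K} (hz : z ≠ 0)
    {α β : ℝ} (h : Tied z f α β) (hα : 0 ≤ α) (hβ : |β| ≤ α) (v : InfinitePlace K) :
    α * (log⁺ (v z⁻¹) - log 2) ≤ log⁺ (v f⁻¹) := by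
  have hvz : 0 < v z := v.pos_iff.2 hz
  rcases lt_or_ge (v z) (1 / 2) with h1 | h1
  · have e1 : log⁺ (v z⁻¹) = -log (v z) := by
      rw [map_inv₀, posLog_eq_log, Real.log_inv]
      rw [abs_of_nonneg (inv_nonneg.2 hvz.le)]
      exact (one_le_inv₀ hvz).2 (by linarith)
    have e2 : log (v f⁻¹) = -(α * log (v z)) - β * log (v (1 - z)) := by
      rw [map_inv₀, Real.log_inv, h.inf v]
      ring
    have e3 : log (v f⁻¹) ≤ log⁺ (v f⁻¹) := le_max_right _ _
    have h2 : v (1 - z) ≤ 3 / 2 := by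
      have := v.1.add_le 1 (-z)
      rw [← sub_eq_add_neg, AbsoluteValue.map_neg] at this
      have h5 : v (1 - z) ≤ v (1 : K) + v z := this
      rw [map_one] at h5
      linarith
    have h3 : 1 / 2 ≤ v (1 - z) := by
      have := v.1.add_le (1 - z) z
      rw [sub_add_cancel] at this
      have h5 : v (1 : K) ≤ v (1 - z) + v z := this
      rw [map_one] at h5
      linarith
    have h4 : |log (v (1 - z))| ≤ log 2 := by
      rw [abs_le]
      constructor
      · rw [← Real.log_inv]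
        exact Real.log_le_log (by norm_num) (by linarith)
      · exact Real.log_le_log (by linarith) (by linarith)
    have h5 : β * log (v (1 - z)) ≤ α * log 2 := by
      calc β * log (v (1 - z)) ≤ |β * log (v (1 - z))| := le_abs_self _
        _ = |β| * |log (v (1 - z))| := abs_mul _ _
        _ ≤ α * log 2 := mul_le_mul hβ h4 (abs_nonneg _) hα
    rw [e1]
    have : α * (-log (v z) - log 2) = -(α * log (v z)) - α * log 2 := by ring
    linarith
  · have e1 : log⁺ (v z⁻¹) ≤ log 2 := by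
      rw [map_inv₀]
      have : log⁺ ((v z)⁻¹) ≤ log⁺ (2 : ℝ) := by
        refine posLog_le_posLog (inv_nonneg.2 hvz.le) ?_
        rw [inv_le_comm₀ hvz (by norm_num)]
        linarith
      refine this.trans (le_of_eq ?_)
      exact posLog_eq_log (by rw [abs_of_nonneg (by norm_num)]; norm_num)
    have e2 : 0 ≤ log⁺ (v f⁻¹) := posLog_nonneg
    have e3 : α * (log⁺ (v z⁻¹) - log 2) ≤ 0 :=
      mul_nonpos_of_nonneg_of_nonpos hα (by linarith)
    linarith

private theorem coef_fin {K : Type} [Field K] [NumberField K] {z f : K} (hz : z ≠ 0)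
    {α β : ℝ} (h : Tied z f α β) (v : FinitePlace K) :
    α * log⁺ (v z⁻¹) ≤ log⁺ (v f⁻¹) := by
  have hvz : 0 < v z := FinitePlace.pos_iff.2 hz
  rcases lt_or_ge (v z) 1 with h1 | h1
  · have e1 : log⁺ (v z⁻¹) = -log (v z) := by
      rw [map_inv₀, posLog_eq_log, Real.log_inv]
      rw [abs_of_nonneg (inv_nonneg.2 hvz.le)]
      exact (one_le_inv₀ hvz).2 h1.le
    have e2 : log (v f⁻¹) = -(α * log (v z)) := by
      rw [map_inv₀, Real.log_inv, h.fin v, CITNF.one_sub_eq_one v z h1, Real.log_one]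
      ring
    have e3 : log (v f⁻¹) ≤ log⁺ (v f⁻¹) := le_max_right _ _
    rw [e1]
    linarith
  · have e1 : log⁺ (v z⁻¹) = 0 := by
      rw [posLog_eq_zero_iff, map_inv₀, abs_of_nonneg (inv_nonneg.2 hvz.le)]
      exact inv_le_one_of_one_le₀ h1
    rw [e1, mul_zero]
    exact posLog_nonneg

private theorem coef_core {K : Type} [Field K] [NumberField K] {z f : K} (hz : z ≠ 0)
    {α β : ℝ} (h : Tied z f α β) (hα : 0 ≤ α) (hβ : |β| ≤ α) :
    α * (logHeight₁ z - finrank ℚ K * log 2) ≤ logHeight₁ f := by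
  rw [← logHeight₁_inv z, ← logHeight₁_inv f, CITNF.lh_eq, CITNF.lh_eq]
  have h1 : α * (CITNF.hi z⁻¹ - finrank ℚ K * log 2) ≤ CITNF.hi f⁻¹ := by
    have e1 : (finrank ℚ K : ℝ) = ∑ v : InfinitePlace K, (v.mult : ℝ) := by
      rw [← InfinitePlace.sum_mult_eq]
      push_cast
      rfl
    unfold CITNF.hi
    rw [e1, Finset.sum_mul, ← Finset.sum_sub_distrib, Finset.mul_sum]
    refine Finset.sum_le_sum fun v _ => ?_
    have h2 := coef_inf hz h hα hβ v
    have h3 : (0 : ℝ) ≤ v.mult := Nat.cast_nonneg _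
    calc α * (v.mult * log⁺ (v z⁻¹) - v.mult * log 2)
        = v.mult * (α * (log⁺ (v z⁻¹) - log 2)) := by ring
      _ ≤ v.mult * log⁺ (v f⁻¹) := mul_le_mul_of_nonneg_left h2 h3
  have h2 : α * CITNF.hf z⁻¹ ≤ CITNF.hf f⁻¹ := by
    unfold CITNF.hf
    rw [mul_finsum]
    refine finsum_le_finsum' ?_ (CITNF.hf_support f⁻¹) fun v => ?_
    · refine (CITNF.hf_support z⁻¹).subset fun v hv => ?_
      rw [Function.mem_support] at hv ⊢
      intro h0
      exact hv (by rw [h0, mul_zero])
    · exact coef_fin hz h v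
  linarith

private theorem coef_abs {K : Type} [Field K] [NumberField K] {z f : K} (hz : z ≠ 0)
    {α β : ℝ} (h : Tied z f α β) (hβ : |β| ≤ |α|) :
    |α| * (logHeight₁ z - finrank ℚ K * log 2) ≤ logHeight₁ f := by
  rcases le_or_gt 0 α with h0 | h0
  · rw [abs_of_nonneg h0] at hβ ⊢
    exact coef_core hz h h0 hβ
  · rw [abs_of_neg h0] at hβ ⊢
    have h1 := coef_core hz (coef_inv h) (by linarith) (by rwa [abs_neg])
    rwa [logHeight₁_inv] at h1

/-- **The exponents are small.** Proof: say `|β| ≤ |α|`, and `α ≥ 0` (else replace `f` by `f⁻¹`).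
At an infinite place with `v z < 1/2` we have `|log (v (1-z))| ≤ log 2`, so
`log⁺ (v f⁻¹) ≥ α (-log (v z) - log 2)`; at a finite place with `v z < 1` we have `v (1-z) = 1`, so
`log⁺ (v f⁻¹) ≥ α (-log (v z))`. Summing,
`logHeight₁ f = logHeight₁ f⁻¹ ≥ α (logHeight₁ z⁻¹ - D log 2)` (`D = finrank ℚ K`;
the places with `1/2 ≤ v z < 1` contribute at most `D log 2` to `logHeight₁ z⁻¹`).
If `|α| ≤ |β|` the same with `1 - z` in place of `z` and
`logHeight₁ (1-z) ≥ logHeight₁ z - D log 2` (`CITNF.height_le_one_sub`). -/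
theorem coef_le {K : Type} [Field K] [NumberField K] (z f : K) (hz : z ≠ 0) (hz1 : z ≠ 1)
    (hf : f ≠ 0) (α β : ℝ) (h : Tied z f α β)
    (hbig : 4 * log 2 * finrank ℚ K ≤ logHeight₁ z) :
    |α| * logHeight₁ z ≤ 2 * logHeight₁ f ∧ |β| * logHeight₁ z ≤ 2 * logHeight₁ f := by
  have hl : 0 < log (2 : ℝ) := Real.log_pos (by norm_num)
  have hD : (0 : ℝ) ≤ finrank ℚ K := Nat.cast_nonneg _
  have key : ∀ t s : ℝ, 0 ≤ t → 0 ≤ s → s ≤ t →
      t * (logHeight₁ z - 2 * (finrank ℚ K * log 2)) ≤ logHeight₁ f →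
      t * logHeight₁ z ≤ 2 * logHeight₁ f ∧ s * logHeight₁ z ≤ 2 * logHeight₁ f := by
    intro t s ht hs hst h1
    have h2 : logHeight₁ z ≤ 2 * (logHeight₁ z - 2 * (finrank ℚ K * log 2)) := by
      linarith
    have h3 : t * logHeight₁ z ≤ 2 * logHeight₁ f := by
      calc t * logHeight₁ z ≤ t * (2 * (logHeight₁ z - 2 * (finrank ℚ K * log 2))) :=
            mul_le_mul_of_nonneg_left h2 ht
        _ = 2 * (t * (logHeight₁ z - 2 * (finrank ℚ K * log 2))) := by ring
        _ ≤ 2 * logHeight₁ f := by linarith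
    exact ⟨h3, (mul_le_mul_of_nonneg_right hst (by positivity)).trans h3⟩
  rcases le_total |β| |α| with hab | hab
  · have h1 := coef_abs hz h hab
    refine key |α| |β| (abs_nonneg _) (abs_nonneg _) hab (le_trans ?_ h1)
    refine mul_le_mul_of_nonneg_left ?_ (abs_nonneg _)
    have : 0 ≤ (finrank ℚ K : ℝ) * log 2 := by positivity
    linarith
  · have h1 := coef_abs (z := 1 - z) (sub_ne_zero.2 (Ne.symm hz1)) (coef_swap h) hab
    have h2 := CITNF.height_le_one_sub z
    have h3 := key |β| |α| (abs_nonneg _) (abs_nonneg _) hab (le_trans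
      (mul_le_mul_of_nonneg_left (by linarith) (abs_nonneg _)) h1)
    exact ⟨h3.2, h3.1⟩

end Pool.Agent.LThree
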