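import Pool.Agent.LThree.Defs
import Pool.Agent.MinHt.RankOne

set_option autoImplicit false

/-! B1. One coordinate determines the sizes of the others (part [B], one large coordinate). -/

namespace Pool.Agent.LThree

open NumberField Height Real Module

/-- At all places `f` has the size of `z ^ α * (1 - z) ^ β`. -/
structure Tied {K : Type} [Field K] [NumberField K] (z f : K) (α β : ℝ) : Prop where
  inf : ∀ v : InfinitePlace K, log (v f) = α * log (v z) + β * log (v (1 - z))
  fin : ∀ v : FinitePlace K, log (v f) = α * log (v z) + β * log (v (1 - z))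

private theorem tied_log {K ι : Type} [Field K] [Fintype ι] (v : K →*₀ ℝ) (z : ι → K)
    (hz : ∀ i, z i ≠ 0) (u : ι → ℤ) : log (v (mono z u)) = ∑ i, (u i : ℝ) * log (v (z i)) := by
  unfold mono
  rw [map_prod, Real.log_prod fun i _ => ?_]
  · refine Finset.sum_congr rfl fun i _ => ?_
    rw [map_zpow₀, Real.log_zpow]
  · rw [Ne, map_eq_zero]
    exact zpow_ne_zero _ (hz i)

private theorem tied_sum {K ι : Type} [Field K] [Fintype ι] (v : K →*₀ ℝ) (z : ι → K)
    (hz : ∀ i, z i ≠ 0) (u : ι → ℤ) (m : ℕ) (hm : 0 < m) (h : mono z u ^ m = 1) :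
    ∑ i, (u i : ℝ) * log (v (z i)) = 0 := by
  rw [← tied_log v z hz u]
  have h1 : (m : ℝ) * log (v (mono z u)) = 0 := by
    rw [← Real.log_pow, ← map_pow, h, map_one, Real.log_one]
  exact (mul_eq_zero.1 h1).resolve_left (Nat.cast_ne_zero.2 hm.ne')

private theorem tied_clear (a b : ℚ) : ∃ (N : ℕ) (a' b' : ℤ), 0 < N ∧ (N : ℚ) * a = a' ∧
    (N : ℚ) * b = b' := by
  refine ⟨a.den * b.den, a.num * b.den, b.num * a.den, Nat.mul_pos a.pos b.pos, ?_, ?_⟩
  · push_cast
    have := Rat.den_mul_eq_num a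
    linear_combination (b.den : ℚ) * this
  · push_cast
    have := Rat.den_mul_eq_num b
    linear_combination (a.den : ℚ) * this

/-- If the rank is at most two and `z = x j`, `1 - z` are independent, then every `x i`, `1 - x i`
has the size of a monomial with rational exponents in `z`, `1 - z`.

Proof. Let `U` be the space of `RankLe`, `e := Pi.single (Sum.inl j) 1`, `e' := Pi.single (Sum.inr j) 1`.
If `a • e + b • e' ∈ U` with integers `a`, `b` then `(z^a (1-z)^b)^m = 1`, `m > 0`, so `a m = b m = 0`;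
clearing denominators, `U ⊓ span {e, e'} = ⊥` and `e, e'` are linearly independent. As
`finrank U ≥ 6 - 2`, `U ⊔ span {e, e'} = ⊤`. Write `Pi.single i 1 = w + α • e + β • e'`, `w ∈ U`,
`α β : ℚ`; multiply by a common denominator `N`: `N • Pi.single i 1 - (Nα) • e - (Nβ) • e'` is an
integer vector in `U`, so `(f^N z^(-Nα) (1-z)^(-Nβ))^m = 1`. Apply `v` and `log`. -/
theorem exists_tied {K : Type} [Field K] [NumberField K] {r : ℕ} (x : Fin r → K)
    (hx : ∀ i, x i ≠ 0 ∧ x i ≠ 1) (h : RankLe 2 (co x)) (j : Fin r)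
    (hmi : CITNF.MI (x j)) (i : Fin r ⊕ Fin r) :
    ∃ α β : ℝ, Tied (x j) (co x i) α β := by
  classical
  obtain ⟨U, hU, hUm⟩ := h
  have hco : ∀ i, co x i ≠ 0 := by
    rintro (i | i)
    · exact (hx i).1
    · exact sub_ne_zero.2 (hx i).2.symm
  set e : Fin r ⊕ Fin r → ℚ := Pi.single (Sum.inl j) 1 with he
  set e' : Fin r ⊕ Fin r → ℚ := Pi.single (Sum.inr j) 1 with he'
  -- independence
  have hind : ∀ a b : ℚ, a • e + b • e' ∈ U → a = 0 ∧ b = 0 := by
    intro a b hab
    obtain ⟨N, a', b', hN, ha, hb⟩ := tied_clear a b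
    have hN' : (N : ℚ) ≠ 0 := Nat.cast_ne_zero.2 hN.ne'
    set u : Fin r ⊕ Fin r → ℤ := Pi.single (Sum.inl j) a' + Pi.single (Sum.inr j) b' with hu
    have h1 : (fun i => (u i : ℚ)) = (N : ℚ) • (a • e + b • e') := by
      funext l
      rw [hu, he, he']
      simp only [Pi.add_apply, Pi.smul_apply, smul_eq_mul, Int.cast_add]
      rcases eq_or_ne l (Sum.inl j) with rfl | h2
      · simp [ha]
      · rcases eq_or_ne l (Sum.inr j) with rfl | h3
        · simp [hb]
        · simp [h2, h3]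
    obtain ⟨m, hm, hm1⟩ := hUm u (by
      rw [h1]
      exact U.smul_mem _ hab)
    have h2 : mono (co x) u = x j ^ a' * (1 - x j) ^ b' := by
      unfold mono
      rw [hu]
      simp only [Pi.add_apply]
      have h3 : ∀ l, co x l ^ ((Pi.single (Sum.inl j) a' : Fin r ⊕ Fin r → ℤ) l +
          (Pi.single (Sum.inr j) b' : Fin r ⊕ Fin r → ℤ) l) =
          co x l ^ ((Pi.single (Sum.inl j) a' : Fin r ⊕ Fin r → ℤ) l) *
          co x l ^ ((Pi.single (Sum.inr j) b' : Fin r ⊕ Fin r → ℤ) l) := fun l =>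
        zpow_add₀ (hco l) _ _
      rw [Finset.prod_congr rfl fun l _ => h3 l, Finset.prod_mul_distrib,
        Finset.prod_eq_single (Sum.inl j), Finset.prod_eq_single (Sum.inr j)]
      · simp [co]
      · intro l _ hl
        simp [hl]
      · intro hl
        exact absurd (Finset.mem_univ _) hl
      · intro l _ hl
        simp [hl]
      · intro hl
        exact absurd (Finset.mem_univ _) hl
    have h3 := hmi (a' * m) (b' * m) (by
      rw [zpow_mul, zpow_mul, zpow_natCast, zpow_natCast, ← mul_pow, ← h2, hm1])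
    have hm' : (m : ℤ) ≠ 0 := by exact_mod_cast hm.ne'
    have h4 : a' = 0 := (mul_eq_zero.1 h3.1).resolve_right hm'
    have h5 : b' = 0 := (mul_eq_zero.1 h3.2).resolve_right hm'
    rw [h4, Int.cast_zero] at ha
    rw [h5, Int.cast_zero] at hb
    exact ⟨(mul_eq_zero.1 ha).resolve_left hN', (mul_eq_zero.1 hb).resolve_left hN'⟩
  -- the linear map
  set l₁ : ℚ × ℚ →ₗ[ℚ] (Fin r ⊕ Fin r → ℚ) :=
    (LinearMap.toSpanSingleton ℚ _ e).coprod (LinearMap.toSpanSingleton ℚ _ e') with hl₁
  have hl₁v : ∀ a b, l₁ (a, b) = a • e + b • e' := fun a b => rfl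
  set l₂ : U × (ℚ × ℚ) →ₗ[ℚ] (Fin r ⊕ Fin r → ℚ) := U.subtype.coprod l₁ with hl₂
  have hl₂v : ∀ (w : U) a b, l₂ (w, (a, b)) = (w : Fin r ⊕ Fin r → ℚ) + (a • e + b • e') :=
    fun w a b => rfl
  have hinj : Function.Injective l₂ := by
    rw [injective_iff_map_eq_zero]
    rintro ⟨w, a, b⟩ h0
    rw [hl₂v] at h0
    have h1 : a • e + b • e' ∈ U := by
      have : a • e + b • e' = -(w : Fin r ⊕ Fin r → ℚ) := by
        rw [eq_neg_iff_add_eq_zero, add_comm]
        exact h0
      rw [this]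
      exact U.neg_mem w.2
    obtain ⟨rfl, rfl⟩ := hind a b h1
    rw [zero_smul, zero_smul, add_zero, add_zero] at h0
    have : w = 0 := Subtype.ext h0
    rw [this]
    rfl
  have hfin : finrank ℚ (U × (ℚ × ℚ)) = finrank ℚ (Fin r ⊕ Fin r → ℚ) := by
    have h1 := LinearMap.finrank_le_finrank_of_injective hinj
    rw [finrank_prod, finrank_prod, finrank_self, finrank_fintype_fun_eq_card] at h1 ⊢
    omega
  have hsurj : Function.Surjective l₂ :=
    (LinearMap.injective_iff_surjective_of_finrank_eq_finrank hfin).1 hinj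
  obtain ⟨⟨w, a, b⟩, hw⟩ := hsurj (Pi.single i 1)
  rw [hl₂v] at hw
  obtain ⟨N, a', b', hN, ha, hb⟩ := tied_clear a b
  set u : Fin r ⊕ Fin r → ℤ := Pi.single i (N : ℤ) -
    (Pi.single (Sum.inl j) a' + Pi.single (Sum.inr j) b') with hu
  have hcast : ∀ (l : Fin r ⊕ Fin r) (c : ℤ), (fun s => (((Pi.single l c : Fin r ⊕ Fin r → ℤ) s :
      ℤ) : ℚ)) = (c : ℚ) • Pi.single l (1 : ℚ) := by
    intro l c
    funext s
    rcases eq_or_ne s l with rfl | h2
    · simp
    · simp [h2]
  have h1 : (fun l => (u l : ℚ)) = (N : ℚ) • (w : Fin r ⊕ Fin r → ℚ) := by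
    have h2 : (w : Fin r ⊕ Fin r → ℚ) = Pi.single i 1 - (a • e + b • e') := by
      rw [← hw]
      abel
    rw [h2, smul_sub, smul_add, smul_smul, smul_smul, ha, hb]
    funext l
    have e1 := congrFun (hcast i (N : ℤ)) l
    have e2 := congrFun (hcast (Sum.inl j) a') l
    have e3 := congrFun (hcast (Sum.inr j) b') l
    simp only [Int.cast_natCast] at e1
    rw [hu]
    simp only [Pi.sub_apply, Pi.add_apply, Int.cast_sub, Int.cast_add]
    rw [e1, e2, e3]
  obtain ⟨m, hm, hm1⟩ := hUm u (by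
    rw [h1]
    exact U.smul_mem _ w.2)
  have hNr : (N : ℝ) ≠ 0 := Nat.cast_ne_zero.2 hN.ne'
  have key : ∀ v : K →*₀ ℝ, log (v (co x i)) = (a : ℝ) * log (v (x j)) +
      (b : ℝ) * log (v (1 - x j)) := by
    intro v
    have h2 := tied_sum v (co x) hco u m hm hm1
    have h3 : ∑ l, (u l : ℝ) * log (v (co x l)) = (N : ℝ) * log (v (co x i)) -
        ((a' : ℝ) * log (v (x j)) + (b' : ℝ) * log (v (1 - x j))) := by
      have hs : ∀ (l : Fin r ⊕ Fin r) (c : ℤ),
          ∑ s, (((Pi.single l c : Fin r ⊕ Fin r → ℤ) s : ℤ) : ℝ) * log (v (co x s)) =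
          (c : ℝ) * log (v (co x l)) := by
        intro l c
        rw [Finset.sum_eq_single l]
        · simp
        · intro s _ hs
          simp [hs]
        · intro hl
          exact absurd (Finset.mem_univ _) hl
      have e1 := hs i (N : ℤ)
      have e2 := hs (Sum.inl j) a'
      have e3 := hs (Sum.inr j) b'
      rw [Int.cast_natCast] at e1
      have e4 : (co x (Sum.inl j) : K) = x j := rfl
      have e5 : (co x (Sum.inr j) : K) = 1 - x j := rfl
      rw [e4] at e2
      rw [e5] at e3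
      rw [← e1, ← e2, ← e3, ← Finset.sum_add_distrib, ← Finset.sum_sub_distrib]
      refine Finset.sum_congr rfl fun s _ => ?_
      rw [hu]
      simp only [Pi.sub_apply, Pi.add_apply, Int.cast_sub, Int.cast_add]
      ring
    rw [h3] at h2
    have ha' : (a' : ℝ) = N * (a : ℝ) := by
      have := congrArg (fun t : ℚ => (t : ℝ)) ha
      push_cast at this
      exact this.symm
    have hb' : (b' : ℝ) = N * (b : ℝ) := by
      have := congrArg (fun t : ℚ => (t : ℝ)) hb
      push_cast at this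
      exact this.symm
    rw [ha', hb'] at h2
    have h4 : (N : ℝ) * (log (v (co x i)) - ((a : ℝ) * log (v (x j)) +
        (b : ℝ) * log (v (1 - x j)))) = 0 := by
      linear_combination h2
    exact sub_eq_zero.1 ((mul_eq_zero.1 h4).resolve_left hNr)
  exact ⟨a, b, ⟨fun v => key v.1.toMonoidWithZeroHom, fun v => key v.1.toMonoidWithZeroHom⟩⟩

end Pool.Agent.LThree
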