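import Pool.Agent.LThree.ExpSum
import Pool.Agent.LThree.Tri

set_option autoImplicit false

/-! B6. Powers of a root of `X² = S X - Q`. -/

namespace Pool.Agent.LThree

open Real

/-- `x ^ n = (pw S Q n).1 + (pw S Q n).2 * x` if `x ^ 2 = S * x - Q`. -/
def pw (S Q : ℝ) : ℕ → ℝ × ℝ
  | 0 => (1, 0)
  | n + 1 => (-(Q * (pw S Q n).2), (pw S Q n).1 + S * (pw S Q n).2)

/-- the two components as a function on `Fin 2` -/
def pwc (S Q : ℝ) (n : ℕ) (a : Fin 2) : ℝ := if a = 0 then (pw S Q n).1 else (pw S Q n).2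

theorem pow_eq_pwc (x : ℂ) (S Q : ℝ) (h : x ^ 2 = (S : ℂ) * x - (Q : ℂ)) (n : ℕ) :
    x ^ n = ∑ a : Fin 2, (pwc S Q n a : ℂ) * x ^ (a : ℕ) := by
  have h1 : ∀ n, x ^ n = ((pw S Q n).1 : ℂ) + ((pw S Q n).2 : ℂ) * x := by
    intro n
    induction n with
    | zero => simp [pw]
    | succ n ih =>
      rw [pow_succ, ih, pw]
      push_cast
      linear_combination ((pw S Q n).2 : ℂ) * h
  rw [Fin.sum_univ_two, h1 n]
  simp [pwc]

private theorem pw_bound (S Q R : ℝ) (hR : 1 ≤ R) (hS : |S| ≤ R) (hQ : |Q| ≤ R) (n : ℕ) :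
    |(pw S Q n).1| ≤ (2 * R) ^ n ∧ |(pw S Q n).2| ≤ (2 * R) ^ n := by
  induction n with
  | zero => simp [pw]
  | succ n ih =>
    obtain ⟨h1, h2⟩ := ih
    have h0 : 0 ≤ (2 * R) ^ n := by positivity
    have h3 : ∀ T : ℝ, |T| ≤ R → |T * (pw S Q n).2| ≤ R * (2 * R) ^ n := fun T hT => by
      rw [abs_mul]
      exact mul_le_mul hT h2 (abs_nonneg _) (by linarith)
    have h4 : (2 * R) ^ (n + 1) = R * (2 * R) ^ n + R * (2 * R) ^ n := by ring
    have h5 : (2 * R) ^ n ≤ R * (2 * R) ^ n := le_mul_of_one_le_left h0 hR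
    have h6 : 0 ≤ R * (2 * R) ^ n := by positivity
    rw [h4, pw]
    constructor
    · rw [abs_neg]
      have := h3 Q hQ
      linarith
    · refine (abs_add_le _ _).trans ?_
      have := h3 S hS
      linarith

theorem pwc_bound (S Q R : ℝ) (hR : 1 ≤ R) (hS : |S| ≤ R) (hQ : |Q| ≤ R) (n : ℕ) (a : Fin 2) :
    |pwc S Q n a| ≤ (2 * R) ^ n := by
  obtain ⟨h1, h2⟩ := pw_bound S Q R hR hS hQ n
  unfold pwc
  split_ifs
  · exact h1
  · exact h2

private theorem pw_lip (S Q S' Q' R ε : ℝ) (hR : 1 ≤ R) (hS : |S| ≤ R) (hQ : |Q| ≤ R)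
    (hS' : |S'| ≤ R) (hQ' : |Q'| ≤ R) (h1 : |S - S'| ≤ ε) (h2 : |Q - Q'| ≤ ε) (n : ℕ) :
    |(pw S Q n).1 - (pw S' Q' n).1| ≤ ε * (4 * R) ^ n ∧
      |(pw S Q n).2 - (pw S' Q' n).2| ≤ ε * (4 * R) ^ n := by
  have hε : 0 ≤ ε := (abs_nonneg _).trans h1
  induction n with
  | zero => simp [pw, hε]
  | succ n ih =>
    obtain ⟨i1, i2⟩ := ih
    obtain ⟨-, b2⟩ := pw_bound S' Q' R hR hS' hQ' n
    have h0 : 0 ≤ (4 * R) ^ n := by positivity
    have h3 : ∀ T T' : ℝ, |T| ≤ R → |T - T'| ≤ ε →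
        |T * (pw S Q n).2 - T' * (pw S' Q' n).2| ≤ R * (ε * (4 * R) ^ n) + ε * (4 * R) ^ n := by
      intro T T' hT hTT
      have e : T * (pw S Q n).2 - T' * (pw S' Q' n).2 =
          T * ((pw S Q n).2 - (pw S' Q' n).2) + (T - T') * (pw S' Q' n).2 := by ring
      rw [e]
      refine (abs_add_le _ _).trans ?_
      rw [abs_mul, abs_mul]
      refine add_le_add (mul_le_mul hT i2 (abs_nonneg _) (by linarith)) ?_
      refine mul_le_mul hTT (b2.trans ?_) (abs_nonneg _) hε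
      exact pow_le_pow_left₀ (by linarith) (by linarith) n
    have h4 : 0 ≤ ε * (4 * R) ^ n := mul_nonneg hε h0
    have h5 : ε * (4 * R) ^ n ≤ R * (ε * (4 * R) ^ n) := le_mul_of_one_le_left h4 hR
    have h6 : ε * (4 * R) ^ (n + 1) = 4 * (R * (ε * (4 * R) ^ n)) := by ring
    have h7 : 0 ≤ R * (ε * (4 * R) ^ n) := h4.trans h5
    rw [h6, pw, pw]
    constructor
    · have e : -(Q * (pw S Q n).2) - -(Q' * (pw S' Q' n).2) =
          -(Q * (pw S Q n).2 - Q' * (pw S' Q' n).2) := by ring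
      simp only
      rw [e, abs_neg]
      have := h3 Q Q' hQ h2
      linarith
    · have e : (pw S Q n).1 + S * (pw S Q n).2 - ((pw S' Q' n).1 + S' * (pw S' Q' n).2) =
          ((pw S Q n).1 - (pw S' Q' n).1) + (S * (pw S Q n).2 - S' * (pw S' Q' n).2) := by ring
      simp only
      rw [e]
      refine (abs_add_le _ _).trans ?_
      have := h3 S S' hS h1
      linarith

/-- Induction: `e (n+1) ≤ 2 R e n + ε (2R)^n` for the maximum `e n` of the two differences. -/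
theorem pwc_lip (S Q S' Q' R ε : ℝ) (hR : 1 ≤ R) (hS : |S| ≤ R) (hQ : |Q| ≤ R) (hS' : |S'| ≤ R)
    (hQ' : |Q'| ≤ R) (h1 : |S - S'| ≤ ε) (h2 : |Q - Q'| ≤ ε) (n : ℕ) (a : Fin 2) :
    |pwc S Q n a - pwc S' Q' n a| ≤ ε * (4 * R) ^ n := by
  obtain ⟨i1, i2⟩ := pw_lip S Q S' Q' R ε hR hS hQ hS' hQ' h1 h2 n
  unfold pwc
  split_ifs
  · exact i1
  · exact i2

private theorem pw_expSum (a b U : ℝ) (ha : |a| ≤ U) (hb : |b| ≤ U) (n : ℕ) :
    ExpSum (2 * U * n) (4 ^ n)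
      (fun t => (pw (1 + exp (2 * (t * a)) - exp (2 * (t * b))) (exp (2 * (t * a))) n).1) ∧
    ExpSum (2 * U * n) (4 ^ n)
      (fun t => (pw (1 + exp (2 * (t * a)) - exp (2 * (t * b))) (exp (2 * (t * a))) n).2) := by
  have hU : 0 ≤ U := (abs_nonneg a).trans ha
  have hexp : ∀ c : ℝ, |c| ≤ U → ExpSum (2 * U) 1 (fun t => exp (2 * (t * c))) := by
    intro c hc
    have h1 := (ExpSum.exp (2 * c)).mono (Λ' := 2 * U) (B' := 1)
      (by rw [abs_mul, abs_of_pos (by norm_num : (0 : ℝ) < 2)]; linarith) le_rfl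
    have e : (fun t => Real.exp (2 * c * t)) = fun t => exp (2 * (t * c)) := by
      funext t
      congr 1
      ring
    rwa [e] at h1
  induction n with
  | zero =>
    simp only [pw, CharP.cast_eq_zero, mul_zero, pow_zero]
    refine ⟨?_, ?_⟩
    · have := ExpSum.const 0 1 le_rfl
      rwa [abs_one] at this
    · exact (ExpSum.const 0 0 le_rfl).mono le_rfl (by norm_num)
  | succ n ih =>
    obtain ⟨i1, i2⟩ := ih
    have hn : (2 * U * ((n + 1 : ℕ) : ℝ)) = 2 * U + 2 * U * n := by push_cast; ring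
    have h4 : (1 : ℝ) * 4 ^ n ≤ 4 ^ (n + 1) := by
      rw [pow_succ]
      have : (0 : ℝ) < 4 ^ n := by positivity
      linarith
    rw [hn]
    simp only [pw]
    refine ⟨?_, ?_⟩
    · exact ((hexp a ha).mul i2).neg.mono le_rfl h4
    · have hS : ExpSum (2 * U) 3 (fun t => 1 + exp (2 * (t * a)) - exp (2 * (t * b))) := by
        have h1 := ((ExpSum.const (2 * U) 1 (by positivity)).add (hexp a ha)).add (hexp b hb).neg
        have e : (|(1 : ℝ)| + 1 + 1) = 3 := by norm_num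
        rw [e] at h1
        have e2 : (fun t => 1 + exp (2 * (t * a)) + -exp (2 * (t * b))) =
            fun t => 1 + exp (2 * (t * a)) - exp (2 * (t * b)) := by
          funext t
          ring
        rwa [e2] at h1
      have h5 := (i1.mono (Λ' := 2 * U + 2 * U * n) (by linarith) le_rfl).add (hS.mul i2)
      exact h5.mono le_rfl (by rw [pow_succ]; linarith)

/-- Along a line: `S t = 1 + exp (2 t a) - exp (2 t b)`, `Q t = exp (2 t a)`. Induction on `n` with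
`ExpSum.add`, `ExpSum.mul`, `ExpSum.mono`: `S` is `ExpSum (2U) 3`, `Q` is `ExpSum (2U) 1`. -/
theorem pwc_expSum (a b U : ℝ) (ha : |a| ≤ U) (hb : |b| ≤ U) (n : ℕ) (c : Fin 2) :
    ExpSum (2 * U * n) (4 ^ n)
      (fun t => pwc (1 + exp (2 * (t * a)) - exp (2 * (t * b))) (exp (2 * (t * a))) n c) := by
  obtain ⟨h1, h2⟩ := pw_expSum a b U ha hb n
  unfold pwc
  split_ifs
  · exact h1
  · exact h2

end Pool.Agent.LThree
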