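import Pool.Agent.LThree.Inputs
import Pool.Agent.LThree.Ext
import Pool.Agent.LThree.North
import Pool.Agent.LThree.RelPoly
import Pool.Agent.RelC.Orbit

set_option autoImplicit false

/-! A. Points of bounded height. -/

namespace Pool.Agent.LThree

open NumberField Height Real Module

/-- ring homomorphisms and monomials -/
private lemma CaseA_map {K F : Type} [Field K] [Field F] {r : ℕ} (ψ : K →+* F) (y : Fin r → K)
    (u : Fin r ⊕ Fin r → ℤ) :
    ψ (mono (co y) u) = mono (co fun i => ψ (y i)) u := by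
  unfold mono
  rw [map_prod]
  refine Finset.prod_congr rfl fun i _ => ?_
  rw [map_zpow₀]
  congr 1
  rcases i with i | i
  · rfl
  · show ψ (1 - y i) = 1 - ψ (y i)
    rw [map_sub, map_one]

private lemma CaseA_nrm {ι : Type} [Fintype ι] {u : ι → ℤ} {B : ℕ} (h : nrm u ≤ B) (i : ι) :
    (u i).natAbs ≤ B := by
  refine le_trans ?_ h
  exact Finset.le_sup (f := fun i => (u i).natAbs) (Finset.mem_univ i)

private lemma CaseA_nrm_pos {ι : Type} [Fintype ι] {u : ι → ℤ} (h : u ≠ 0) : 1 ≤ nrm u := by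
  by_contra hlt
  have h0 : nrm u ≤ 0 := by omega
  apply h
  funext i
  have h1 := CaseA_nrm h0 i
  simpa using h1

private lemma CaseA_deg (C : ℝ) (D : ℕ) (hD : 1 ≤ D)
    (h : (D : ℝ) ≤ 343 * C * (D : ℝ) ^ ((3 / 4 : ℝ) + 1 / 8)) : D ≤ ⌈(343 * C) ^ 8⌉₊ := by
  have hD0 : (0 : ℝ) < D := by exact_mod_cast hD
  have h1 : (D : ℝ) ^ ((3 / 4 : ℝ) + 1 / 8) * (D : ℝ) ^ (1 / 8 : ℝ) = D := by
    rw [← Real.rpow_add hD0]
    norm_num
  have hp : 0 < (D : ℝ) ^ ((3 / 4 : ℝ) + 1 / 8) := Real.rpow_pos_of_pos hD0 _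
  have hq : 0 < (D : ℝ) ^ (1 / 8 : ℝ) := Real.rpow_pos_of_pos hD0 _
  have h2 : (D : ℝ) ^ (1 / 8 : ℝ) ≤ 343 * C := by
    rw [← h1] at h
    have h3 : (D : ℝ) ^ (1 / 8 : ℝ) * (D : ℝ) ^ ((3 / 4 : ℝ) + 1 / 8) ≤
        343 * C * (D : ℝ) ^ ((3 / 4 : ℝ) + 1 / 8) := by
      have h4 : (((D : ℝ) ^ ((3 / 4 : ℝ) + 1 / 8) * (D : ℝ) ^ (1 / 8 : ℝ)) : ℝ) ^
          ((3 / 4 : ℝ) + 1 / 8) = (D : ℝ) ^ ((3 / 4 : ℝ) + 1 / 8) := by rw [h1]
      rw [h4] at h
      calc (D : ℝ) ^ (1 / 8 : ℝ) * (D : ℝ) ^ ((3 / 4 : ℝ) + 1 / 8)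
          = (D : ℝ) ^ ((3 / 4 : ℝ) + 1 / 8) * (D : ℝ) ^ (1 / 8 : ℝ) := mul_comm _ _
        _ ≤ _ := h
    exact le_of_mul_le_mul_right h3 hp
  have h5 : (D : ℝ) = ((D : ℝ) ^ (1 / 8 : ℝ)) ^ 8 := by
    rw [← Real.rpow_natCast, ← Real.rpow_mul hD0.le]
    norm_num
  have h6 : (D : ℝ) ≤ (343 * C) ^ 8 := by
    rw [h5]
    exact pow_le_pow_left₀ hq.le h2 8
  have h7 : (D : ℝ) ≤ (⌈(343 * C) ^ 8⌉₊ : ℝ) := h6.trans (Nat.le_ceil _)
  exact_mod_cast h7

/-- **Part [A].** Points of `L^3` of rank at most two and bounded height satisfy one of finitely many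
relations.

Proof. Let `B` be from `hT`, `C` from `h3 (1/8) H`. Given `x : Fin 3 → L`, first pass to the field `K`
generated by `x` (`exists_generated`, `RankLe.of_map`; same normalised heights; relations go up to `L` by
the ring homomorphism). Take `u 0, u 1, u 2` from `h3`, `f j = relPoly (u j)`, `d j = 6 * nrm (u j) + 1`
(`totalDegree_relPoly`), so `∏ d j ≤ 7^3 ∏ nrm (u j)` (`nrm (u j) ≥ 1` as `u j ≠ 0`). `RelC.orbit_or_generic`:
* `D = finrank ℚ K ≤ ∏ d j ≤ 343 C D ^ (7/8)`: so `D ≤ D0` with a constant `D0`;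
  `northcott_relations 3 D0 H`.
* or there is `ξ : Fin 3 → Ω` over `ℂ`, not all coordinates algebraic over `ℂ` (so not over `ℚ`), with
  `aeval ξ (f j) = 0` and `x` a specialisation of `ξ`. `ξ i ≠ 0, 1` (specialise), so
  `mono (co ξ) (u j) = 1` (`aeval_relPoly`, with the `ℚ`-algebra `Ω`), so `hT` gives `m ≠ 0`, `nrm m ≤ B`,
  `mono (co ξ) m = 1`; specialise `relPoly m`.
`E` = union of the finite set of `northcott_relations` and the finite set of all `m ≠ 0` with `nrm m ≤ B`. -/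
theorem triples_bounded (h3 : ShortThree) (hT : TransThree) (H : ℝ) :
    ∃ E : Finset (Fin 3 ⊕ Fin 3 → ℤ), 0 ∉ E ∧
    ∀ (K : Type) [Field K] [NumberField K] (x : Fin 3 → K), (∀ i, x i ≠ 0 ∧ x i ≠ 1) →
      RankLe 2 (co x) → (∀ i, logHeight₁ (x i) ≤ H * finrank ℚ K) →
      ∃ u ∈ E, mono (co x) u = 1 := by
  classical
  obtain ⟨B, hB⟩ := hT
  obtain ⟨C, hC⟩ := h3 (1 / 8) (by norm_num) H
  obtain ⟨E1, hE1, hE1'⟩ := northcott_relations 3 ⌈(343 * C) ^ 8⌉₊ H
  set E2 : Finset (Fin 3 ⊕ Fin 3 → ℤ) :=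
    (Fintype.piFinset fun _ => Finset.Icc (-(B : ℤ)) B).erase 0 with hE2
  have hmem2 : ∀ m : Fin 3 ⊕ Fin 3 → ℤ, m ≠ 0 → nrm m ≤ B → m ∈ E2 := by
    intro m hm hn
    rw [hE2, Finset.mem_erase, Fintype.mem_piFinset]
    refine ⟨hm, fun i => ?_⟩
    have h1 := CaseA_nrm hn i
    rw [Finset.mem_Icc]
    omega
  refine ⟨E1 ∪ E2, ?_, ?_⟩
  · rw [Finset.mem_union, not_or]
    exact ⟨hE1, by rw [hE2]; exact Finset.notMem_erase _ _⟩
  intro L _ _ x hx hr hh
  obtain ⟨K, _, _, φ, y, hy, hgen, hht⟩ := exists_generated L x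
  have hφ := φ.injective
  have hxy : (fun i => φ (y i)) = x := funext hy
  have hup : ∀ u, mono (co y) u = 1 → mono (co x) u = 1 := by
    intro u hu
    rw [← hxy, ← CaseA_map, hu, map_one]
  have hy01 : ∀ i, y i ≠ 0 ∧ y i ≠ 1 := by
    intro i
    refine ⟨fun h => (hx i).1 ?_, fun h => (hx i).2 ?_⟩
    · rw [← hy, h, map_zero]
    · rw [← hy, h, map_one]
  have hry : RankLe 2 (co y) := by
    apply RankLe.of_map φ
    have h1 : (fun i => φ (co y i)) = co x := by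
      funext i
      rcases i with i | i
      · exact hy i
      · show φ (1 - y i) = 1 - x i
        rw [map_sub, map_one, hy]
    rw [h1]
    exact hr
  have hLpos : (0 : ℝ) < finrank ℚ L := by exact_mod_cast finrank_pos
  have hKpos : 1 ≤ finrank ℚ K := finrank_pos
  have hhy : ∀ i, logHeight₁ (y i) ≤ H * finrank ℚ K := by
    intro i
    have h1 := hht i
    have h2 := mul_le_mul_of_nonneg_right (hh i) (Nat.cast_nonneg (α := ℝ) (finrank ℚ K))
    rw [h1] at h2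
    have h4 : logHeight₁ (y i) * finrank ℚ L ≤ (H * finrank ℚ K) * finrank ℚ L := by
      calc logHeight₁ (y i) * finrank ℚ L ≤ H * finrank ℚ L * finrank ℚ K := h2
        _ = _ := by ring
    exact le_of_mul_le_mul_right h4 hLpos
  obtain ⟨u, hui, hur, hun⟩ := hC K y hy01 hry hhy
  have hu0 : ∀ j, u j ≠ 0 := fun j => hui.ne_zero j
  have hun1 : ∀ j, 1 ≤ nrm (u j) := fun j => CaseA_nrm_pos (hu0 j)
  have hcases := RelC.orbit_or_generic K y hgen (fun j => relPoly (u j))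
    (fun j => (aeval_relPoly y hy01 (u j)).2 (hur j)) (fun j => 6 * nrm (u j) + 1)
    (fun j => by
      have h1 := totalDegree_relPoly (u j)
      rw [Fintype.card_fin] at h1
      omega)
  rcases hcases with hd | ⟨ψ, Ω, _, _, ξ, h1, ⟨i0, h2⟩, h4⟩
  · have h5 : ∏ j, (6 * nrm (u j) + 1) ≤ 343 * ∏ j, nrm (u j) := by
      have h6 : ∏ j, (6 * nrm (u j) + 1) ≤ ∏ j, (7 * nrm (u j)) :=
        Finset.prod_le_prod' fun j _ => by have := hun1 j; omega
      refine h6.trans (le_of_eq ?_)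
      rw [Finset.prod_mul_distrib, Finset.prod_const, Finset.card_univ, Fintype.card_fin]
      norm_num
    have h7 : (finrank ℚ K : ℝ) ≤ 343 * C * (finrank ℚ K : ℝ) ^ ((3 / 4 : ℝ) + 1 / 8) := by
      have h8 : (finrank ℚ K : ℝ) ≤ 343 * ((∏ j, nrm (u j) : ℕ) : ℝ) := by
        exact_mod_cast hd.trans h5
      calc (finrank ℚ K : ℝ) ≤ 343 * ((∏ j, nrm (u j) : ℕ) : ℝ) := h8
        _ ≤ 343 * (C * (finrank ℚ K : ℝ) ^ ((3 / 4 : ℝ) + 1 / 8)) :=
          mul_le_mul_of_nonneg_left hun (by norm_num)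
        _ = _ := by ring
    obtain ⟨v, hv, hv'⟩ := hE1' K y (CaseA_deg C _ hKpos h7) hhy ⟨u 0, hu0 0, hur 0⟩
    exact ⟨v, Finset.mem_union_left _ hv, hup v hv'⟩
  · have hcz : CharZero Ω := charZero_of_injective_algebraMap (algebraMap ℂ Ω).injective
    have hξ : ∀ i, ξ i ≠ 0 ∧ ξ i ≠ 1 := by
      intro i
      constructor
      · intro h
        have h5 := h4 (MvPolynomial.X i) (by rw [MvPolynomial.aeval_X, h])
        rw [MvPolynomial.eval_X] at h5
        exact (hy01 i).1 (ψ.injective (by rw [h5, map_zero]))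
      · intro h
        have h5 := h4 (MvPolynomial.X i - 1) (by rw [map_sub, MvPolynomial.aeval_X, h, map_one,
          sub_self])
        rw [map_sub, MvPolynomial.eval_X, map_one, sub_eq_zero] at h5
        exact (hy01 i).2 (ψ.injective (by rw [h5, map_one]))
    have htr : Transcendental ℚ (ξ i0) := h2.restrictScalars (algebraMap ℚ ℂ).injective
    obtain ⟨m, hm0, hmB, hm1⟩ := hB Ω ξ hξ ⟨i0, htr⟩ ⟨u, hui, fun j => by
      rw [← aeval_relPoly ξ hξ, ← h1 j, MvPolynomial.aeval_map_algebraMap]⟩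
    refine ⟨m, Finset.mem_union_right _ (hmem2 m hm0 hmB), hup m ?_⟩
    have h5 : MvPolynomial.aeval ξ (MvPolynomial.map (algebraMap ℚ ℂ) (relPoly m)) = 0 := by
      rw [MvPolynomial.aeval_map_algebraMap]
      exact (aeval_relPoly ξ hξ m).2 hm1
    have h6 := h4 _ h5
    have hψ01 : ∀ i, ψ (y i) ≠ 0 ∧ ψ (y i) ≠ 1 := by
      intro i
      refine ⟨fun h => (hy01 i).1 (ψ.injective (by rw [h, map_zero])),
        fun h => (hy01 i).2 (ψ.injective (by rw [h, map_one]))⟩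
    have h7 : MvPolynomial.aeval (fun i => ψ (y i)) (relPoly m) = 0 := by
      rw [← h6, MvPolynomial.eval_map, MvPolynomial.aeval_def]
    have h8 := (aeval_relPoly (fun i => ψ (y i)) hψ01 m).1 h7
    rw [← CaseA_map] at h8
    exact ψ.injective (by rw [h8, map_one])

end Pool.Agent.LThree
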