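import Pool.Agent.LThree.Defs
import Pool.Agent.Leh2.Count

set_option autoImplicit false

/-! The counting statement in the form in which the assembly uses it. -/

namespace Pool.Agent.LThree

open NumberField Height Real Module

private theorem ca_clear {n : ℕ} (v : Fin n → ℚ) :
    ∃ k : ℤ, k ≠ 0 ∧ ∃ a : Fin n → ℤ, ∀ i, (a i : ℚ) = k * v i := by
  refine ⟨∏ i, ((v i).den : ℤ), Finset.prod_ne_zero_iff.2 fun i _ => by
    exact_mod_cast (v i).den_nz, fun i => (∏ j ∈ Finset.univ.erase i, ((v j).den : ℤ)) * (v i).num,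
    fun i => ?_⟩
  rw [← Finset.mul_prod_erase Finset.univ (fun j => ((v j).den : ℤ)) (Finset.mem_univ i)]
  push_cast
  have h := Rat.mul_den_eq_num (v i)
  rw [← h]
  ring

private theorem ca_mono {K : Type} [Field K] {ι : Type} [Fintype ι] {z : ι → K}
    (hz : ∀ i, z i ≠ 0) {κ : Type} (s : Finset κ) (a : κ → ι → ℤ) (c : κ → ℤ) :
    mono z (fun i => ∑ j ∈ s, c j * a j i) = ∏ j ∈ s, mono z (a j) ^ c j := by
  classical
  have h1 : ∀ j, mono z (a j) ^ c j = ∏ i, z i ^ (c j * a j i) := by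
    intro j
    unfold mono
    rw [← Finset.prod_zpow]
    refine Finset.prod_congr rfl fun i _ => ?_
    rw [← zpow_mul, mul_comm]
  simp only [h1]
  rw [Finset.prod_comm]
  unfold mono
  refine Finset.prod_congr rfl fun i _ => ?_
  show z i ^ (∑ j ∈ s, c j * a j i) = _
  induction s using Finset.induction_on with
  | empty => simp
  | insert j s hj ih =>
    rw [Finset.sum_insert hj, Finset.prod_insert hj, zpow_add₀ (hz i), ih]

/-- `k + 1` monomials are dependent -/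
private theorem ca_dep {K : Type} [Field K] {ι : Type} [Fintype ι] {z : ι → K}
    (hz : ∀ i, z i ≠ 0) {k : ℕ} (hR : RankLe k z) (a : Fin (k + 1) → ι → ℤ) :
    ∃ m : Fin (k + 1) → ℤ, m ≠ 0 ∧ ∏ s, mono z (a s) ^ m s = 1 := by
  classical
  obtain ⟨U, hU, hU2⟩ := hR
  have hq : finrank ℚ ((ι → ℚ) ⧸ U) ≤ k := by
    have h4 := Submodule.finrank_quotient_add_finrank U
    rw [Module.finrank_fintype_fun_eq_card] at h4
    omega
  have hli : ¬ LinearIndependent ℚ fun s : Fin (k + 1) => U.mkQ (fun i => (a s i : ℚ)) := by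
    intro hli
    have h1 := hli.fintype_card_le_finrank
    rw [Fintype.card_fin] at h1
    omega
  rw [Fintype.not_linearIndependent_iff] at hli
  obtain ⟨g, hg, s₀, hs₀⟩ := hli
  obtain ⟨q, hk, c, hc⟩ := ca_clear g
  have hmem : (fun i => ((∑ s, c s * a s i : ℤ) : ℚ)) ∈ U := by
    have h1 : ∑ s, g s • (fun i => (a s i : ℚ)) ∈ U := by
      rw [← Submodule.Quotient.mk_eq_zero, ← Submodule.mkQ_apply, map_sum]
      simp only [map_smul]
      exact hg
    have h2 : (fun i => ((∑ s, c s * a s i : ℤ) : ℚ)) =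
        (q : ℚ) • ∑ s, g s • (fun i => (a s i : ℚ)) := by
      funext i
      rw [Pi.smul_apply, Finset.sum_apply, Finset.smul_sum, Int.cast_sum]
      refine Finset.sum_congr rfl fun s _ => ?_
      rw [Pi.smul_apply]
      push_cast
      rw [hc s]
      simp only [smul_eq_mul]
      ring
    rw [h2]
    exact U.smul_mem _ h1
  obtain ⟨m, hm, h3⟩ := hU2 _ hmem
  refine ⟨fun s => (m : ℤ) * c s, ?_, ?_⟩
  · intro h0
    have h1 := congrFun h0 s₀
    simp only [Pi.zero_apply] at h1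
    rcases mul_eq_zero.1 h1 with h2 | h2
    · omega
    · have h4 := hc s₀
      rw [h2, Int.cast_zero] at h4
      rcases mul_eq_zero.1 h4.symm with h5 | h5
      · exact hk (Int.cast_eq_zero.1 h5)
      · exact hs₀ h5
  · rw [ca_mono hz] at h3
    rw [← h3, ← Finset.prod_pow]
    refine Finset.prod_congr rfl fun s _ => ?_
    rw [← zpow_natCast, ← zpow_mul, mul_comm]

private theorem ca_main {k : ℕ} {ε : ℝ} {C : ℝ} {K : Type} [Field K] [NumberField K]
    (h : ∀ (S : Finset Kˣ) (X : ℝ), 1 ≤ X → (∀ g ∈ S, logHeight₁ (g : K) ≤ X * finrank ℚ K) →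
      (∀ g : Fin (k + 1) → Kˣ, (∀ i, g i ∈ S) → ∃ m : Fin (k + 1) → ℤ, m ≠ 0 ∧
        ∏ i, g i ^ m i = 1) →
      (S.card : ℝ) ≤ C * X ^ k * (finrank ℚ K : ℝ) ^ (1 + ε))
    {ι : Type} [Fintype ι] (z : ι → K) (hz : ∀ i, z i ≠ 0) (hR : RankLe k z) (X : ℝ)
    (hX : 1 ≤ X) :
    {g : K | (∃ u : ι → ℤ, g = mono z u) ∧ logHeight₁ g ≤ X * finrank ℚ K}.Finite ∧
    (Nat.card {g : K | (∃ u : ι → ℤ, g = mono z u) ∧ logHeight₁ g ≤ X * finrank ℚ K} : ℝ) ≤
      C * X ^ k * (finrank ℚ K : ℝ) ^ (1 + ε) := by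
  classical
  have hfin : {g : K | (∃ u : ι → ℤ, g = mono z u) ∧
      logHeight₁ g ≤ X * finrank ℚ K}.Finite :=
    (NumberField.finite_setOfPred_logHeight₁_le K (X * finrank ℚ K)).subset fun g hg => hg.2
  refine ⟨hfin, ?_⟩
  have hne : ∀ u : ι → ℤ, mono z u ≠ 0 := fun u =>
    Finset.prod_ne_zero_iff.2 fun i _ => zpow_ne_zero _ (hz i)
  have hpre : ({g : Kˣ | (g : K) ∈ {g : K | (∃ u : ι → ℤ, g = mono z u) ∧
      logHeight₁ g ≤ X * finrank ℚ K}}).Finite :=
    hfin.preimage fun g _ g' _ hgg => Units.ext hgg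
  have h1 := h hpre.toFinset X hX (fun g hg => (hpre.mem_toFinset.1 hg).2) (fun g hg => by
    have hu : ∀ i, ∃ u : ι → ℤ, (g i : K) = mono z u := fun i =>
      (hpre.mem_toFinset.1 (hg i)).1
    choose u hu using hu
    obtain ⟨m, hm, e⟩ := ca_dep hz hR u
    refine ⟨m, hm, ?_⟩
    rw [Units.ext_iff, Units.coe_prod, Units.val_one, ← e]
    refine Finset.prod_congr rfl fun i _ => ?_
    rw [Units.val_zpow_eq_zpow_val, hu i])
  refine le_trans ?_ h1
  rw [Nat.card_coe_set_eq, Nat.cast_le, ← Set.ncard_coe_finset, Set.Finite.coe_toFinset]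
  refine le_trans (Set.ncard_le_ncard ?_ (hpre.image fun g : Kˣ => (g : K)))
    (Set.ncard_image_le hpre)
  rintro g hg
  obtain ⟨⟨u, hu⟩, hg2⟩ := hg
  exact ⟨Units.mk0 g (by rw [hu]; exact hne u), ⟨⟨u, hu⟩, hg2⟩, rfl⟩

/-- The counting statement of rank two. -/
theorem count_of_leh2 : Count 2 := by
  intro ε hε
  obtain ⟨C, hC, h⟩ := Leh2.count_two_set ε hε
  exact ⟨C, hC, fun K _ _ ι _ z hz hR X hX => ca_main (h K) z hz hR X hX⟩

/-- The counting statement of rank one. -/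
theorem count_one_of_leh2 : Count 1 := by
  intro ε hε
  obtain ⟨C, hC, h⟩ := Leh2.count_one_set ε hε
  refine ⟨C, hC, fun K _ _ ι _ z hz hR X hX => ca_main ?_ z hz hR X hX⟩
  intro S X hX h1 h2
  rw [pow_one]
  exact h K S X hX h1 h2

end Pool.Agent.LThree
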