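import Pool.Agent.LThree.Defs
import Pool.Agent.CITLines.Defs
import Pool.Agent.CITTrans.Gen

set_option autoImplicit false

/-! The generic point of an irreducible subset of the third power of the line. -/

namespace Pool.Agent.LThree

open Module Pool.Agent.CITLines Pool.Agent.CITTrans

private theorem gp_iff {n : ℕ} (X : Set (Fin n → ℂ)) [hX : (vanI X).IsPrime]
    (h0 : ∀ x ∈ X, ∀ i, x i ≠ 0) (a : Fin n → ℤ) (c : ℂ) :
    ∏ i, gen X i ^ a i = algebraMap ℂ (FF X) c ↔ ∀ x ∈ X, ∏ i, x i ^ a i = c := by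
  refine ⟨fun h x hx => ?_, gen_prod_eq X h0 a c⟩
  have h4 : ∏ i, gen X i ^ (-a i).toNat ≠ 0 :=
    Finset.prod_ne_zero_iff.mpr fun i _ => pow_ne_zero _ (gen_ne_zero X h0 i)
  rw [zpow_prod_eq _ (gen_ne_zero X h0), div_eq_iff h4] at h
  have h1 : (∏ i, (MvPolynomial.X i : MvPolynomial (Fin n) ℂ) ^ (a i).toNat) -
      MvPolynomial.C c * ∏ i, MvPolynomial.X i ^ (-a i).toNat ∈ vanI X := by
    rw [← aeval_gen_eq_zero_iff]
    simp only [map_sub, map_mul, map_prod, map_pow, MvPolynomial.aeval_X,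
      MvPolynomial.aeval_C]
    rw [h, sub_self]
  rw [mem_vanI] at h1
  have h2 := h1 x hx
  simp only [map_sub, map_mul, map_prod, map_pow, MvPolynomial.eval_X, MvPolynomial.eval_C] at h2
  have h3 : ∏ i, x i ^ (-a i).toNat ≠ 0 :=
    Finset.prod_ne_zero_iff.mpr fun i _ => pow_ne_zero _ (h0 x hx i)
  rw [zpow_prod_eq x (h0 x hx), div_eq_iff h3]
  exact sub_eq_zero.1 h2

/-- Replacing some of the elements `y` by `1 - y`. -/
private theorem gp_flip {F κ : Type} [Field F] [Algebra ℂ F] (y z : κ → F)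
    (h : ∀ k, y k = z k ∨ y k = 1 - z k) (hy : AlgebraicIndependent ℂ y) :
    AlgebraicIndependent ℂ z := by
  classical
  let g : κ → MvPolynomial κ ℂ := fun k =>
    if y k = z k then MvPolynomial.X k else 1 - MvPolynomial.X k
  let φ : MvPolynomial κ ℂ →ₐ[ℂ] MvPolynomial κ ℂ := MvPolynomial.aeval g
  have hφφ : φ.comp φ = AlgHom.id ℂ _ := by
    ext k
    simp only [AlgHom.comp_apply, φ, MvPolynomial.aeval_X, AlgHom.id_apply]
    by_cases hk : y k = z k
    · simp only [g, hk, if_true, MvPolynomial.aeval_X]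
    · simp only [g, hk, if_false, map_sub, map_one, MvPolynomial.aeval_X]
      exact sub_sub_cancel _ _
  have hinj : Function.Injective φ := by
    intro a b hab
    have h1 := DFunLike.congr_fun hφφ a
    have h2 := DFunLike.congr_fun hφφ b
    simp only [AlgHom.comp_apply, AlgHom.id_apply] at h1 h2
    rw [← h1, ← h2, hab]
  have hcomp : (MvPolynomial.aeval z : MvPolynomial κ ℂ →ₐ[ℂ] F) =
      (MvPolynomial.aeval y).comp φ := by
    ext k
    simp only [AlgHom.comp_apply, φ, MvPolynomial.aeval_X]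
    by_cases hk : y k = z k
    · simp only [g, hk, if_true, MvPolynomial.aeval_X]
    · simp only [g, hk, if_false, map_sub, map_one, MvPolynomial.aeval_X]
      rcases h k with h1 | h1
      · exact absurd h1 hk
      · rw [h1, sub_sub_cancel]
  unfold AlgebraicIndependent at hy ⊢
  rw [hcomp]
  exact hy.comp hinj

/-- The generic point of `X`: the coordinates of `linePower 3` on an irreducible `X ⊆ L^3 ∩ T` in the
field of functions of `X`. `x i` = class of the coordinate `Fin.castAdd 3 i`. -/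
theorem generic_point (X : Set (Fin (3 + 3) → ℂ)) (hX : X ⊆ linePower 3)
    (hp : (⨅ x ∈ X, RingHom.ker
      (MvPolynomial.eval x : MvPolynomial (Fin (3 + 3)) ℂ →+* ℂ)).IsPrime) :
    ∃ (F : Type) (_ : Field F) (_ : CharZero F) (_ : Algebra ℂ F) (x : Fin 3 → F),
      (∀ i, x i ≠ 0 ∧ x i ≠ 1) ∧
      (∀ (u : Fin 3 ⊕ Fin 3 → ℤ) (c : ℂ), mono (co x) u = algebraMap ℂ F c ↔ ∀ P ∈ X,
        mono (co fun i : Fin 3 => P (Fin.castAdd 3 i)) u = c) ∧
      ((1 : WithBot ℕ∞) ≤ ringKrullDim (MvPolynomial (Fin (3 + 3)) ℂ ⧸ (⨅ x ∈ X, RingHom.ker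
        (MvPolynomial.eval x : MvPolynomial (Fin (3 + 3)) ℂ →+* ℂ))) →
          ∃ i, Transcendental ℚ (x i)) ∧
      ((2 : WithBot ℕ∞) ≤ ringKrullDim (MvPolynomial (Fin (3 + 3)) ℂ ⧸ (⨅ x ∈ X, RingHom.ker
        (MvPolynomial.eval x : MvPolynomial (Fin (3 + 3)) ℂ →+* ℂ))) →
          ∃ i j, i ≠ j ∧ AlgebraicIndependent ℚ ![x i, x j]) ∧
      ((3 : WithBot ℕ∞) ≤ ringKrullDim (MvPolynomial (Fin (3 + 3)) ℂ ⧸ (⨅ x ∈ X, RingHom.ker
        (MvPolynomial.eval x : MvPolynomial (Fin (3 + 3)) ℂ →+* ℂ))) → AlgebraicIndependent ℚ x) := by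
  classical
  have hp' : (vanI X).IsPrime := hp
  have h0 : ∀ x ∈ X, ∀ i, x i ≠ 0 := fun x hx i => (hX hx).1 i
  have hgen := gen_ne_zero X h0
  set x : Fin 3 → FF X := fun i => gen X (Fin.castAdd 3 i) with hx
  have hcz : CharZero (FF X) := charZero_of_injective_algebraMap (algebraMap ℂ (FF X)).injective
  have hsum : ∀ i : Fin 3, gen X (Fin.natAdd 3 i) = 1 - x i := by
    intro i
    have h1 : MvPolynomial.X (Fin.castAdd 3 i) + MvPolynomial.X (Fin.natAdd 3 i) - 1 ∈ vanI X := by
      rw [mem_vanI]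
      intro P hP
      simp only [map_sub, map_add, MvPolynomial.eval_X, map_one]
      rw [(hX hP).2 i, sub_self]
    rw [← aeval_gen_eq_zero_iff] at h1
    simp only [map_sub, map_add, MvPolynomial.aeval_X, map_one] at h1
    exact eq_sub_of_add_eq' (sub_eq_zero.1 h1)
  -- independent coordinates
  obtain ⟨I, hI, hind⟩ := exists_indep_coords X
  let π : Fin (3 + 3) → Fin 3 := Fin.addCases (fun i => i) (fun i => i)
  have hπ : ∀ k : Fin (3 + 3), gen X k = x (π k) ∨ gen X k = 1 - x (π k) := by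
    intro k
    refine Fin.addCases (fun i => ?_) (fun i => ?_) k
    · left
      simp only [π, Fin.addCases_left, hx]
    · right
      simp only [π, Fin.addCases_right]
      exact hsum i
  have hindx : AlgebraicIndependent ℂ (fun i : I => x (π i)) :=
    gp_flip (fun i : I => gen X i) _ (fun i => hπ i) hind
  have key : ∀ d : ℕ, (d : WithBot ℕ∞) ≤ ringKrullDim (MvPolynomial (Fin (3 + 3)) ℂ ⧸ vanI X) →
      ∃ σ : Fin d → Fin 3, Function.Injective σ ∧
        AlgebraicIndependent ℚ (fun i => x (σ i)) := by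
    intro d hd
    rw [hI] at hd
    have hd' : d ≤ Fintype.card I := by
      rw [Fintype.card_coe]
      exact_mod_cast hd
    obtain ⟨e⟩ : Nonempty (Fin d ↪ I) := by
      apply Function.Embedding.nonempty_of_card_le
      rwa [Fintype.card_fin]
    have h1 : AlgebraicIndependent ℂ (fun i : Fin d => x (π (e i))) := hindx.comp e e.injective
    refine ⟨fun i => π (e i), fun i j hij => ?_, ?_⟩
    · apply h1.injective
      change x (π (e i)) = x (π (e j))
      exact congrArg x hij
    · exact h1.restrictScalars (algebraMap ℚ ℂ).injective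
  refine ⟨FF X, inferInstance, hcz, inferInstance, x, ?_, ?_, ?_, ?_, ?_⟩
  · intro i
    refine ⟨hgen _, fun h => ?_⟩
    have h1 := hgen (Fin.natAdd 3 i)
    rw [hsum, h, sub_self] at h1
    exact h1 rfl
  · intro u c
    let a : Fin (3 + 3) → ℤ := fun k => u (finSumFinEquiv.symm k)
    have h1 : mono (co x) u = ∏ k, gen X k ^ a k := by
      unfold mono
      rw [← Equiv.prod_comp finSumFinEquiv (fun k => gen X k ^ a k)]
      refine Finset.prod_congr rfl fun t _ => ?_
      simp only [a, Equiv.symm_apply_apply]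
      rcases t with t | t
      · rfl
      · rw [finSumFinEquiv_apply_right, hsum]
        rfl
    have h2 : ∀ P ∈ X, mono (co fun i : Fin 3 => P (Fin.castAdd 3 i)) u = ∏ k, P k ^ a k := by
      intro P hP
      unfold mono
      rw [← Equiv.prod_comp finSumFinEquiv (fun k => P k ^ a k)]
      refine Finset.prod_congr rfl fun t _ => ?_
      simp only [a, Equiv.symm_apply_apply]
      rcases t with t | t
      · rfl
      · rw [finSumFinEquiv_apply_right, eq_sub_of_add_eq' ((hX hP).2 t)]
        rfl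
    rw [h1, gp_iff X h0]
    constructor
    · intro h P hP
      rw [h2 P hP]
      exact h P hP
    · intro h P hP
      rw [← h2 P hP]
      exact h P hP
  · intro h
    obtain ⟨σ, -, hσ⟩ := key 1 (by exact_mod_cast h)
    exact ⟨σ 0, hσ.transcendental 0⟩
  · intro h
    obtain ⟨σ, hσ1, hσ⟩ := key 2 (by exact_mod_cast h)
    refine ⟨σ 0, σ 1, fun h => absurd (hσ1 h) (by decide), ?_⟩
    have : ![x (σ 0), x (σ 1)] = fun i => x (σ i) := by
      funext i
      fin_cases i <;> rfl
    rw [this]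
    exact hσ
  · intro h
    obtain ⟨σ, hσ1, hσ⟩ := key 3 (by exact_mod_cast h)
    have hbij : Function.Bijective σ := Finite.injective_iff_bijective.1 hσ1
    let e := Equiv.ofBijective σ hbij
    have h1 := hσ.comp e.symm e.symm.injective
    have : (fun i => x (σ i)) ∘ e.symm = x := by
      funext i
      change x (e (e.symm i)) = x i
      rw [Equiv.apply_symm_apply]
    rwa [this] at h1

end Pool.Agent.LThree
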