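import Pool.Agent.LThree.FieldThm
import Pool.Agent.LThree.GenPt
import Pool.Agent.MinHt.Cov

set_option autoImplicit false

/-! Zilber's conjecture for the third power of the line. -/

namespace Pool.Agent.LThree

open Module Pool.Agent.CITLines Pool.Agent.CITTrans

/-- The assertion of Zilber's conjecture for the variety `V`: finitely many proper special
subvarieties contain all atypical subvarieties of `V`. -/
def ZilberFor {n : ℕ} (V : Set (Fin n → ℂ)) : Prop :=
  ∃ (k : ℕ) (L : Fin k → Submodule ℤ (Fin n → ℤ)) (ζ : Fin k → Fin n → ℂ),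
    (∀ j, L j ≠ ⊥ ∧
      (∀ a : Fin n → ℤ, ∀ m : ℤ, m ≠ 0 → m • a ∈ L j → a ∈ L j) ∧
      ∃ m : ℕ, 0 < m ∧ ∀ i, ζ j i ^ m = 1) ∧
    ∀ (M : Submodule ℤ (Fin n → ℤ)) (η : Fin n → ℂ) (T : Set (Fin n → ℂ)),
      (∀ a : Fin n → ℤ, ∀ m : ℤ, m ≠ 0 → m • a ∈ M → a ∈ M) →
      (∃ m : ℕ, 0 < m ∧ ∀ i, η i ^ m = 1) →
      T = {y : Fin n → ℂ | (∀ i, y i ≠ 0) ∧
            ∀ a ∈ M, ∏ i, y i ^ a i = ∏ i, η i ^ a i} →
      ∀ X : Set (Fin n → ℂ), X ⊆ V → X ⊆ T →
        (⨅ x ∈ X, RingHom.ker (MvPolynomial.eval x : MvPolynomial (Fin n) ℂ →+* ℂ)).IsPrime →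
        ringKrullDim (MvPolynomial (Fin n) ℂ ⧸
            (⨅ x ∈ V, RingHom.ker (MvPolynomial.eval x : MvPolynomial (Fin n) ℂ →+* ℂ)))
          + ringKrullDim (MvPolynomial (Fin n) ℂ ⧸
            (⨅ x ∈ T, RingHom.ker (MvPolynomial.eval x : MvPolynomial (Fin n) ℂ →+* ℂ)))
          < ringKrullDim (MvPolynomial (Fin n) ℂ ⧸
            (⨅ x ∈ X, RingHom.ker (MvPolynomial.eval x : MvPolynomial (Fin n) ℂ →+* ℂ)))
            + (n : WithBot ℕ∞) →
        ∃ j, X ⊆ {y : Fin n → ℂ | (∀ i, y i ≠ 0) ∧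
            ∀ a ∈ L j, ∏ i, y i ^ a i = ∏ i, ζ j i ^ a i}

/-- The rank of a point whose monomials with exponents in `M` are roots of unity. -/
private theorem cv_rank {n : ℕ} (M : Submodule ℤ (Fin n → ℤ)) {F : Type} [Field F]
    (z : Fin n → F) (hz : ∀ a ∈ M, ∃ m : ℕ, 0 < m ∧ mono z a ^ m = 1) (d : ℕ)
    (hd : n ≤ finrank ℚ (QS M) + d) : RankLe d z := by
  refine ⟨QS M, by rwa [Fintype.card_fin], fun a ha => ?_⟩
  obtain ⟨l, hl, c, hcM, hc⟩ := exists_mult_mem ha
  obtain ⟨m, hm, h1⟩ := hz c hcM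
  have h2 : mono z c = mono z a ^ l := by
    unfold mono
    rw [← Finset.prod_zpow]
    refine Finset.prod_congr rfl fun i _ => ?_
    have : c i = a i * l := by
      have := hc i
      have h3 : (c i : ℚ) = ((a i * l : ℤ) : ℚ) := by rw [this]; push_cast; ring
      exact_mod_cast h3
    rw [this, zpow_mul]
  rw [h2] at h1
  refine ⟨l.natAbs * m, Nat.mul_pos (Int.natAbs_pos.2 hl) hm, ?_⟩
  rcases Int.natAbs_eq l with h | h
  · rw [h, zpow_natCast] at h1
    rw [pow_mul]
    simpa using h1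
  · rw [h, zpow_neg, zpow_natCast, inv_pow, inv_eq_one] at h1
    rw [pow_mul]
    simpa using h1

/-- Extension of exponents by zero. -/
private theorem cv_mono {n : ℕ} {ι : Type} [Fintype ι] {F : Type} [Field F] (z : Fin n → F)
    (e : ι → Fin n) (he : Function.Injective e) (a : ι → ℤ) :
    ∏ i, z i ^ Function.extend e a 0 i = mono (z ∘ e) a := by
  unfold mono
  symm
  refine Fintype.prod_of_injective e he _ _ ?_ ?_
  · intro i hi
    rw [Function.extend_apply' _ _ _ (by simpa using hi)]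
    simp
  · intro i
    rw [he.extend_apply]
    rfl

/-- Monomials in the torsion point are roots of unity. -/
private theorem cv_tors {n : ℕ} {η : Fin n → ℂ} {m : ℕ} (hη : ∀ i, η i ^ m = 1)
    (a : Fin n → ℤ) : (∏ i, η i ^ a i) ^ m = 1 := by
  rw [← Finset.prod_pow]
  refine Finset.prod_eq_one fun i _ => ?_
  rw [← zpow_natCast, ← zpow_mul, mul_comm, zpow_mul, zpow_natCast, hη, one_zpow]

/-- The coordinates of the point `P` of the power of the line. -/
private theorem cv_co {r : ℕ} {P : Fin (r + r) → ℂ} (hP : P ∈ linePower r) {k : ℕ}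
    (f : Fin k → Fin r) :
    co (fun i => P (Fin.castAdd r (f i))) =
      P ∘ Sum.elim (fun i => Fin.castAdd r (f i)) fun i => Fin.natAdd r (f i) := by
  funext i
  rcases i with i | i
  · rfl
  · change 1 - P (Fin.castAdd r (f i)) = P (Fin.natAdd r (f i))
    rw [← hP.2 (f i)]
    ring

private theorem cv_inj {r k : ℕ} (f : Fin k → Fin r) (hf : Function.Injective f) :
    Function.Injective (Sum.elim (fun i => Fin.castAdd r (f i)) fun i => Fin.natAdd r (f i)) := by
  intro a c hac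
  rcases a with a | a <;> rcases c with c | c <;>
    simp only [Sum.elim_inl, Sum.elim_inr, Fin.ext_iff, Fin.val_castAdd, Fin.val_natAdd] at hac
  · rw [hf (Fin.ext hac)]
  · have := (f a).isLt
    omega
  · have := (f c).isLt
    omega
  · rw [hf (Fin.ext (by omega : ((f a : Fin r) : ℕ) = f c))]

/-- All complex points of `L^r`, `r ≥ 3`, in torsion cosets of dimension at most two. Proof: as
`MinHt.covered_of_bog` (`relations'`), but with `field_two` for the coordinates `P 0, P 1, P 2`: the rank of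
`(P_0, P_1, P_2, 1 - P_0, 1 - P_1, 1 - P_2)` is at most two (`rankLe_of_submodule`, `CITTrans.dim_cos`;
`MinHt.RankTwo.of_coset` is the same statement with `RankTwo`). `CITNF.cover_finset`. -/
theorem covered_univ
    (h2 : ∃ E : Finset (Fin 3 ⊕ Fin 3 → ℤ), 0 ∉ E ∧
      ∀ (F : Type) [Field F] [CharZero F] (x : Fin 3 → F), (∀ i, x i ≠ 0 ∧ x i ≠ 1) →
        RankLe 2 (co x) → ∃ u ∈ E, mono (co x) u = 1) (r : ℕ) (hr : 3 ≤ r) :
    MinHt.Covered r Set.univ := by
  classical
  obtain ⟨E, hE0, hE⟩ := h2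
  set e : Fin 3 ⊕ Fin 3 → Fin (r + r) := Sum.elim (fun i => Fin.castAdd r (Fin.castLE hr i))
    fun i => Fin.natAdd r (Fin.castLE hr i) with he
  have hei : Function.Injective e := cv_inj _ (Fin.castLE_injective hr)
  obtain ⟨k, L, ζ, hfam, hcov⟩ := CITNF.cover_finset
    (E.image fun a : Fin 3 ⊕ Fin 3 → ℤ => Function.extend e a 0) (by
      intro h0
      obtain ⟨a, haE, ha⟩ := Finset.mem_image.mp h0
      apply hE0
      have : a = 0 := by
        funext l
        have h3 := congrFun ha (e l)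
        simp only [hei.extend_apply] at h3
        exact h3
      rwa [← this])
  refine ⟨k, L, ζ, hfam, ?_⟩
  intro T hT hdim P hP _
  have hco := cv_co hP.1 (Fin.castLE hr)
  have hrank : RankLe 2 (co fun i => P (Fin.castAdd r (Fin.castLE hr i))) := by
    rw [hco]
    refine RankLe.comp (fun i => hP.1.1 i) ?_ _ hei
    obtain ⟨M, η, hsat, hη, rfl⟩ := hT
    obtain ⟨d, hd, hdd⟩ := dim_cos M η hη
    change ringKrullDim (MvPolynomial (Fin (r + r)) ℂ ⧸ vanI (cos M η)) ≤ 2 at hdim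
    rw [hdd] at hdim
    have hd2 : d ≤ 2 := by exact_mod_cast hdim
    refine cv_rank M P (fun a ha => ?_) 2 (by omega)
    obtain ⟨m, hm, hηm⟩ := hη
    refine ⟨m, hm, ?_⟩
    unfold mono
    rw [hP.2.2 a ha, cv_tors hηm]
  obtain ⟨u, hu, hu1⟩ := hE ℂ (fun i => P (Fin.castAdd r (Fin.castLE hr i)))
    (fun i => ⟨hP.1.1 _, by
      intro h1
      have h3 := hP.1.2 (Fin.castLE hr i)
      rw [h1] at h3
      exact hP.1.1 (Fin.natAdd r (Fin.castLE hr i)) (by linear_combination h3)⟩) hrank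
  obtain ⟨q, hq⟩ := hcov P hP.1.1 ⟨_, Finset.mem_image_of_mem _ hu, by
    rw [cv_mono P e hei u, he, ← hco, hu1]⟩
  exact ⟨q, hP.1.1, hq⟩

/-- An irreducible set contained in the union of finitely many cosets lies in one of them. -/
private theorem cv_irr {n : ℕ} (X : Set (Fin n → ℂ)) (hp : (vanI X).IsPrime)
    (h0 : ∀ P ∈ X, ∀ i, P i ≠ 0) {k : ℕ} (L : Fin k → Submodule ℤ (Fin n → ℤ))
    (ζ : Fin k → Fin n → ℂ)
    (h : ∀ P ∈ X, ∃ j, ∀ b ∈ L j, ∏ i, P i ^ b i = ∏ i, ζ j i ^ b i) :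
    ∃ j, ∀ P ∈ X, ∀ b ∈ L j, ∏ i, P i ^ b i = ∏ i, ζ j i ^ b i := by
  by_contra hcon
  push Not at hcon
  choose Q hQ b hb hne using hcon
  have h1 : ∏ j, binom ℂ (b j) (mon (ζ j) (b j)) ∈ vanI X := by
    rw [mem_vanI]
    intro P hP
    obtain ⟨j, hj⟩ := h P hP
    rw [map_prod]
    exact Finset.prod_eq_zero (Finset.mem_univ j) ((eval_binom (h0 P hP) _ _).mpr (hj _ (hb j)))
  obtain ⟨j, _, hj⟩ := hp.prod_mem_iff.mp h1
  exact hne j ((binom_mem_vanI h0 (b j) _).mp hj (Q j) (hQ j))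

/-- **Zilber's conjecture for the third power of the line.**

Proof. `dim V = 3`, `dim T = t`, `M` of rank `6 - t` (`CITTrans.dim_cos`), `dim X = d`, so `t ≤ d + 2`;
`X ⊆ T` gives for the generic point `x` of `X` and `a ∈ M`: `mono (co x) a` is the root of unity
`∏ η_i ^ a_i`, so some power is `1`, `RankLe t (co x)` by `rankLe_of_submodule`. `d = 0`: `field_two`;
`d = 1`: `field_three`; `d = 2`: `field_four`; `d = 3`: `field_five`. So `mono (co x) u = 1` for some `u` in
a finite set `E`. Write `u = g • u'`, `u'` primitive: `mono (co x) u'` is a `g`-th root of unity in `F`, so it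
is `algebraMap ℂ F ω` with `ω ^ g = 1` (`X ^ g - 1` splits over `ℂ`), and `mono (P) u' = ω` on `X`
(`generic_point`). The special subvarieties: all `{y | y^(u') = ω}` for `u ∈ E`, `ω ^ g = 1`, with
`L = ℤ u'` (saturated) and a torsion point `ζ` with `ζ ^ u' = ω` (compare `CITNF.cover`, whose proof
does this). -/
theorem zilber_line_three (h1 : ShortOne) (h3 : ShortThree) (hT : TransThree) (hT2 : TransTwo) :
    ZilberFor (linePower 3) := by
  classical
  obtain ⟨E2, hE20, hE2⟩ := field_two h1 h3 hT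
  obtain ⟨E3, hE30, hE3⟩ := field_three hT
  obtain ⟨E4, hE40, hE4⟩ := field_four hT2
  set e : Fin 3 ⊕ Fin 3 → Fin (3 + 3) := Sum.elim (fun i => Fin.castAdd 3 i)
    fun i => Fin.natAdd 3 i with he
  have hei : Function.Injective e := cv_inj _ Function.injective_id
  have hes : Function.Surjective e :=
    ((Fintype.bijective_iff_injective_and_card e).mpr ⟨hei, by simp⟩).2
  obtain ⟨k, L, ζ, hfam, hcov⟩ := CITNF.cover_finset
    ((E2 ∪ E3 ∪ E4).image fun a : Fin 3 ⊕ Fin 3 → ℤ => Function.extend e a 0) (by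
      intro h0
      obtain ⟨a, haE, ha⟩ := Finset.mem_image.mp h0
      have : a = 0 := by
        funext l
        have h3 := congrFun ha (e l)
        simp only [hei.extend_apply] at h3
        exact h3
      subst this
      rw [Finset.mem_union, Finset.mem_union] at haE
      rcases haE with (h | h) | h
      · exact hE20 h
      · exact hE30 h
      · exact hE40 h)
  refine ⟨k, L, ζ, hfam, ?_⟩
  intro M η T hsat hη hTd X hXV hXT hX hdim
  have hco : ∀ P ∈ X, co (fun i : Fin 3 => P (Fin.castAdd 3 i)) = P ∘ e := fun P hP =>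
    cv_co (hXV hP) id
  have h0 : ∀ P ∈ X, ∀ i, P i ≠ 0 := fun P hP => (hXV hP).1
  obtain ⟨F, _, _, _, x, hx, hmono, hd1, hd2, hd3⟩ := generic_point X hXV hX
  -- a relation in the finite set suffices
  have key : (∃ u ∈ E2 ∪ E3 ∪ E4, mono (co x) u = 1) →
      ∃ j, X ⊆ {y : Fin (3 + 3) → ℂ | (∀ i, y i ≠ 0) ∧
        ∀ a ∈ L j, ∏ i, y i ^ a i = ∏ i, ζ j i ^ a i} := by
    rintro ⟨u, hu, hu1⟩
    have h4 := (hmono u 1).mp (by rw [hu1, map_one])
    obtain ⟨j, hj⟩ := cv_irr X hX h0 L ζ (fun P hP => hcov P (h0 P hP)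
      ⟨_, Finset.mem_image_of_mem _ hu, by
        rw [cv_mono P e hei u, ← hco P hP, h4 P hP]⟩)
    exact ⟨j, fun P hP => ⟨h0 P hP, hj P hP⟩⟩
  -- dimensions
  obtain ⟨t, ht, htd⟩ := dim_cos M η hη
  have hV : ringKrullDim (MvPolynomial (Fin (3 + 3)) ℂ ⧸ vanI (linePower 3)) = (3 : ℕ) := by
    have hprime : (vanI (linePower 3)).IsPrime := (isVariety_linePower 3).2
    rw [ringKrullDim_eq_dm, vanI_linePower, dm_linePower]
  have hXd : ringKrullDim (MvPolynomial (Fin (3 + 3)) ℂ ⧸ vanI X) = (dm (vanI X) : ℕ) :=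
    ringKrullDim_eq_dm _
  subst hTd
  change ringKrullDim (MvPolynomial (Fin (3 + 3)) ℂ ⧸ vanI (linePower 3)) +
    ringKrullDim (MvPolynomial (Fin (3 + 3)) ℂ ⧸ vanI (cos M η)) <
    ringKrullDim (MvPolynomial (Fin (3 + 3)) ℂ ⧸ vanI X) + _ at hdim
  change (1 : WithBot ℕ∞) ≤ ringKrullDim (MvPolynomial (Fin (3 + 3)) ℂ ⧸ vanI X) → _ at hd1
  change (2 : WithBot ℕ∞) ≤ ringKrullDim (MvPolynomial (Fin (3 + 3)) ℂ ⧸ vanI X) → _ at hd2
  change (3 : WithBot ℕ∞) ≤ ringKrullDim (MvPolynomial (Fin (3 + 3)) ℂ ⧸ vanI X) → _ at hd3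
  have hle : ringKrullDim (MvPolynomial (Fin (3 + 3)) ℂ ⧸ vanI X) ≤
      ringKrullDim (MvPolynomial (Fin (3 + 3)) ℂ ⧸ vanI (linePower 3)) :=
    ringKrullDim_le_of_surjective (Ideal.Quotient.factor (vanI_anti hXV))
      (Ideal.Quotient.factor_surjective (vanI_anti hXV))
  rw [hV, hXd] at hle
  rw [hV, htd, hXd] at hdim
  rw [hXd] at hd1 hd2 hd3
  set d := dm (vanI X) with hd
  have hd3' : d ≤ 3 := by exact_mod_cast hle
  have htd' : 3 + t < d + (3 + 3) := by exact_mod_cast hdim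
  -- the rank
  have hrank : ∀ s : ℕ, t ≤ s → RankLe s (co x) := by
    intro s hs
    have hz : RankLe s (Function.extend e (co x) 0 : Fin (3 + 3) → F) := by
      refine cv_rank M _ (fun a ha => ?_) s (by omega)
      obtain ⟨m, hm, hηm⟩ := hη
      have h5 : mono (Function.extend e (co x) 0 : Fin (3 + 3) → F) a =
          mono (co x) fun i => a (e i) := by
        unfold mono
        symm
        refine Fintype.prod_bijective e ⟨hei, hes⟩ _ _ fun i => ?_
        rw [hei.extend_apply]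
      have h6 : mono (co x) (fun i => a (e i)) = algebraMap ℂ F (∏ i, η i ^ a i) := by
        rw [hmono]
        intro P hP
        rw [hco P hP, ← (hXT hP).2 a ha]
        unfold mono
        exact Fintype.prod_bijective e ⟨hei, hes⟩ _ _ fun i => rfl
      refine ⟨m, hm, ?_⟩
      rw [h5, h6, ← map_pow, cv_tors hηm, map_one]
    have h7 := RankLe.comp (fun i => by
      obtain ⟨l, rfl⟩ := hes i
      rw [hei.extend_apply]
      rcases l with l | l
      · exact (hx l).1
      · exact sub_ne_zero.mpr (Ne.symm (hx l).2)) hz e hei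
    have h8 : (Function.extend e (co x) 0 : Fin (3 + 3) → F) ∘ e = co x := by
      funext l
      exact hei.extend_apply _ _ _
    rwa [h8] at h7
  rcases (by omega : d = 0 ∨ d = 1 ∨ d = 2 ∨ d = 3) with h | h | h | h
  · obtain ⟨u, hu, hu1⟩ := hE2 F x hx (hrank 2 (by omega))
    exact key ⟨u, by simp [hu], hu1⟩
  · obtain ⟨u, hu, hu1⟩ := hE3 F x hx (hd1 (by rw [h]; rfl)) (hrank 3 (by omega))
    exact key ⟨u, by simp [hu], hu1⟩
  · obtain ⟨u, hu, hu1⟩ := hE4 F x hx (hd2 (by rw [h]; rfl)) (hrank 4 (by omega))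
    exact key ⟨u, by simp [hu], hu1⟩
  · exact absurd (hrank 5 (by omega)) (field_five F x (hd3 (by rw [h]; rfl)))

end Pool.Agent.LThree
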