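import Mathlib

set_option autoImplicit false

/-! Definitions for the proof of Zilber's conjecture for the third power of the line `x + y = 1`
(MP_b7926e_nt). -/

namespace Pool.Agent.LThree

open NumberField Height Real Module

/-- The monomial `∏ z_i ^ u_i`. -/
def mono {K : Type} [Field K] {ι : Type} [Fintype ι] (z : ι → K) (u : ι → ℤ) : K :=
  ∏ i, z i ^ u i

/-- The coordinates `x_i` and `1 - x_i`. -/
def co {K : Type} [Field K] {ι : Type} (x : ι → K) : ι ⊕ ι → K :=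
  Sum.elim x fun i => 1 - x i

/-- The numbers `z_i` generate a group of rank at most `k` (modulo torsion). -/
def RankLe {K : Type} [Field K] {ι : Type} [Fintype ι] (k : ℕ) (z : ι → K) : Prop :=
  ∃ U : Submodule ℚ (ι → ℚ), Fintype.card ι ≤ finrank ℚ U + k ∧
    ∀ a : ι → ℤ, (fun i => (a i : ℚ)) ∈ U → ∃ m : ℕ, 0 < m ∧ mono z a ^ m = 1

/-- The maximum norm of an integer vector. -/
def nrm {ι : Type} [Fintype ι] (u : ι → ℤ) : ℕ := Finset.univ.sup fun i => (u i).natAbs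

/-- **The black box**: the number of elements of small height in a group of rank at most `k` of a
number field, roots of unity included (Lehmer's problem up to epsilon in dimension `k`). -/
def Count (k : ℕ) : Prop :=
  ∀ ε : ℝ, 0 < ε → ∃ C : ℝ, 0 < C ∧ ∀ (K : Type) [Field K] [NumberField K] (ι : Type) [Fintype ι]
    (z : ι → K), (∀ i, z i ≠ 0) → RankLe k z → ∀ X : ℝ, 1 ≤ X →
    {g : K | (∃ u : ι → ℤ, g = mono z u) ∧ logHeight₁ g ≤ X * finrank ℚ K}.Finite ∧
    (Nat.card {g : K | (∃ u : ι → ℤ, g = mono z u) ∧ logHeight₁ g ≤ X * finrank ℚ K} : ℝ) ≤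
      C * X ^ k * (finrank ℚ K : ℝ) ^ (1 + ε)

/-- The polynomial `∏ X_i^(u_i)⁺ (1-X_i)^(u'_i)⁺ - ∏ X_i^(u_i)⁻ (1-X_i)^(u'_i)⁻` of a relation. -/
noncomputable def relPoly {ι : Type} [Fintype ι] (u : ι ⊕ ι → ℤ) : MvPolynomial ι ℚ :=
  (∏ i, MvPolynomial.X i ^ (u (Sum.inl i)).toNat * (1 - MvPolynomial.X i) ^ (u (Sum.inr i)).toNat) -
  ∏ i, MvPolynomial.X i ^ (-u (Sum.inl i)).toNat * (1 - MvPolynomial.X i) ^ (-u (Sum.inr i)).toNat

/-- `y` is in the orbit of `x` under the six symmetries (as `CITNF.Eqv`). -/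
def Eqv {K : Type} [Field K] (x y : K) : Prop :=
  y = x ∨ y = 1 - x ∨ y = x⁻¹ ∨ y = (1 - x)⁻¹ ∨ y = x / (x - 1) ∨ y = (x - 1) / x

end Pool.Agent.LThree
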