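import Mathlib

set_option autoImplicit false

/-! B5. Sums of exponentials and their Taylor polynomials. -/

namespace Pool.Agent.LThree

open Real

/-- A sum of exponentials `∑ a_k exp (l_k t)` with `|l_k| ≤ Λ`, `∑ |a_k| ≤ B`. -/
def ExpSum (Λ B : ℝ) (f : ℝ → ℝ) : Prop :=
  ∃ (n : ℕ) (a l : Fin n → ℝ), (∀ k, |l k| ≤ Λ) ∧ ∑ k, |a k| ≤ B ∧
    ∀ t, f t = ∑ k, a k * exp (l k * t)

theorem ExpSum.mono {Λ B Λ' B' : ℝ} {f : ℝ → ℝ} (h : ExpSum Λ B f) (h1 : Λ ≤ Λ') (h2 : B ≤ B') :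
    ExpSum Λ' B' f := by
  obtain ⟨n, a, l, g1, g2, g3⟩ := h
  exact ⟨n, a, l, fun k => (g1 k).trans h1, g2.trans h2, g3⟩

theorem ExpSum.const (Λ c : ℝ) (hΛ : 0 ≤ Λ) : ExpSum Λ |c| (fun _ => c) :=
  ⟨1, fun _ => c, fun _ => 0, fun _ => by simpa using hΛ, by simp, fun t => by simp⟩

theorem ExpSum.exp (l : ℝ) : ExpSum |l| 1 (fun t => Real.exp (l * t)) :=
  ⟨1, fun _ => 1, fun _ => l, fun _ => le_rfl, by simp, fun t => by simp⟩

/-- concatenate (`Fin.append`, `Fin.sum_univ_add`). -/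
theorem ExpSum.add {Λ B B' : ℝ} {f g : ℝ → ℝ} (hf : ExpSum Λ B f) (hg : ExpSum Λ B' g) :
    ExpSum Λ (B + B') (fun t => f t + g t) := by
  obtain ⟨n, a, l, f1, f2, f3⟩ := hf
  obtain ⟨m, b, k, g1, g2, g3⟩ := hg
  refine ⟨n + m, Fin.append a b, Fin.append l k, ?_, ?_, ?_⟩
  · intro i
    refine Fin.addCases (fun i => ?_) (fun i => ?_) i
    · rw [Fin.append_left]
      exact f1 i
    · rw [Fin.append_right]
      exact g1 i
  · rw [Fin.sum_univ_add]
    simp only [Fin.append_left, Fin.append_right]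
    exact add_le_add f2 g2
  · intro t
    rw [Fin.sum_univ_add]
    simp only [Fin.append_left, Fin.append_right]
    rw [f3, g3]

theorem ExpSum.neg {Λ B : ℝ} {f : ℝ → ℝ} (hf : ExpSum Λ B f) : ExpSum Λ B (fun t => -f t) := by
  obtain ⟨n, a, l, f1, f2, f3⟩ := hf
  refine ⟨n, fun k => -a k, l, f1, by simpa using f2, fun t => ?_⟩
  show -f t = ∑ k, -a k * Real.exp (l k * t)
  rw [f3, ← Finset.sum_neg_distrib]
  exact Finset.sum_congr rfl fun k _ => by ring

/-- index by pairs (`finProdFinEquiv`), `Finset.sum_mul_sum`. -/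
theorem ExpSum.mul {Λ Λ' B B' : ℝ} {f g : ℝ → ℝ} (hf : ExpSum Λ B f) (hg : ExpSum Λ' B' g) :
    ExpSum (Λ + Λ') (B * B') (fun t => f t * g t) := by
  obtain ⟨n, a, l, f1, f2, f3⟩ := hf
  obtain ⟨m, b, k, g1, g2, g3⟩ := hg
  refine ⟨n * m, fun i => a (finProdFinEquiv.symm i).1 * b (finProdFinEquiv.symm i).2,
    fun i => l (finProdFinEquiv.symm i).1 + k (finProdFinEquiv.symm i).2, ?_, ?_, ?_⟩
  · intro i
    exact (abs_add_le _ _).trans (add_le_add (f1 _) (g1 _))
  · rw [Equiv.sum_comp finProdFinEquiv.symm (fun p : Fin n × Fin m => |a p.1 * b p.2|),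
      Fintype.sum_prod_type]
    simp only [abs_mul]
    rw [← Finset.sum_mul_sum]
    exact mul_le_mul f2 g2 (Finset.sum_nonneg fun _ _ => abs_nonneg _)
      ((Finset.sum_nonneg fun _ _ => abs_nonneg _).trans f2)
  · intro t
    show f t * g t = _
    rw [Equiv.sum_comp finProdFinEquiv.symm (fun p : Fin n × Fin m =>
      a p.1 * b p.2 * Real.exp ((l p.1 + k p.2) * t)), Fintype.sum_prod_type, f3, g3,
      Finset.sum_mul_sum]
    refine Finset.sum_congr rfl fun i _ => Finset.sum_congr rfl fun j _ => ?_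
    rw [add_mul, Real.exp_add]
    ring

private theorem exp_rem (s : ℝ) (M : ℕ) :
    |Real.exp s - ∑ m ∈ Finset.range M, s ^ m / m.factorial| ≤
      |s| ^ M / M.factorial * Real.exp |s| := by
  have h1 : HasSum (fun n : ℕ => s ^ n / n.factorial) (Real.exp s) := by
    rw [Real.exp_eq_exp_ℝ]
    exact NormedSpace.expSeries_div_hasSum_exp s
  have h2 : HasSum (fun n : ℕ => |s| ^ n / n.factorial) (Real.exp |s|) := by
    rw [Real.exp_eq_exp_ℝ]
    exact NormedSpace.expSeries_div_hasSum_exp |s|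
  have h3 := (hasSum_nat_add_iff' M).2 h1
  have h4 := h2.mul_left (|s| ^ M / M.factorial)
  have h5 := h3.norm_le_of_bounded h4 (fun n => ?_)
  · rwa [Real.norm_eq_abs] at h5
  · rw [Real.norm_eq_abs, abs_div, abs_pow, Nat.abs_cast, pow_add]
    have h6 : (n.factorial : ℝ) * M.factorial ≤ (n + M).factorial := by
      exact_mod_cast Nat.le_of_dvd (Nat.factorial_pos _) (Nat.factorial_mul_factorial_dvd_factorial_add n M)
    have h7 : (0 : ℝ) < (n.factorial : ℝ) * M.factorial := by positivity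
    calc |s| ^ n * |s| ^ M / ((n + M).factorial : ℝ) ≤
        |s| ^ n * |s| ^ M / ((n.factorial : ℝ) * M.factorial) := by gcongr
      _ = |s| ^ M / M.factorial * (|s| ^ n / n.factorial) := by
          field_simp

/-- **Taylor polynomial.** `τ m = ∑ a_k l_k ^ m / m!`; `|τ m| ≤ B Λ^m / m! ≤ B exp Λ`; the remainder
of `exp s` after `M` terms is at most `|s|^M / M! * exp |s|` (`Real.exp_bound`-like; prove it from
`exp |s| = ∑ |s|^m/m!` and `m! M! ≤ (m+M)!`, or by induction on `M` by integration, or use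
`NormedSpace.expSeries`, `Real.exp_abs_le`...). -/
theorem ExpSum.taylor {Λ B : ℝ} (hΛ : 0 ≤ Λ) (hB : 0 ≤ B) {f : ℝ → ℝ} (hf : ExpSum Λ B f) (M : ℕ) :
    ∃ τ : ℕ → ℝ, (∀ m, |τ m| ≤ B * Real.exp Λ) ∧
      ∀ t, |f t - ∑ m ∈ Finset.range M, τ m * t ^ m| ≤
        B * ((Λ * |t|) ^ M / M.factorial * Real.exp (Λ * |t|)) := by
  obtain ⟨n, a, l, f1, f2, f3⟩ := hf
  refine ⟨fun m => ∑ k, a k * (l k ^ m / m.factorial), fun m => ?_, fun t => ?_⟩
  · calc |∑ k, a k * (l k ^ m / m.factorial)| ≤ ∑ k, |a k * (l k ^ m / m.factorial)| :=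
          Finset.abs_sum_le_sum_abs _ _
      _ ≤ ∑ k, |a k| * Real.exp Λ := by
          refine Finset.sum_le_sum fun k _ => ?_
          rw [abs_mul, abs_div, abs_pow, Nat.abs_cast]
          refine mul_le_mul_of_nonneg_left ?_ (abs_nonneg _)
          refine le_trans ?_ (Real.pow_div_factorial_le_exp Λ hΛ m)
          gcongr
          exact f1 k
      _ = (∑ k, |a k|) * Real.exp Λ := by rw [Finset.sum_mul]
      _ ≤ B * Real.exp Λ := mul_le_mul_of_nonneg_right f2 (Real.exp_pos _).le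
  · have e1 : f t - ∑ m ∈ Finset.range M, (∑ k, a k * (l k ^ m / m.factorial)) * t ^ m =
        ∑ k, a k * (Real.exp (l k * t) - ∑ m ∈ Finset.range M, (l k * t) ^ m / m.factorial) := by
      rw [f3]
      simp only [mul_sub, Finset.sum_sub_distrib, Finset.mul_sum, Finset.sum_mul]
      congr 1
      rw [Finset.sum_comm]
      refine Finset.sum_congr rfl fun k _ => Finset.sum_congr rfl fun m _ => ?_
      rw [mul_pow]
      ring
    rw [e1]
    calc |∑ k, a k * (Real.exp (l k * t) - ∑ m ∈ Finset.range M, (l k * t) ^ m / m.factorial)|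
        ≤ ∑ k, |a k * (Real.exp (l k * t) -
          ∑ m ∈ Finset.range M, (l k * t) ^ m / m.factorial)| := Finset.abs_sum_le_sum_abs _ _
      _ ≤ ∑ k, |a k| * ((Λ * |t|) ^ M / M.factorial * Real.exp (Λ * |t|)) := by
          refine Finset.sum_le_sum fun k _ => ?_
          rw [abs_mul]
          refine mul_le_mul_of_nonneg_left ((exp_rem _ _).trans ?_) (abs_nonneg _)
          have h1 : |l k * t| ≤ Λ * |t| := by
            rw [abs_mul]
            exact mul_le_mul_of_nonneg_right (f1 k) (abs_nonneg _)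
          gcongr
      _ = (∑ k, |a k|) * ((Λ * |t|) ^ M / M.factorial * Real.exp (Λ * |t|)) := by
          rw [Finset.sum_mul]
      _ ≤ B * ((Λ * |t|) ^ M / M.factorial * Real.exp (Λ * |t|)) :=
          mul_le_mul_of_nonneg_right f2 (by positivity)

end Pool.Agent.LThree
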