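import Pool.Agent.LThree.Defs

set_option autoImplicit false

/-! The statements which are proved elsewhere, in the form in which the assembly uses them. -/

namespace Pool.Agent.LThree

open NumberField Height Real Module

/-- One short relation for a pair (follows from `Count 2`; `RelC.Rel`). -/
def ShortOne : Prop :=
  ∀ ε : ℝ, 0 < ε → ∀ H : ℝ, ∃ C : ℝ, ∀ (K : Type) [Field K] [NumberField K] (x : Fin 2 → K),
    (∀ i, x i ≠ 0 ∧ x i ≠ 1) → RankLe 2 (co x) → (∀ i, logHeight₁ (x i) ≤ H * finrank ℚ K) →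
    ∃ u : Fin 2 ⊕ Fin 2 → ℤ, u ≠ 0 ∧ mono (co x) u = 1 ∧
      (nrm u : ℝ) ≤ C * (finrank ℚ K : ℝ) ^ ((1 / 2 : ℝ) + ε)

/-- Three short relations for a triple (follows from `Count 2`; `RelC.Rel`). -/
def ShortThree : Prop :=
  ∀ ε : ℝ, 0 < ε → ∀ H : ℝ, ∃ C : ℝ, ∀ (K : Type) [Field K] [NumberField K] (x : Fin 3 → K),
    (∀ i, x i ≠ 0 ∧ x i ≠ 1) → RankLe 2 (co x) → (∀ i, logHeight₁ (x i) ≤ H * finrank ℚ K) →
    ∃ u : Fin 3 → Fin 3 ⊕ Fin 3 → ℤ, LinearIndependent ℤ u ∧ (∀ j, mono (co x) (u j) = 1) ∧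
      ((∏ j, nrm (u j) : ℕ) : ℝ) ≤ C * (finrank ℚ K : ℝ) ^ ((3 / 4 : ℝ) + ε)

/-- Transcendental points of `L^3` with three relations (helper95, folder `LThreeC`). -/
def TransThree : Prop :=
  ∃ B : ℕ, ∀ (F : Type) [Field F] [CharZero F] (x : Fin 3 → F), (∀ i, x i ≠ 0 ∧ x i ≠ 1) →
    (∃ i, Transcendental ℚ (x i)) →
    (∃ u : Fin 3 → Fin 3 ⊕ Fin 3 → ℤ, LinearIndependent ℤ u ∧ ∀ j, mono (co x) (u j) = 1) →
    ∃ m : Fin 3 ⊕ Fin 3 → ℤ, m ≠ 0 ∧ nrm m ≤ B ∧ mono (co x) m = 1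

/-- Generic points of surfaces in `L^3` (helper95, folder `LThreeC`). -/
def TransTwo : Prop :=
  ∃ B : ℕ, ∀ (F : Type) [Field F] [CharZero F] (x : Fin 3 → F), (∀ i, x i ≠ 0 ∧ x i ≠ 1) →
    (∃ i j, i ≠ j ∧ AlgebraicIndependent ℚ ![x i, x j]) →
    (∃ u : Fin 2 → Fin 3 ⊕ Fin 3 → ℤ, LinearIndependent ℤ u ∧ ∀ j, mono (co x) (u j) = 1) →
    ∃ m : Fin 3 ⊕ Fin 3 → ℤ, m ≠ 0 ∧ nrm m ≤ B ∧ mono (co x) m = 1

end Pool.Agent.LThree
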