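import Pool.Agent.LThree.Pw
import Pool.Agent.LThree.Pigeon

set_option autoImplicit false

/-! B7a. Integer polynomials in two variables which are tiny near a segment. -/

namespace Pool.Agent.LThree

open Real

/-- The coordinates of `x ^ i * y ^ j` in the basis `1, x, y, x y`, along the line `t • u`. -/
noncomputable def gcoef (u : Fin 4 → ℝ) (t : ℝ) (i j : ℕ) (a b : Fin 2) : ℝ :=
  pwc (1 + exp (2 * (t * u 0)) - exp (2 * (t * u 1))) (exp (2 * (t * u 0))) i a *
    pwc (1 + exp (2 * (t * u 2)) - exp (2 * (t * u 3))) (exp (2 * (t * u 2))) j b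

private lemma sc_sixteen (N : ℕ) : (16 : ℝ) ^ N ≤ exp (3 * N) := by
  have h1 : (16 : ℝ) ≤ exp 3 := by
    have h2 : exp (3 : ℝ) = exp 1 ^ 3 := by
      rw [← Real.exp_nat_mul]
      norm_num
    rw [h2]
    have h3 := Real.exp_one_gt_d9
    have h4 : (2.7 : ℝ) ^ 3 ≤ exp 1 ^ 3 := pow_le_pow_left₀ (by norm_num) (by linarith) 3
    linarith [show (16 : ℝ) ≤ 2.7 ^ 3 by norm_num]
  have h5 : exp (3 * (N : ℝ)) = exp 3 ^ N := by
    rw [← Real.exp_nat_mul]
    ring_nf
  rw [h5]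
  exact pow_le_pow_left₀ (by norm_num) h1 N

private lemma sc_sq (N : ℕ) : ((N : ℝ) + 1) ^ 2 ≤ exp (2 * N) := by
  have h1 : (N : ℝ) + 1 ≤ exp N := Real.add_one_le_exp _
  have h2 : exp (2 * (N : ℝ)) = exp N ^ 2 := by
    rw [← Real.exp_nat_mul]
    norm_num
  rw [h2]
  exact pow_le_pow_left₀ (by positivity) h1 2

private lemma sc_fact (x : ℝ) (hx : 0 ≤ x) (M : ℕ) (h : x * exp 2 ≤ M) :
    x ^ M / M.factorial ≤ exp (-M) := by
  have h1 : x ≤ exp (-2) * M := by
    have h2 : x = exp (-2) * (x * exp 2) := by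
      rw [mul_comm x, ← mul_assoc, ← Real.exp_add]
      norm_num
    rw [h2]
    exact mul_le_mul_of_nonneg_left h (Real.exp_pos _).le
  have h3 : x ^ M ≤ exp (-2) ^ M * (M : ℝ) ^ M := by
    rw [← mul_pow]
    exact pow_le_pow_left₀ hx h1 M
  have h4 : (M : ℝ) ^ M / M.factorial ≤ exp M :=
    Real.pow_div_factorial_le_exp (M : ℝ) (Nat.cast_nonneg M) M
  calc x ^ M / M.factorial ≤ exp (-2) ^ M * (M : ℝ) ^ M / M.factorial := by gcongr
    _ = exp (-2) ^ M * ((M : ℝ) ^ M / M.factorial) := by ring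
    _ ≤ exp (-2) ^ M * exp M := mul_le_mul_of_nonneg_left h4 (by positivity)
    _ = exp (-M) := by
        rw [← Real.exp_nat_mul, ← Real.exp_add]
        congr 1
        ring

private lemma sc_taylor (U : ℝ) (hU : 1 ≤ U) (N M : ℕ) (u : Fin 4 → ℝ) (hu : ∀ k, |u k| ≤ U)
    (i j : Fin (N + 1)) (a b : Fin 2) : ∃ T : ℕ → ℝ,
      (∀ m, |T m| ≤ 16 ^ N * exp (4 * U * N)) ∧
      ∀ t, |gcoef u t i j a b - ∑ m ∈ Finset.range M, T m * t ^ m| ≤
        16 ^ N * ((4 * U * N * |t|) ^ M / M.factorial * exp (4 * U * N * |t|)) := by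
  have hi : ((i : ℕ) : ℝ) ≤ N := by
    have := i.is_lt
    exact_mod_cast Nat.lt_succ_iff.1 this
  have hj : ((j : ℕ) : ℝ) ≤ N := by
    have := j.is_lt
    exact_mod_cast Nat.lt_succ_iff.1 this
  have h1 := (pwc_expSum (u 0) (u 1) U (hu 0) (hu 1) i a).mul
    (pwc_expSum (u 2) (u 3) U (hu 2) (hu 3) j b)
  have h2 : (4 : ℝ) ^ (i : ℕ) * 4 ^ (j : ℕ) ≤ 16 ^ N := by
    have e : (16 : ℝ) ^ N = 4 ^ N * 4 ^ N := by
      rw [← mul_pow]
      norm_num
    rw [e]
    have := i.is_lt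
    have := j.is_lt
    gcongr <;> first | omega | norm_num
  have h3 : ExpSum (4 * U * N) (16 ^ N) (fun t => gcoef u t i j a b) :=
    h1.mono (by nlinarith) h2
  exact h3.taylor (by positivity) (by positivity) M

/-- the condition of the box principle -/
private lemma sc_card (U C G : ℝ) (hU : 1 ≤ U) (hC : 1 ≤ C) (hG : 1 ≤ G) (C2 N : ℕ)
    (hC2 : 1 ≤ C2) (hN : 1 ≤ N)
    (hNb : 12 * (C2 : ℝ) * (9 + 4 * U + G + C2 + C * C2) ≤ N) :
    (2 * (((N : ℝ) + 1) ^ 2 * (⌊exp (N : ℝ)⌋₊ : ℝ) * (16 ^ N * exp (4 * U * N))) /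
      (exp (-(G + 1) * N) / (((C2 * N : ℕ) : ℝ) * C ^ (C2 * N))) + 2) ^ (12 * (C2 * N)) <
      ((⌊exp (N : ℝ)⌋₊ : ℝ) + 1) ^ ((N + 1) * (N + 1)) := by
  set X : ℝ := (⌊exp (N : ℝ)⌋₊ : ℝ) with hX
  have hNr : (1 : ℝ) ≤ N := by exact_mod_cast hN
  have hC2r : (1 : ℝ) ≤ C2 := by exact_mod_cast hC2
  have hX1 : X ≤ exp N := Nat.floor_le (Real.exp_pos _).le
  have hX2 : exp (N : ℝ) < X + 1 := Nat.lt_floor_add_one _
  have hX0 : 0 ≤ X := Nat.cast_nonneg _
  have hM : ((C2 * N : ℕ) : ℝ) ≤ exp (C2 * N : ℝ) := by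
    push_cast
    have := Real.add_one_le_exp (C2 * N : ℝ)
    linarith
  have hCM : C ^ (C2 * N) ≤ exp (C * (C2 * N : ℝ)) := by
    have h1 : C ≤ exp C := by
      have := Real.add_one_le_exp C
      linarith
    have h2 : exp (C * (C2 * N : ℝ)) = exp C ^ (C2 * N) := by
      rw [← Real.exp_nat_mul]
      push_cast
      ring_nf
    rw [h2]
    exact pow_le_pow_left₀ (by linarith) h1 _
  have hbase : 2 * (((N : ℝ) + 1) ^ 2 * X * (16 ^ N * exp (4 * U * N))) /
      (exp (-(G + 1) * N) / (((C2 * N : ℕ) : ℝ) * C ^ (C2 * N))) + 2 ≤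
      exp ((9 + 4 * U + G + C2 + C * C2) * N) := by
    have e1 : 2 * (((N : ℝ) + 1) ^ 2 * X * (16 ^ N * exp (4 * U * N))) /
      (exp (-(G + 1) * N) / (((C2 * N : ℕ) : ℝ) * C ^ (C2 * N))) =
      2 * (((N : ℝ) + 1) ^ 2 * X * (16 ^ N * exp (4 * U * N))) *
        ((((C2 * N : ℕ) : ℝ) * C ^ (C2 * N)) * exp ((G + 1) * N)) := by
      rw [div_div_eq_mul_div, div_eq_mul_inv, ← Real.exp_neg]
      rw [show -(-(G + 1) * (N : ℝ)) = (G + 1) * N by ring]
      ring
    have e2 : 2 * (((N : ℝ) + 1) ^ 2 * X * (16 ^ N * exp (4 * U * N))) *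
        ((((C2 * N : ℕ) : ℝ) * C ^ (C2 * N)) * exp ((G + 1) * N)) ≤
        2 * (exp (2 * N) * exp N * (exp (3 * N) * exp (4 * U * N))) *
        ((exp (C2 * N : ℝ) * exp (C * (C2 * N : ℝ))) * exp ((G + 1) * N)) := by
      have := sc_sq N
      have := sc_sixteen N
      gcongr
    have e3 : 2 * (exp (2 * (N : ℝ)) * exp N * (exp (3 * N) * exp (4 * U * N))) *
        ((exp (C2 * N : ℝ) * exp (C * (C2 * N : ℝ))) * exp ((G + 1) * N)) =
        2 * exp ((7 + 4 * U + G + C2 + C * C2) * N) := by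
      rw [mul_assoc, ← Real.exp_add, ← Real.exp_add, ← Real.exp_add, ← Real.exp_add,
        ← Real.exp_add, ← Real.exp_add]
      congr 2
      ring
    have e4 : (1 : ℝ) ≤ exp ((7 + 4 * U + G + C2 + C * C2) * N) := Real.one_le_exp (by positivity)
    have e5 : (4 : ℝ) ≤ exp (2 * N) := by
      have h1 : (4 : ℝ) ≤ exp 2 := by
        have h2 : exp (2 : ℝ) = exp 1 ^ 2 := by
          rw [← Real.exp_nat_mul]
          norm_num
        rw [h2]
        have h3 := Real.exp_one_gt_d9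
        nlinarith
      exact h1.trans (Real.exp_le_exp.2 (by linarith))
    calc _ ≤ 2 * exp ((7 + 4 * U + G + C2 + C * C2) * N) + 2 := by
          rw [e1]
          linarith [e2, e3]
      _ ≤ 4 * exp ((7 + 4 * U + G + C2 + C * C2) * N) := by linarith
      _ ≤ exp (2 * N) * exp ((7 + 4 * U + G + C2 + C * C2) * N) :=
          mul_le_mul_of_nonneg_right e5 (by positivity)
      _ = exp ((9 + 4 * U + G + C2 + C * C2) * N) := by
          rw [← Real.exp_add]
          congr 1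
          ring
  have hb0 : 0 ≤ 2 * (((N : ℝ) + 1) ^ 2 * X * (16 ^ N * exp (4 * U * N))) /
      (exp (-(G + 1) * N) / (((C2 * N : ℕ) : ℝ) * C ^ (C2 * N))) + 2 := by positivity
  calc _ ≤ exp ((9 + 4 * U + G + C2 + C * C2) * N) ^ (12 * (C2 * N)) :=
        pow_le_pow_left₀ hb0 hbase _
    _ = exp ((12 * (C2 : ℝ) * (9 + 4 * U + G + C2 + C * C2)) * N * N) := by
        rw [← Real.exp_nat_mul]
        push_cast
        ring_nf
    _ ≤ exp ((N : ℝ) * N * N) := by
        apply Real.exp_le_exp.2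
        gcongr
    _ ≤ exp (((N + 1) * (N + 1) : ℕ) * (N : ℝ)) := by
        apply Real.exp_le_exp.2
        push_cast
        nlinarith
    _ = exp (N : ℝ) ^ ((N + 1) * (N + 1)) := by
        rw [← Real.exp_nat_mul]
    _ < (X + 1) ^ ((N + 1) * (N + 1)) :=
        pow_lt_pow_left₀ hX2 (Real.exp_pos _).le (by positivity)

/-- The case `U, C, G ≥ 1`. -/
private lemma sc_main (U C G : ℝ) (hU : 1 ≤ U) (hC : 1 ≤ C) (hG : 1 ≤ G) : ∃ N0 : ℕ, ∀ N : ℕ,
    N0 ≤ N → ∀ u : Fin 3 → Fin 4 → ℝ, (∀ τ k, |u τ k| ≤ U) →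
      ∃ c : Fin (N + 1) → Fin (N + 1) → ℤ, c ≠ 0 ∧ (∀ i j, (|c i j| : ℝ) ≤ exp N) ∧
        ∀ (τ : Fin 3) (t : ℝ), 0 ≤ t → t ≤ C → ∀ a b : Fin 2,
          |∑ i, ∑ j, (c i j : ℝ) * gcoef (u τ) t i j a b| ≤ exp (-G * N) := by
  obtain ⟨C2, hC2⟩ := exists_nat_ge (7 + 4 * U * C + G + 4 * U * C * exp 2)
  have hUC : (1 : ℝ) ≤ U * C := by nlinarith
  have hC2a : 7 + 4 * U * C + G ≤ C2 := by
    have : 0 ≤ 4 * U * C * exp 2 := by positivity
    linarith
  have hC2b : 4 * U * C * exp 2 ≤ C2 := by nlinarith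
  have hC2r : (1 : ℝ) ≤ C2 := by nlinarith
  have hC2n : 1 ≤ C2 := by exact_mod_cast hC2r
  obtain ⟨N0, hN0⟩ := exists_nat_ge (12 * (C2 : ℝ) * (9 + 4 * U + G + C2 + C * C2))
  refine ⟨max N0 1, fun N hN u hu => ?_⟩
  have hN1 : 1 ≤ N := (le_max_right _ _).trans hN
  have hNr : (1 : ℝ) ≤ N := by exact_mod_cast hN1
  have hNb : 12 * (C2 : ℝ) * (9 + 4 * U + G + C2 + C * C2) ≤ N := by
    refine hN0.trans ?_
    exact_mod_cast (le_max_left _ _).trans hN
  set M : ℕ := C2 * N with hM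
  have hM0 : 0 < M := Nat.mul_pos (by omega) (by omega)
  have hMr : (M : ℝ) = C2 * N := by rw [hM]; push_cast; ring
  choose T hT1 hT2 using fun τ => sc_taylor U hU N M (u τ) (hu τ)
  set δ : ℝ := exp (-(G + 1) * N) / ((M : ℝ) * C ^ M) with hδ
  have hM0r : (0 : ℝ) < M := by exact_mod_cast hM0
  have hδ0 : 0 < δ := by positivity
  obtain ⟨c, hc0, hcX, hcδ⟩ := pigeon (J := Fin (N + 1) × Fin (N + 1))
    (I := Fin 3 × Fin 2 × Fin 2 × Fin M)
    (fun p q => T q.1 p.1 p.2 q.2.1 q.2.2.1 (q.2.2.2 : ℕ)) ⌊exp (N : ℝ)⌋₊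
    (16 ^ N * exp (4 * U * N)) δ (by positivity) hδ0 (fun p q => hT1 _ _ _ _ _ _) (by
      have h1 := sc_card U C G hU hC hG C2 N hC2n hN1 hNb
      have h2 : Fintype.card (Fin (N + 1) × Fin (N + 1)) = (N + 1) * (N + 1) := by simp
      have h3 : Fintype.card (Fin 3 × Fin 2 × Fin 2 × Fin M) = 12 * M := by
        simp
        ring
      rw [h2, h3, hδ]
      have h4 : (((N + 1) * (N + 1) : ℕ) : ℝ) = ((N : ℝ) + 1) ^ 2 := by push_cast; ring
      rw [h4]
      exact h1)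
  have hcb : ∀ p, |(c p : ℝ)| ≤ exp N := by
    intro p
    have h1 : ((|c p| : ℤ) : ℝ) ≤ ((⌊exp (N : ℝ)⌋₊ : ℤ) : ℝ) := by exact_mod_cast hcX p
    rw [Int.cast_abs] at h1
    refine h1.trans ?_
    rw [Int.cast_natCast]
    exact Nat.floor_le (Real.exp_pos _).le
  refine ⟨fun i j => c (i, j), ?_, fun i j => hcb _, ?_⟩
  · intro h
    apply hc0
    ext ⟨i, j⟩
    exact congrFun (congrFun h i) j
  · intro τ t ht0 htC a b
    have habs : |t| = t := abs_of_nonneg ht0
    have e1 : ∑ i, ∑ j, (c (i, j) : ℝ) * gcoef (u τ) t i j a b =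
        ∑ m ∈ Finset.range M, t ^ m * ∑ p : Fin (N + 1) × Fin (N + 1),
          (c p : ℝ) * T τ p.1 p.2 a b m +
        ∑ p : Fin (N + 1) × Fin (N + 1), (c p : ℝ) * (gcoef (u τ) t p.1 p.2 a b -
          ∑ m ∈ Finset.range M, T τ p.1 p.2 a b m * t ^ m) := by
      have e2 : ∑ m ∈ Finset.range M, t ^ m * ∑ p : Fin (N + 1) × Fin (N + 1),
          (c p : ℝ) * T τ p.1 p.2 a b m = ∑ p : Fin (N + 1) × Fin (N + 1),
          (c p : ℝ) * ∑ m ∈ Finset.range M, T τ p.1 p.2 a b m * t ^ m := by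
        simp only [Finset.mul_sum]
        rw [Finset.sum_comm]
        refine Finset.sum_congr rfl fun p _ => Finset.sum_congr rfl fun m _ => ?_
        ring
      rw [e2, ← Finset.sum_add_distrib, Fintype.sum_prod_type]
      refine Finset.sum_congr rfl fun i _ => Finset.sum_congr rfl fun j _ => ?_
      ring
    have b1 : |∑ m ∈ Finset.range M, t ^ m * ∑ p : Fin (N + 1) × Fin (N + 1),
          (c p : ℝ) * T τ p.1 p.2 a b m| ≤ exp (-(G + 1) * N) := by
      calc _ ≤ ∑ m ∈ Finset.range M, |t ^ m * ∑ p : Fin (N + 1) × Fin (N + 1),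
          (c p : ℝ) * T τ p.1 p.2 a b m| := Finset.abs_sum_le_sum_abs _ _
        _ ≤ ∑ m ∈ Finset.range M, C ^ M * δ := by
            refine Finset.sum_le_sum fun m hm => ?_
            rw [Finset.mem_range] at hm
            rw [abs_mul, abs_pow, habs]
            have h1 : t ^ m ≤ C ^ M :=
              (pow_le_pow_left₀ ht0 htC m).trans (pow_le_pow_right₀ hC hm.le)
            have h2 := hcδ (τ, a, b, ⟨m, hm⟩)
            exact mul_le_mul h1 h2 (abs_nonneg _) (by positivity)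
        _ = exp (-(G + 1) * N) := by
            rw [Finset.sum_const, Finset.card_range, nsmul_eq_mul, hδ]
            field_simp
    have hfac : (4 * U * N * t) ^ M / M.factorial ≤ exp (-M) := by
      refine sc_fact _ (by positivity) M ?_
      rw [hMr]
      have h1 : 4 * U * N * t * exp 2 ≤ 4 * U * N * C * exp 2 := by gcongr
      have h2 : 4 * U * N * C * exp 2 = (4 * U * C * exp 2) * N := by ring
      rw [h2] at h1
      exact h1.trans (mul_le_mul_of_nonneg_right hC2b (by positivity))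
    have b2 : |∑ p : Fin (N + 1) × Fin (N + 1), (c p : ℝ) * (gcoef (u τ) t p.1 p.2 a b -
          ∑ m ∈ Finset.range M, T τ p.1 p.2 a b m * t ^ m)| ≤ exp (-(G + 1) * N) := by
      calc _ ≤ ∑ p : Fin (N + 1) × Fin (N + 1), |(c p : ℝ) * (gcoef (u τ) t p.1 p.2 a b -
          ∑ m ∈ Finset.range M, T τ p.1 p.2 a b m * t ^ m)| := Finset.abs_sum_le_sum_abs _ _
        _ ≤ ∑ p : Fin (N + 1) × Fin (N + 1), exp N * (exp (3 * N) *
              (exp (-M) * exp (4 * U * N * C))) := by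
            refine Finset.sum_le_sum fun p _ => ?_
            rw [abs_mul]
            have h1 := hT2 τ p.1 p.2 a b t
            rw [habs] at h1
            have h2 : 16 ^ N * ((4 * U * N * t) ^ M / M.factorial * exp (4 * U * N * t)) ≤
                exp (3 * N) * (exp (-M) * exp (4 * U * N * C)) := by
              have := sc_sixteen N
              gcongr
            exact mul_le_mul (hcb p) (h1.trans h2) (abs_nonneg _) (Real.exp_pos _).le
        _ = ((N : ℝ) + 1) ^ 2 * (exp N * (exp (3 * N) * (exp (-M) * exp (4 * U * N * C)))) := by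
            rw [Finset.sum_const, Finset.card_univ, nsmul_eq_mul, Fintype.card_prod,
              Fintype.card_fin]
            push_cast
            ring
        _ ≤ exp (2 * N) * (exp N * (exp (3 * N) * (exp (-M) * exp (4 * U * N * C)))) :=
            mul_le_mul_of_nonneg_right (sc_sq N) (by positivity)
        _ = exp ((6 + 4 * U * C - C2) * N) := by
            rw [← Real.exp_add, ← Real.exp_add, ← Real.exp_add, ← Real.exp_add, hMr]
            congr 1
            ring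
        _ ≤ exp (-(G + 1) * N) := by
            apply Real.exp_le_exp.2
            apply mul_le_mul_of_nonneg_right _ (by positivity)
            linarith
    rw [e1]
    have hexp : exp (-(G + 1) * N) * 2 ≤ exp (-G * N) := by
      have h1 : (2 : ℝ) ≤ exp N := by
        have := Real.add_one_le_exp (N : ℝ)
        linarith
      have h2 : exp (-G * (N : ℝ)) = exp (-(G + 1) * N) * exp N := by
        rw [← Real.exp_add]
        congr 1
        ring
      rw [h2]
      exact mul_le_mul_of_nonneg_left h1 (Real.exp_pos _).le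
    refine (abs_add_le _ _).trans ?_
    linarith

/-- **Small on three segments.** For given `U, C, G` and all large `N`: for any three directions there
are integers `c i j`, not all zero, `|c i j| ≤ exp N`, such that the four coordinates of
`∑ c i j x^i y^j` are at most `exp (-G N)` for `t ∈ [0, C]`.

Proof. Enlarge `U`, `C`, `G` to be `≥ 1`. `gcoef u t i j a b` is `ExpSum (4 U N) (16 ^ N)` for
`i, j ≤ N` (`pwc_expSum`, `ExpSum.mul`, `ExpSum.mono`). Let `C2` be an integer `≥ 8 + 4 U C + G` and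
`≥ 4 U C exp 2`, `M = C2 N`, and let `τ (i, j) (τ', a, b, m)` be the Taylor coefficients
(`ExpSum.taylor`), `|τ| ≤ 16 ^ N exp (4 U N)`. Apply `pigeon` with `J = Fin (N+1) × Fin (N+1)`,
`I = Fin 3 × Fin 2 × Fin 2 × Fin M`, `X = ⌊exp N⌋₊`, `δ = exp (-(G+1) N) / (M C ^ M)`. The main terms
give at most `M δ C ^ M ≤ exp (-(G+1) N) ≤ exp (-G N) / 2`; the remainder is at most
`(N+1)² exp N 16 ^ N (4 U N C) ^ M / M! exp (4 U N C) ≤ exp ((2 + 1 + 3 + 4 U C) N) (4 U C exp 1 / C2) ^ M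
 ≤ exp ((6 + 4 U C - C2) N) ≤ exp (-G N) / 2` with `M! ≥ (M / exp 1) ^ M`. The condition of `pigeon`:
the left side is at most `exp (C3 N) ^ (12 C2 N)` with a constant `C3`, the right side is at least
`exp (N (N+1)²)`. -/
theorem small_coef (U C G : ℝ) : ∃ N0 : ℕ, ∀ N : ℕ, N0 ≤ N →
    ∀ u : Fin 3 → Fin 4 → ℝ, (∀ τ k, |u τ k| ≤ U) →
      ∃ c : Fin (N + 1) → Fin (N + 1) → ℤ, c ≠ 0 ∧ (∀ i j, (|c i j| : ℝ) ≤ exp N) ∧
        ∀ (τ : Fin 3) (t : ℝ), 0 ≤ t → t ≤ C → ∀ a b : Fin 2,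
          |∑ i, ∑ j, (c i j : ℝ) * gcoef (u τ) t i j a b| ≤ exp (-G * N) := by
  obtain ⟨N0, h⟩ := sc_main (max U 1) (max C 1) (max G 1) (le_max_right _ _) (le_max_right _ _)
    (le_max_right _ _)
  refine ⟨N0, fun N hN u hu => ?_⟩
  obtain ⟨c, hc0, hcb, hc⟩ := h N hN u fun τ k => (hu τ k).trans (le_max_left _ _)
  refine ⟨c, hc0, hcb, fun τ t ht0 htC a b => ?_⟩
  refine (hc τ t ht0 (htC.trans (le_max_left _ _)) a b).trans (Real.exp_le_exp.2 ?_)
  have h1 : G ≤ max G 1 := le_max_left _ _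
  have h2 : (0 : ℝ) ≤ N := Nat.cast_nonneg _
  nlinarith

end Pool.Agent.LThree
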