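import Pool.Agent.LThree.Pigeon

set_option autoImplicit false

/-! Integer combinations of power series which are tiny on a disc (box principle). -/

namespace Pool.Agent.LThree

open Real

private theorem sf_geom (T : ℕ) : HasSum (fun t : ℕ => exp (-((t + T : ℕ) : ℝ)))
    (exp (-(T : ℝ)) * (1 - exp (-1))⁻¹) := by
  have h1 : ∀ t : ℕ, exp (-((t + T : ℕ) : ℝ)) = exp (-(T : ℝ)) * exp (-1) ^ t := by
    intro t
    rw [← Real.exp_nat_mul, ← Real.exp_add]
    congr 1
    push_cast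
    ring
  simp_rw [h1]
  exact (hasSum_geometric_of_lt_one (exp_pos _).le (by
    rw [Real.exp_lt_one_iff]
    norm_num)).mul_left _

private theorem sf_inv : (1 - exp (-1))⁻¹ ≤ 2 := by
  have h1 : exp (-1) ≤ 1 / 2 := by
    rw [Real.exp_neg, one_div]
    apply inv_anti₀ (by norm_num)
    have := Real.exp_one_gt_d9
    linarith
  rw [inv_le_comm₀ (by linarith) (by norm_num)]
  linarith

/-- **Small functions.** `φ i z = ∑ c i t z^t` on the disc of radius `ρ`, `‖c i t‖ ρ^t ≤ A exp (-t)`.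
If `2 T (κ + 1) ≤ #ι` there are integers `p i`, not all zero, `|p i| ≤ exp (T / (κ + 1))`, such that
`‖∑ p i φ i z‖ ≤ 18 T #ι A exp (- κ T / (κ + 1))` on the disc. -/
theorem small_fun {ι : Type} [Fintype ι] (φ : ι → ℂ → ℂ) (c : ι → ℕ → ℂ) (ρ A : ℝ) (hρ : 0 ≤ ρ)
    (hA : 0 < A) (hsum : ∀ i z, ‖z‖ ≤ ρ → HasSum (fun t => c i t * z ^ t) (φ i z))
    (hc : ∀ i t, ‖c i t‖ * ρ ^ t ≤ A * exp (-(t : ℝ))) (κ T : ℕ) (hκ : 1 ≤ κ) (hT : 1 ≤ T)
    (hcard : 2 * T * (κ + 1) ≤ Fintype.card ι) :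
    ∃ p : ι → ℤ, p ≠ 0 ∧ (∀ i, (|p i| : ℝ) ≤ exp (T / (κ + 1))) ∧
      ∀ z : ℂ, ‖z‖ ≤ ρ → ‖∑ i, (p i : ℂ) * φ i z‖ ≤
        18 * T * Fintype.card ι * A * exp (-(κ * (T / (κ + 1)))) := by
  classical
  set L : ℕ := Fintype.card ι with hL
  set U : ℝ := T / (κ + 1) with hU
  have hU0 : 0 ≤ U := by positivity
  have hTU : (T : ℝ) = (κ + 1) * U := by
    rw [hU]
    field_simp
  set X : ℕ := ⌊exp U⌋₊ with hX
  have hX1 : 1 ≤ X := Nat.le_floor (by
    rw [Nat.cast_one]
    exact Real.one_le_exp hU0)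
  have hXle : (X : ℝ) ≤ exp U := Nat.floor_le (exp_pos _).le
  have hXlt : exp U < (X : ℝ) + 1 := Nat.lt_floor_add_one _
  have hX1R : (1 : ℝ) ≤ X := by exact_mod_cast hX1
  have hLpos : 0 < L := lt_of_lt_of_le (by positivity) hcard
  have hLR : (0 : ℝ) < L := by exact_mod_cast hLpos
  set δ : ℝ := 8 * L * A * X / ((X : ℝ) + 1) ^ (κ + 1) with hδ
  have hδpos : 0 < δ := by positivity
  have hδle : δ ≤ 8 * L * A * exp (-(κ * U)) := by
    rw [hδ, div_le_iff₀ (by positivity)]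
    have h1 : exp (κ * U) ≤ ((X : ℝ) + 1) ^ κ := by
      rw [Real.exp_nat_mul]
      exact pow_le_pow_left₀ (exp_pos _).le hXlt.le κ
    have h2 : exp (-(κ * U)) * ((X : ℝ) + 1) ^ (κ + 1) ≥ X := by
      rw [pow_succ]
      have h3 : 1 ≤ exp (-(κ * U)) * ((X : ℝ) + 1) ^ κ := by
        calc (1 : ℝ) = exp (-(κ * U)) * exp (κ * U) := by rw [← Real.exp_add]; simp
          _ ≤ _ := mul_le_mul_of_nonneg_left h1 (exp_pos _).le
      nlinarith
    calc 8 * L * A * (X : ℝ) ≤ 8 * L * A * (exp (-(κ * U)) * ((X : ℝ) + 1) ^ (κ + 1)) := by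
          gcongr
      _ = _ := by ring
  have hR : ∀ (j : ι) (i : Fin T × Fin 2),
      |(if i.2 = 0 then (c j i.1).re * ρ ^ (i.1 : ℕ) else (c j i.1).im * ρ ^ (i.1 : ℕ))| ≤ A := by
    intro j i
    have h1 := hc j i.1
    have h2 : A * exp (-((i.1 : ℕ) : ℝ)) ≤ A := by
      have : exp (-((i.1 : ℕ) : ℝ)) ≤ 1 := by
        rw [Real.exp_le_one_iff]
        simp
      nlinarith
    have h3 : 0 ≤ ρ ^ (i.1 : ℕ) := pow_nonneg hρ _
    split_ifs
    · rw [abs_mul, abs_of_nonneg h3]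
      exact (mul_le_mul_of_nonneg_right (Complex.abs_re_le_norm _) h3).trans (h1.trans h2)
    · rw [abs_mul, abs_of_nonneg h3]
      exact (mul_le_mul_of_nonneg_right (Complex.abs_im_le_norm _) h3).trans (h1.trans h2)
  have hpc : (2 * ((Fintype.card ι : ℝ) * X * A) / δ + 2) ^ Fintype.card (Fin T × Fin 2) <
      ((X : ℝ) + 1) ^ Fintype.card ι := by
    rw [← hL, Fintype.card_prod, Fintype.card_fin, Fintype.card_fin]
    have h1 : 2 * ((L : ℝ) * X * A) / δ = ((X : ℝ) + 1) ^ (κ + 1) / 4 := by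
      rw [hδ]
      field_simp
      ring
    rw [h1]
    have h2 : (4 : ℝ) ≤ ((X : ℝ) + 1) ^ (κ + 1) := by
      calc (4 : ℝ) = 2 ^ 2 := by norm_num
        _ ≤ 2 ^ (κ + 1) := pow_le_pow_right₀ (by norm_num) (by omega)
        _ ≤ _ := pow_le_pow_left₀ (by norm_num) (by linarith) _
    calc (((X : ℝ) + 1) ^ (κ + 1) / 4 + 2) ^ (T * 2) < (((X : ℝ) + 1) ^ (κ + 1)) ^ (T * 2) := by
          apply pow_lt_pow_left₀ (by linarith) (by positivity) (by omega)
      _ = ((X : ℝ) + 1) ^ (2 * T * (κ + 1)) := by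
          rw [← pow_mul]
          congr 1
          ring
      _ ≤ ((X : ℝ) + 1) ^ L := pow_le_pow_right₀ (by linarith) hcard
  obtain ⟨p, hp0, hpb, hps⟩ := pigeon (fun (j : ι) (i : Fin T × Fin 2) =>
    (if i.2 = 0 then (c j i.1).re * ρ ^ (i.1 : ℕ) else (c j i.1).im * ρ ^ (i.1 : ℕ))) X A δ hA.le
    hδpos hR hpc
  have hpb' : ∀ i, (|p i| : ℝ) ≤ X := by
    intro i
    have := hpb i
    exact_mod_cast this
  refine ⟨p, hp0, fun i => (hpb' i).trans hXle, fun z hz => ?_⟩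
  -- the coefficients of the combination
  set s : ℕ → ℂ := fun t => ∑ i, (p i : ℂ) * c i t with hs
  have hF : HasSum (fun t => s t * z ^ t) (∑ i, (p i : ℂ) * φ i z) := by
    have h1 : HasSum (fun t => ∑ i, (p i : ℂ) * (c i t * z ^ t)) (∑ i, (p i : ℂ) * φ i z) :=
      hasSum_sum fun i _ => (hsum i z hz).mul_left _
    have h2 : (fun t => s t * z ^ t) = fun t => ∑ i, (p i : ℂ) * (c i t * z ^ t) := by
      funext t
      rw [hs, Finset.sum_mul]
      exact Finset.sum_congr rfl fun i _ => by ring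
    rw [h2]
    exact h1
  have hbig : ∀ t, ‖s t‖ * ρ ^ t ≤ L * X * A * exp (-(t : ℝ)) := by
    intro t
    have h3 : 0 ≤ ρ ^ t := pow_nonneg hρ _
    calc ‖s t‖ * ρ ^ t ≤ (∑ i, ‖(p i : ℂ) * c i t‖) * ρ ^ t :=
          mul_le_mul_of_nonneg_right (norm_sum_le _ _) h3
      _ = ∑ i, ‖(p i : ℂ)‖ * (‖c i t‖ * ρ ^ t) := by
          rw [Finset.sum_mul]
          exact Finset.sum_congr rfl fun i _ => by rw [norm_mul]; ring
      _ ≤ ∑ _i : ι, (X : ℝ) * (A * exp (-(t : ℝ))) := by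
          refine Finset.sum_le_sum fun i _ => ?_
          refine mul_le_mul ?_ (hc i t) (by positivity) (by positivity)
          rw [Complex.norm_intCast]
          exact hpb' i
      _ = _ := by
          rw [Finset.sum_const, Finset.card_univ, nsmul_eq_mul]
          ring
  have hsmall : ∀ t, t < T → ‖s t‖ * ρ ^ t ≤ 2 * δ := by
    intro t ht
    have h3 : 0 ≤ ρ ^ t := pow_nonneg hρ _
    have h4 := hps (⟨t, ht⟩, 0)
    have h5 := hps (⟨t, ht⟩, 1)
    simp only [if_true, Fin.isValue, one_ne_zero, if_false] at h4 h5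
    have h6 : (s t).re * ρ ^ t = ∑ j, (p j : ℝ) * ((c j t).re * ρ ^ t) := by
      rw [hs]
      simp only [Complex.re_sum, Complex.mul_re, Complex.intCast_re, Complex.intCast_im, zero_mul,
        sub_zero, Finset.sum_mul]
      exact Finset.sum_congr rfl fun i _ => by ring
    have h7 : (s t).im * ρ ^ t = ∑ j, (p j : ℝ) * ((c j t).im * ρ ^ t) := by
      rw [hs]
      simp only [Complex.im_sum, Complex.mul_im, Complex.intCast_re, Complex.intCast_im, zero_mul,
        add_zero, Finset.sum_mul]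
      exact Finset.sum_congr rfl fun i _ => by ring
    rw [← h6, abs_mul, abs_of_nonneg h3] at h4
    rw [← h7, abs_mul, abs_of_nonneg h3] at h5
    have h8 := mul_le_mul_of_nonneg_right (Complex.norm_le_abs_re_add_abs_im (s t)) h3
    linarith
  set b : ℕ → ℝ := fun t => if t < T then 2 * δ else L * X * A * exp (-(t : ℝ)) with hb
  have hbsum : HasSum b (L * X * A * (exp (-(T : ℝ)) * (1 - exp (-1))⁻¹) +
      ∑ t ∈ Finset.range T, b t) := by
    refine (hasSum_nat_add_iff T).1 ?_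
    have h1 : (fun t => b (t + T)) = fun t => L * X * A * exp (-((t + T : ℕ) : ℝ)) := by
      funext t
      rw [hb]
      dsimp only
      rw [if_neg (by omega)]
    rw [h1]
    exact (sf_geom T).mul_left _
  have hle : ∀ t, ‖s t * z ^ t‖ ≤ b t := by
    intro t
    have h1 : ‖s t * z ^ t‖ ≤ ‖s t‖ * ρ ^ t := by
      rw [norm_mul, norm_pow]
      exact mul_le_mul_of_nonneg_left (pow_le_pow_left₀ (norm_nonneg _) hz t) (norm_nonneg _)
    rw [hb]
    dsimp only
    split_ifs with h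
    · exact h1.trans (hsmall t h)
    · exact h1.trans (hbig t)
  have h1 := hF.norm_le_of_bounded hbsum hle
  have h2 : ∑ t ∈ Finset.range T, b t = T * (2 * δ) := by
    rw [Finset.sum_congr rfl (fun t ht => by
      rw [hb]
      dsimp only
      rw [if_pos (Finset.mem_range.1 ht)] : ∀ t ∈ Finset.range T, b t = 2 * δ)]
    rw [Finset.sum_const, Finset.card_range, nsmul_eq_mul]
  rw [h2] at h1
  refine h1.trans ?_
  have h3 : L * X * A * (exp (-(T : ℝ)) * (1 - exp (-1))⁻¹) ≤ 2 * L * A * exp (-(κ * U)) := by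
    calc L * X * A * (exp (-(T : ℝ)) * (1 - exp (-1))⁻¹)
        ≤ L * exp U * A * (exp (-(T : ℝ)) * 2) := by
          have := sf_inv
          have h4 : 0 ≤ (1 - exp (-1))⁻¹ := by
            rw [inv_nonneg, sub_nonneg, Real.exp_le_one_iff]
            norm_num
          gcongr
      _ = 2 * L * A * (exp U * exp (-(T : ℝ))) := by ring
      _ = 2 * L * A * exp (-(κ * U)) := by
          rw [← Real.exp_add, hTU]
          congr 2
          ring
  have h4 : T * (2 * δ) ≤ 16 * T * L * A * exp (-(κ * U)) := by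
    calc T * (2 * δ) ≤ T * (2 * (8 * L * A * exp (-(κ * U)))) := by gcongr
      _ = _ := by ring
  have h5 : 2 * L * A * exp (-(κ * U)) ≤ 2 * T * L * A * exp (-(κ * U)) := by
    have hT1 : (1 : ℝ) ≤ T := by exact_mod_cast hT
    have h6 : 0 ≤ 2 * L * A * exp (-(κ * U)) := by positivity
    nlinarith
  linarith

end Pool.Agent.LThree
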