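import Pool.Agent.LThree.TwoLogA

set_option autoImplicit false

/-! Linear forms `n log g - 2 π i k`: extrapolation and zero estimate. -/

namespace Pool.Agent.LThree

open NumberField Height Real Module

private theorem tb_exp (k n r s l : ℕ) (hn : 1 ≤ n) :
    ((n : ℂ) * (((r * k + s * n : ℕ) : ℂ) / n)) = ((r * k + s * n : ℕ) : ℂ) ∧
    Complex.exp (2 * (π : ℂ) * Complex.I * (l : ℂ) * (((r * k + s * n : ℕ) : ℂ) / n)) =
      Complex.exp (2 * (π : ℂ) * Complex.I * ((k : ℂ) / n)) ^ (r * l) := by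
  have hn' : (n : ℂ) ≠ 0 := by
    have : n ≠ 0 := by omega
    exact_mod_cast this
  constructor
  · field_simp
  · rw [← Complex.exp_nat_mul]
    have h1 : 2 * (π : ℂ) * Complex.I * (l : ℂ) * (((r * k + s * n : ℕ) : ℂ) / n) =
        ((r * l : ℕ) : ℂ) * (2 * (π : ℂ) * Complex.I * ((k : ℂ) / n)) +
          ((l * s : ℕ) : ℂ) * (2 * (π : ℂ) * Complex.I) := by
      push_cast
      field_simp
    rw [h1, Complex.exp_add]
    have h2 : Complex.exp (((l * s : ℕ) : ℂ) * (2 * (π : ℂ) * Complex.I)) = 1 := by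
      rw [Complex.exp_nat_mul, Complex.exp_two_pi_mul_I, one_pow]
    rw [h2, mul_one]

private theorem tb_norm_omega (k n : ℕ) :
    ‖Complex.exp (2 * (π : ℂ) * Complex.I * ((k : ℂ) / n))‖ = 1 := by
  have h1 : 2 * (π : ℂ) * Complex.I * ((k : ℂ) / n) = ((2 * π * (k / n) : ℝ) : ℂ) * Complex.I := by
    push_cast
    ring
  rw [h1, Complex.norm_exp_ofReal_mul_I]

/-- The main step. -/
theorem two_log_core (K : Type) [Field K] [NumberField K] (g : K) (hg0 : g ≠ 0)
    (hg : ∀ m : ℕ, 0 < m → g ^ m ≠ 1) (v : InfinitePlace K) (H0 : ℝ)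
    (hh : logHeight₁ g ≤ H0 * finrank ℚ K) (M R2 S J T n k : ℕ) (hM : 1 ≤ M) (hJ : 1 ≤ J)
    (hn : 1 ≤ n) (hRS : R2 * S = J * M) (hR2 : R2 ≤ n) (hcop : Nat.Coprime k n) (hkn : k ≤ n)
    (hT : 1 ≤ T) (hTle : 2 * T * (2 * finrank ℚ K + 1) ≤ J * M) (lam : ℂ)
    (hγ : v.embedding g = Complex.exp (2 * (π : ℂ) * Complex.I * ((k : ℂ) / n)) * Complex.exp lam)
    (hlam : ‖lam‖ * (((M : ℝ) + R2) * M) ≤ exp (-(T : ℝ)))
    (ρ U B : ℝ) (hρ : ρ = (M : ℝ) + R2 + S) (hU : U = T / (2 * finrank ℚ K + 1))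
    (hB : B = J * exp U * (n * ρ) ^ J)
    (hmain : log (20 * T * (J * M)) + (J * log (n * ρ * exp 1) + 2 * π * M * (ρ * exp 1)) +
      (M * ((M + R2) * (H0 * finrank ℚ K)) + finrank ℚ K * (2 * log (M + 1) + log B)) <
        2 * finrank ℚ K * U) : False := by
  classical
  set D : ℕ := finrank ℚ K with hD
  have hDpos : 0 < D := finrank_pos
  set ω : ℂ := Complex.exp (2 * (π : ℂ) * Complex.I * ((k : ℂ) / n)) with hω
  have hω1 : ‖ω‖ = 1 := tb_norm_omega k n
  have hM' : (1 : ℝ) ≤ M := by exact_mod_cast hM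
  have hJ' : (1 : ℝ) ≤ J := by exact_mod_cast hJ
  have hn' : (1 : ℝ) ≤ n := by exact_mod_cast hn
  have hT' : (1 : ℝ) ≤ T := by exact_mod_cast hT
  have hρ1 : 1 ≤ ρ := by
    rw [hρ]
    have h1 : (0 : ℝ) ≤ R2 := Nat.cast_nonneg _
    have h2 : (0 : ℝ) ≤ S := Nat.cast_nonneg _
    linarith
  have hnρ1 : 1 ≤ n * ρ := one_le_mul_of_one_le_of_one_le hn' hρ1
  have he1 : (1 : ℝ) ≤ exp 1 := Real.one_le_exp (by norm_num)
  have hnρe1 : 1 ≤ n * ρ * exp 1 := one_le_mul_of_one_le_of_one_le hnρ1 he1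
  have hU0 : 0 ≤ U := by
    rw [hU]
    positivity
  have hTU : (T : ℝ) = 2 * D * U + U := by
    rw [hU]
    field_simp
  -- the auxiliary function
  set A : ℝ := (n * ρ * exp 1) ^ J * exp (2 * π * M * (ρ * exp 1)) with hA
  have hApos : 0 < A := by positivity
  have hA1 : (n * ρ) ^ J ≤ A := by
    calc (n * ρ) ^ J ≤ (n * ρ * exp 1) ^ J := by
          apply pow_le_pow_left₀ (by linarith)
          nlinarith
      _ = (n * ρ * exp 1) ^ J * 1 := by ring
      _ ≤ _ := by
          rw [hA]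
          apply mul_le_mul_of_nonneg_left _ (by positivity)
          exact Real.one_le_exp (by positivity)
  obtain ⟨p, hp0, hpb, hps⟩ := small_fun (ι := Fin J × Fin M)
    (fun i z => ((n : ℂ) * z) ^ (i.1 : ℕ) *
      Complex.exp (2 * (π : ℂ) * Complex.I * (((i.2 : ℕ) : ℂ)) * z))
    (fun i t => tlc n i.1 i.2 t) ρ A (by linarith) hApos
    (fun i z _ => tlc_hasSum n i.1 i.2 z)
    (fun i t => tlc_bound n J M i.1 i.2 i.1.2 i.2.2 hn ρ hρ1 t) (2 * D) T (by omega) hT
    (by rw [Fintype.card_prod, Fintype.card_fin, Fintype.card_fin]; exact hTle)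
  rw [Fintype.card_prod, Fintype.card_fin, Fintype.card_fin] at hps
  have hUU : (T : ℝ) / (((2 * D : ℕ) : ℝ) + 1) = U := by
    rw [hU]
    push_cast
    rfl
  rw [hUU] at hps hpb
  -- the numbers
  have key : ∀ r s : ℕ, r < M + R2 → s < S →
      ∑ j : Fin J, ∑ l : Fin M, (p (j, l) : K) * ((r * k + s * n : ℕ) : K) ^ (j : ℕ) *
        (g ^ r) ^ (l : ℕ) = 0 := by
    intro r s hr hs
    by_contra hne
    set w : K := ∑ j : Fin J, ∑ l : Fin M, (p (j, l) : K) * ((r * k + s * n : ℕ) : K) ^ (j : ℕ) *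
        (g ^ r) ^ (l : ℕ) with hw
    set N : ℕ := r * k + s * n with hN
    have hr' : (r : ℝ) ≤ (M : ℝ) + R2 := by exact_mod_cast hr.le
    have hs' : (s : ℝ) ≤ S := by exact_mod_cast hs.le
    have hk' : (k : ℝ) ≤ n := by exact_mod_cast hkn
    have hNle : (N : ℝ) ≤ n * ρ := by
      rw [hN, hρ]
      push_cast
      have h1 : (r : ℝ) * k ≤ ((M : ℝ) + R2) * n := by gcongr
      have h2 : (s : ℝ) * n ≤ S * n := by gcongr
      linarith
    have hNj : ∀ j : Fin J, (N : ℝ) ^ (j : ℕ) ≤ (n * ρ) ^ J := by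
      intro j
      calc (N : ℝ) ^ (j : ℕ) ≤ (n * ρ) ^ (j : ℕ) := pow_le_pow_left₀ (Nat.cast_nonneg _) hNle _
        _ ≤ (n * ρ) ^ J := pow_le_pow_right₀ hnρ1 j.2.le
    -- height
    set q : Fin M → ℤ := fun l => ∑ j : Fin J, p (j, l) * (N : ℤ) ^ (j : ℕ) with hq
    have hwq : w = ∑ l, (q l : K) * (g ^ r) ^ (l : ℕ) := by
      rw [hw, Finset.sum_comm]
      refine Finset.sum_congr rfl fun l _ => ?_
      rw [hq]
      push_cast
      rw [Finset.sum_mul]
    have hqb : ∀ l, (|q l| : ℝ) ≤ B := by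
      intro l
      rw [hq]
      push_cast
      calc |∑ j : Fin J, (p (j, l) : ℝ) * (N : ℝ) ^ (j : ℕ)|
          ≤ ∑ j : Fin J, |(p (j, l) : ℝ) * (N : ℝ) ^ (j : ℕ)| := Finset.abs_sum_le_sum_abs _ _
        _ ≤ ∑ _j : Fin J, exp U * (n * ρ) ^ J := by
            refine Finset.sum_le_sum fun j _ => ?_
            rw [abs_mul, abs_of_nonneg (show (0 : ℝ) ≤ (N : ℝ) ^ (j : ℕ) from by positivity)]
            exact mul_le_mul (hpb (j, l)) (hNj j) (by positivity) (by positivity)
        _ = B := by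
            rw [Finset.sum_const, Finset.card_univ, Fintype.card_fin, nsmul_eq_mul, hB]
            ring
    have hB1 : 1 ≤ B := by
      rw [hB]
      exact one_le_mul_of_one_le_of_one_le (one_le_mul_of_one_le_of_one_le hJ'
        (Real.one_le_exp hU0)) (one_le_pow₀ hnρ1)
    have hht := height_value_one K (g ^ r) M q B hB1 hqb
    rw [← hwq, logHeight₁_pow] at hht
    have hht2 : (M : ℝ) * (r * logHeight₁ g) ≤ M * ((M + R2) * (H0 * D)) := by
      have h1 : 0 ≤ logHeight₁ g := zero_le_logHeight₁ g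
      gcongr
    -- analytic estimate
    have hz := hps ((N : ℂ) / n) (by
      rw [norm_div, Complex.norm_natCast, Complex.norm_natCast, div_le_iff₀ (by linarith)]
      linarith)
    have hFeq : ∑ i : Fin J × Fin M, (p i : ℂ) * (((n : ℂ) * ((N : ℂ) / n)) ^ (i.1 : ℕ) *
        Complex.exp (2 * (π : ℂ) * Complex.I * (((i.2 : ℕ) : ℂ)) * ((N : ℂ) / n))) =
        ∑ j : Fin J, ∑ l : Fin M, (p (j, l) : ℂ) * (N : ℂ) ^ (j : ℕ) * ω ^ (r * l) := by
      rw [Fintype.sum_prod_type]
      refine Finset.sum_congr rfl fun j _ => Finset.sum_congr rfl fun l _ => ?_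
      have h1 := tb_exp k n r s l hn
      rw [← hN, ← hω] at h1
      dsimp only
      rw [h1.1, h1.2]
      ring
    rw [hFeq] at hz
    have hσ : v.embedding w = ∑ j : Fin J, ∑ l : Fin M, (p (j, l) : ℂ) * (N : ℂ) ^ (j : ℕ) *
        ω ^ (r * l) * Complex.exp (((r * l : ℕ) : ℂ) * lam) := by
      rw [hw]
      simp only [map_sum, map_mul, map_pow, map_intCast, map_natCast]
      refine Finset.sum_congr rfl fun j _ => Finset.sum_congr rfl fun l _ => ?_
      rw [hγ, mul_pow, mul_pow, Complex.exp_nat_mul, ← pow_mul, ← pow_mul]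
      ring
    have hdiff : ‖v.embedding w - ∑ j : Fin J, ∑ l : Fin M, (p (j, l) : ℂ) * (N : ℂ) ^ (j : ℕ) *
        ω ^ (r * l)‖ ≤ 2 * (J * M) * A * exp (-(2 * D * U)) := by
      rw [hσ, ← Finset.sum_sub_distrib]
      simp_rw [← Finset.sum_sub_distrib]
      have hterm : ∀ (j : Fin J) (l : Fin M), ‖(p (j, l) : ℂ) * (N : ℂ) ^ (j : ℕ) *
          ω ^ (r * l) * Complex.exp (((r * l : ℕ) : ℂ) * lam) -
          (p (j, l) : ℂ) * (N : ℂ) ^ (j : ℕ) * ω ^ (r * l)‖ ≤ 2 * A * exp (-(2 * D * U)) := by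
        intro j l
        have h1 : (p (j, l) : ℂ) * (N : ℂ) ^ (j : ℕ) *
          ω ^ (r * l) * Complex.exp (((r * l : ℕ) : ℂ) * lam) -
          (p (j, l) : ℂ) * (N : ℂ) ^ (j : ℕ) * ω ^ (r * l) =
          (p (j, l) : ℂ) * (N : ℂ) ^ (j : ℕ) * ω ^ (r * l) *
            (Complex.exp (((r * l : ℕ) : ℂ) * lam) - 1) := by ring
        have hl' : ((l : ℕ) : ℝ) ≤ M := by exact_mod_cast l.2.le
        have h2 : ‖((r * l : ℕ) : ℂ) * lam‖ ≤ exp (-(T : ℝ)) := by
          rw [norm_mul, Complex.norm_natCast]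
          refine le_trans ?_ hlam
          rw [mul_comm]
          refine mul_le_mul_of_nonneg_left ?_ (norm_nonneg _)
          push_cast
          gcongr
        have h3 : exp (-(T : ℝ)) ≤ 1 := by
          rw [Real.exp_le_one_iff]
          linarith
        have h4 := Complex.norm_exp_sub_one_le (h2.trans h3)
        rw [h1, norm_mul, norm_mul, norm_mul, norm_pow, norm_pow, hω1, one_pow, mul_one,
          Complex.norm_natCast, Complex.norm_intCast]
        calc |(p (j, l) : ℝ)| * (N : ℝ) ^ (j : ℕ) * ‖Complex.exp (((r * l : ℕ) : ℂ) * lam) - 1‖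
            ≤ exp U * A * (2 * exp (-(T : ℝ))) := by
              refine mul_le_mul (mul_le_mul (hpb _) ((hNj j).trans hA1) (by positivity)
                (by positivity)) (h4.trans (by linarith)) (norm_nonneg _) (by positivity)
          _ = 2 * A * (exp U * exp (-(T : ℝ))) := by ring
          _ = 2 * A * exp (-(2 * D * U)) := by
              rw [← Real.exp_add, hTU]
              congr 2
              ring
      calc ‖∑ j : Fin J, ∑ l : Fin M, ((p (j, l) : ℂ) * (N : ℂ) ^ (j : ℕ) *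
          ω ^ (r * l) * Complex.exp (((r * l : ℕ) : ℂ) * lam) -
          (p (j, l) : ℂ) * (N : ℂ) ^ (j : ℕ) * ω ^ (r * l))‖
          ≤ ∑ _j : Fin J, ∑ _l : Fin M, 2 * A * exp (-(2 * D * U)) :=
            (norm_sum_le _ _).trans (Finset.sum_le_sum fun j _ =>
              (norm_sum_le _ _).trans (Finset.sum_le_sum fun l _ => hterm j l))
        _ = _ := by
            simp only [Finset.sum_const, Finset.card_univ, Fintype.card_fin, nsmul_eq_mul]
            ring
    have hup : v w ≤ 20 * T * (J * M) * A * exp (-(2 * D * U)) := by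
      rw [← InfinitePlace.norm_embedding_eq v w]
      have h1 := norm_le_norm_sub_add (v.embedding w)
        (∑ j : Fin J, ∑ l : Fin M, (p (j, l) : ℂ) * (N : ℂ) ^ (j : ℕ) * ω ^ (r * l))
      have h2 : 18 * T * ((J * M : ℕ) : ℝ) * A * exp (-(((2 * D : ℕ) : ℝ) * U)) =
          18 * (T * (J * M) * A * exp (-(2 * D * U))) := by
        push_cast
        ring
      rw [h2] at hz
      have h3 : 2 * (J * M) * A * exp (-(2 * D * U)) ≤
          2 * (T * (J * M) * A * exp (-(2 * D * U))) := by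
        have h4 : 0 ≤ (J * M) * A * exp (-(2 * D * U)) := by positivity
        have h5 := mul_le_mul_of_nonneg_right hT' h4
        have h6 : T * ((J * M) * A * exp (-(2 * D * U))) = T * (J * M) * A * exp (-(2 * D * U)) := by
          ring
        rw [h6, one_mul] at h5
        linarith
      calc ‖v.embedding w‖ ≤ _ := h1
        _ ≤ 2 * (T * (J * M) * A * exp (-(2 * D * U))) +
            18 * (T * (J * M) * A * exp (-(2 * D * U))) := add_le_add (hdiff.trans h3) hz
        _ = _ := by ring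
    have hlow := exp_neg_height_le K w hne v
    have hlog := Real.log_le_log (Real.exp_pos _) (hlow.trans hup)
    have hlogA : log A = J * log (n * ρ * exp 1) + 2 * π * M * (ρ * exp 1) := by
      rw [hA, Real.log_mul (by positivity) (by positivity), Real.log_pow, Real.log_exp]
    rw [Real.log_exp, Real.log_mul (by positivity) (by positivity),
      Real.log_mul (by positivity) (by positivity), Real.log_exp, hlogA] at hlog
    linarith
  -- the zero estimate
  have hk0 : ∀ r r' s s' : ℕ, r < R2 → r' < R2 → r * k + s * n = r' * k + s' * n →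
      r = r' ∧ s = s' := by
    intro r r' s s' hr hr' h
    have h1 : (r : ℤ) * k + s * n = r' * k + s' * n := by exact_mod_cast h
    have h2 : (n : ℤ) ∣ ((r : ℤ) - r') * k := ⟨s' - s, by linarith⟩
    have h3 : (n : ℤ) ∣ (r : ℤ) - r' := by
      refine IsCoprime.dvd_of_dvd_mul_right ?_ h2
      rw [Nat.isCoprime_iff_coprime]
      exact hcop.symm
    have h4 : (r : ℤ) - r' = 0 := by
      refine Int.eq_zero_of_abs_lt_dvd h3 ?_
      rw [abs_lt]
      constructor <;> omega
    have h5 : r = r' := by omega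
    subst h5
    refine ⟨rfl, ?_⟩
    have h6 : s * n = s' * n := by omega
    exact Nat.eq_of_mul_eq_mul_right (by omega) h6
  set f : ℕ × ℕ → ℕ × K := fun q => (q.1, ((q.1 * k + q.2 * n : ℕ) : K)) with hf
  have hfinj : ∀ q ∈ (Finset.range R2 ×ˢ Finset.range S), ∀ q' ∈ (Finset.range R2 ×ˢ Finset.range S),
      (f q).2 = (f q').2 → q = q' := by
    intro q hq q' hq' h
    rw [Finset.mem_product, Finset.mem_range, Finset.mem_range] at hq hq'
    have h1 : (((q.1 * k + q.2 * n : ℕ)) : K) = ((q'.1 * k + q'.2 * n : ℕ) : K) := h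
    have h2 := hk0 q.1 q'.1 q.2 q'.2 hq.1 hq'.1 (by exact_mod_cast h1)
    exact Prod.ext h2.1 h2.2
  set Ω : Finset (ℕ × K) := (Finset.range R2 ×ˢ Finset.range S).image f with hΩ
  have hΩcard : Ω.card = J * M := by
    rw [hΩ, Finset.card_image_of_injOn, Finset.card_product, Finset.card_range, Finset.card_range,
      hRS]
    intro q hq q' hq' h
    exact hfinj q hq q' hq' (congrArg Prod.snd h)
  have hz := zero_est (K := K) J M g (k : K) hg0 (by
      intro i j hij
      by_contra hne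
      rcases lt_or_gt_of_ne (fun h => hne (Fin.ext h) : (i : ℕ) ≠ (j : ℕ)) with h | h
      · apply hg (j - i) (by omega)
        have h1 : g ^ ((j : ℕ) - i) * g ^ (i : ℕ) = g ^ (i : ℕ) := by
          rw [← pow_add, hij]
          congr 1
          omega
        have h2 := pow_ne_zero (i : ℕ) hg0
        exact mul_right_cancel₀ h2 (by rw [h1, one_mul])
      · apply hg (i - j) (by omega)
        have h1 : g ^ ((i : ℕ) - j) * g ^ (j : ℕ) = g ^ (j : ℕ) := by
          rw [← pow_add, ← hij]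
          congr 1
          omega
        have h2 := pow_ne_zero (j : ℕ) hg0
        exact mul_right_cancel₀ h2 (by rw [h1, one_mul]))
    (fun j l => (p (j, l) : K)) Ω (by
      intro q hq q' hq' h
      obtain ⟨t, ht, rfl⟩ := Finset.mem_image.1 (Finset.mem_coe.1 hq)
      obtain ⟨t', ht', rfl⟩ := Finset.mem_image.1 (Finset.mem_coe.1 hq')
      rw [hfinj t ht t' ht' h]) (by
      rw [hΩcard, mul_comm J M]
      exact Nat.mul_lt_mul_of_pos_left (by omega) (by omega)) (by
      intro q hq m hm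
      obtain ⟨t, ht, rfl⟩ := Finset.mem_image.1 hq
      rw [Finset.mem_product, Finset.mem_range, Finset.mem_range] at ht
      have h1 := key (t.1 + m) t.2 (by omega) ht.2
      rw [← h1]
      refine Finset.sum_congr rfl fun j _ => Finset.sum_congr rfl fun l _ => ?_
      rw [hf]
      dsimp only
      congr 3
      push_cast
      ring)
  apply hp0
  funext ⟨j, l⟩
  have h1 := congrFun (congrFun hz j) l
  simp only [Pi.zero_apply] at h1
  rw [Pi.zero_apply]
  exact_mod_cast h1

end Pool.Agent.LThree
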