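import Pool.Agent.LThree.TwoLogB

set_option autoImplicit false

/-! Linear forms `n log g - 2 π i k`: the lower bound. -/

namespace Pool.Agent.LThree

open NumberField Height Real Module

theorem tl_exists_c (a : ℝ) : ∃ c : ℕ, 1 ≤ c ∧ 576 * (7 + a + log c) ≤ c := by
  set c : ℕ := ⌈1152 * (7 + |a| + log 1152)⌉₊ + 1 with hc
  refine ⟨c, by omega, ?_⟩
  have h1 : 1152 * (7 + |a| + log 1152) ≤ (c : ℝ) := by
    rw [hc]
    push_cast
    have := Nat.le_ceil (1152 * (7 + |a| + log 1152))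
    linarith
  have hcpos : (0 : ℝ) < c := by
    have : 0 < c := by omega
    exact_mod_cast this
  have h2 : log ((c : ℝ) / 1152) ≤ c / 1152 - 1 := Real.log_le_sub_one_of_pos (by positivity)
  rw [Real.log_div hcpos.ne' (by norm_num)] at h2
  have h3 := le_abs_self a
  linarith

private theorem tl_two_pi_e : 2 * π * exp 1 ≤ 18 := by
  have h1 := Real.pi_lt_d2
  have h2 := Real.exp_one_lt_d9
  have h3 := Real.pi_pos
  have h4 := Real.exp_pos 1
  nlinarith

/-- The numerical inequality. -/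
theorem tl_main (H0 : ℝ) (hH0 : 1 ≤ H0) (D C1 c q n : ℕ) (hD : 1 ≤ D) (hn : 1 ≤ n)
    (hC1 : 72 * (22 + H0) + 1 ≤ (C1 : ℝ)) (hc1 : 1 ≤ c)
    (hc : 576 * (7 + log (6 * C1) + log c) ≤ (c : ℝ)) (hDq : D ≤ q) (hnq : log n ≤ (q : ℝ))
    (M R2 S J T : ℕ) (hM : M = c * q ^ 3) (hR2 : R2 = 2 * C1 * D ^ 2 * M)
    (hS : S = 3 * C1 * D ^ 2 * M) (hJ : J = 6 * C1 ^ 2 * D ^ 4 * M)
    (hT : T = J * M / (2 * (2 * D + 1))) (ρ U B : ℝ) (hρ : ρ = (M : ℝ) + R2 + S)
    (hU : U = T / (2 * D + 1)) (hB : B = J * exp U * (n * ρ) ^ J) :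
    1 ≤ T ∧ log (20 * T * (J * M)) + (J * log (n * ρ * exp 1) + 2 * π * M * (ρ * exp 1)) +
      (M * ((M + R2) * (H0 * D)) + D * (2 * log (M + 1) + log B)) < 2 * D * U := by
  have hq1 : 1 ≤ q := hD.trans hDq
  have hC1' : (1 : ℝ) ≤ C1 := by linarith
  have hC1n : 1 ≤ C1 := by exact_mod_cast hC1'
  have hM1 : 1 ≤ M := by
    rw [hM]
    exact Nat.one_le_iff_ne_zero.2 (by positivity)
  have hJ1 : 1 ≤ J := by
    rw [hJ]
    exact Nat.one_le_iff_ne_zero.2 (by positivity)
  have rD : (1 : ℝ) ≤ D := by exact_mod_cast hD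
  have rM : (1 : ℝ) ≤ M := by exact_mod_cast hM1
  have rJ : (1 : ℝ) ≤ J := by exact_mod_cast hJ1
  have rn : (1 : ℝ) ≤ n := by exact_mod_cast hn
  have rq : (1 : ℝ) ≤ q := by exact_mod_cast hq1
  have rc : (1 : ℝ) ≤ c := by exact_mod_cast hc1
  have rDq : (D : ℝ) ≤ q := by exact_mod_cast hDq
  have eM : (M : ℝ) = c * q ^ 3 := by rw [hM]; push_cast; ring
  have eR2 : (R2 : ℝ) = 2 * C1 * D ^ 2 * M := by rw [hR2]; push_cast; ring
  have eS : (S : ℝ) = 3 * C1 * D ^ 2 * M := by rw [hS]; push_cast; ring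
  have eJ : (J : ℝ) = 6 * C1 ^ 2 * D ^ 4 * M := by rw [hJ]; push_cast; ring
  have hD2 : (1 : ℝ) ≤ (D : ℝ) ^ 2 := one_le_pow₀ rD
  have hCD : (1 : ℝ) ≤ C1 * D ^ 2 := one_le_mul_of_one_le_of_one_le hC1' hD2
  -- ρ
  have hρle : ρ ≤ 6 * C1 * D ^ 2 * M := by
    rw [hρ, eR2, eS]
    have : (1 : ℝ) * M ≤ (C1 * D ^ 2) * M := mul_le_mul_of_nonneg_right hCD (by linarith)
    linarith
  have hρ1 : 1 ≤ ρ := by
    rw [hρ, eR2, eS]
    have : (0 : ℝ) ≤ C1 * D ^ 2 * M := by positivity
    linarith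
  have hMR : (M : ℝ) + R2 ≤ ρ := by
    rw [hρ]
    have : (0 : ℝ) ≤ S := Nat.cast_nonneg _
    linarith
  have hnρ1 : 1 ≤ n * ρ := one_le_mul_of_one_le_of_one_le rn hρ1
  -- W
  set W : ℝ := log (n * ρ * exp 1) with hW
  have hWeq : W = log (n * ρ) + 1 := by
    rw [hW, Real.log_mul (by positivity) (by positivity), Real.log_exp]
  have hlog0 : 0 ≤ log (n * ρ) := Real.log_nonneg hnρ1
  have hW1 : 1 ≤ W := by linarith
  have hlogx : ∀ x : ℝ, 1 ≤ x → log x ≤ x := fun x hx =>
    (Real.log_le_sub_one_of_pos (by linarith)).trans (by linarith)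
  have hWM : 576 * D ^ 2 * W ≤ M := by
    have h1 : log (n * ρ) ≤ q + (log (6 * C1) + (2 * q + (log c + 3 * q))) := by
      calc log (n * ρ) ≤ log (n * (6 * C1 * D ^ 2 * M)) := by
            apply Real.log_le_log (by positivity)
            gcongr
        _ = log n + (log (6 * C1) + (2 * log D + (log c + 3 * log q))) := by
            rw [eM]
            have e1 : (n : ℝ) * (6 * C1 * D ^ 2 * (c * q ^ 3)) =
              n * ((6 * C1) * (D ^ 2 * (c * q ^ 3))) := by ring
            have l1 : log ((n : ℝ) * ((6 * C1) * (D ^ 2 * (c * q ^ 3)))) =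
              log n + log ((6 * C1) * ((D : ℝ) ^ 2 * (c * q ^ 3))) :=
              Real.log_mul (by positivity) (by positivity)
            have l2 : log ((6 * C1) * ((D : ℝ) ^ 2 * (c * q ^ 3))) =
              log (6 * C1) + log ((D : ℝ) ^ 2 * (c * q ^ 3)) :=
              Real.log_mul (by positivity) (by positivity)
            have l3 : log ((D : ℝ) ^ 2 * (c * q ^ 3)) = 2 * log D + (log c + 3 * log q) := by
              rw [Real.log_mul (by positivity) (by positivity),
                Real.log_mul (by positivity) (by positivity), Real.log_pow, Real.log_pow]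
              push_cast
              ring
            rw [e1, l1, l2, l3]
        _ ≤ _ := by
            have := hlogx D rD
            have := hlogx q rq
            gcongr
            linarith
    have h2 : 0 ≤ log (6 * C1) := Real.log_nonneg (by linarith)
    have h3 : 0 ≤ log (c : ℝ) := Real.log_nonneg rc
    have h4 : W ≤ (7 + log (6 * C1) + log c) * q := by
      rw [hWeq]
      have h5 : log (6 * C1) * 1 ≤ log (6 * C1) * q := mul_le_mul_of_nonneg_left rq h2
      have h6 : log (c : ℝ) * 1 ≤ log (c : ℝ) * q := mul_le_mul_of_nonneg_left rq h3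
      have h7 : (7 + log (6 * C1) + log c) * q = 7 * q + log (6 * C1) * q + log (c : ℝ) * q := by
        ring
      rw [h7]
      linarith
    calc 576 * (D : ℝ) ^ 2 * W ≤ 576 * (q : ℝ) ^ 2 * ((7 + log (6 * C1) + log c) * q) := by
          gcongr
      _ = (576 * (7 + log (6 * C1) + log c)) * q ^ 3 := by ring
      _ ≤ c * q ^ 3 := by gcongr
      _ = M := eM.symm
  have hJρ : 72 * (22 + H0) * D ^ 2 * ρ < J := by
    have h0 : 0 < (D : ℝ) ^ 2 * ρ := by positivity
    calc 72 * (22 + H0) * D ^ 2 * ρ = (72 * (22 + H0)) * (D ^ 2 * ρ) := by ring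
      _ < C1 * (D ^ 2 * ρ) := mul_lt_mul_of_pos_right (by linarith) h0
      _ ≤ C1 * (D ^ 2 * (6 * C1 * D ^ 2 * M)) := by gcongr
      _ = J := by rw [eJ]; ring
  -- T
  have hTle : 2 * T * (2 * D + 1) ≤ J * M := by
    have := Nat.div_mul_le_self (J * M) (2 * (2 * D + 1))
    rw [← hT] at this
    calc 2 * T * (2 * D + 1) = T * (2 * (2 * D + 1)) := by ring
      _ ≤ _ := this
  have hMbig : 576 ≤ (M : ℝ) := by
    refine le_trans ?_ hWM
    calc (576 : ℝ) = 576 * 1 * 1 := by norm_num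
      _ ≤ 576 * (D : ℝ) ^ 2 * W := by gcongr
  have hJbig : (D : ℝ) ≤ J := by
    rw [eJ]
    have h4 : (D : ℝ) ≤ D ^ 4 := le_self_pow₀ rD (by norm_num)
    have h5 : (1 : ℝ) ≤ 6 * C1 ^ 2 * M :=
      one_le_mul_of_one_le_of_one_le (one_le_mul_of_one_le_of_one_le (by norm_num)
        (one_le_pow₀ hC1')) rM
    calc (D : ℝ) ≤ D ^ 4 := h4
      _ = 1 * D ^ 4 := by ring
      _ ≤ (6 * C1 ^ 2 * M) * D ^ 4 := mul_le_mul_of_nonneg_right h5 (by positivity)
      _ = _ := by ring
  have hTge : (J : ℝ) * M ≤ 12 * D * T := by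
    have h1 : J * M < (T + 1) * (2 * (2 * D + 1)) := by
      rw [hT]
      have := Nat.lt_div_mul_add (a := J * M) (b := 2 * (2 * D + 1)) (by omega)
      calc J * M < J * M / (2 * (2 * D + 1)) * (2 * (2 * D + 1)) + 2 * (2 * D + 1) := this
        _ = _ := by ring
    have h2 : (J : ℝ) * M < (T + 1) * (2 * (2 * D + 1)) := by exact_mod_cast h1
    have h3 : (12 * D : ℝ) * 48 ≤ J * M := by
      calc (12 * D : ℝ) * 48 = D * 576 := by ring
        _ ≤ J * M := by gcongr
    have h4 : (2 : ℝ) * (2 * D + 1) ≤ 6 * D := by linarith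
    have h5 : ((T : ℝ) + 1) * (2 * (2 * D + 1)) ≤ (T + 1) * (6 * D) := by gcongr
    have h6 : ((T : ℝ) + 1) * (6 * D) = 6 * (D * T) + 6 * D := by ring
    rw [h6] at h5
    have h7 : (12 : ℝ) * D * T = 12 * (D * T) := by ring
    rw [h7]
    linarith
  have hT1 : 1 ≤ T := by
    by_contra hcon
    have h0 : T = 0 := by omega
    rw [h0] at hTge
    have : (1 : ℝ) ≤ J * M := one_le_mul_of_one_le_of_one_le rJ rM
    simp only [Nat.cast_zero, mul_zero] at hTge
    linarith
  refine ⟨hT1, ?_⟩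
  have rT : (1 : ℝ) ≤ T := by exact_mod_cast hT1
  have hTJM : (T : ℝ) ≤ J * M := by
    have h1 : T ≤ J * M := by
      calc T = T * 1 := by ring
        _ ≤ T * (2 * (2 * D + 1)) := Nat.mul_le_mul_left _ (by omega)
        _ = 2 * T * (2 * D + 1) := by ring
        _ ≤ _ := hTle
    exact_mod_cast h1
  -- U
  have hDU : (J : ℝ) * M ≤ 36 * D * (D * U) := by
    have h1 : (T : ℝ) ≤ 3 * D * U := by
      rw [hU]
      have h2 : (T : ℝ) = (2 * D + 1) * (T / (2 * D + 1)) := by field_simp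
      have h3 : (0 : ℝ) ≤ T / (2 * D + 1) := by positivity
      calc (T : ℝ) = (2 * D + 1) * (T / (2 * D + 1)) := h2
        _ ≤ (3 * D) * (T / (2 * D + 1)) := by
          apply mul_le_mul_of_nonneg_right _ h3
          linarith
    calc (J : ℝ) * M ≤ 12 * D * T := hTge
      _ ≤ 12 * D * (3 * D * U) := by gcongr
      _ = _ := by ring
  have hlogB : log B = log J + U + J * log (n * ρ) := by
    rw [hB, Real.log_mul (by positivity) (by positivity), Real.log_mul (by positivity)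
      (by positivity), Real.log_exp, Real.log_pow]
  have hlogJ : log (J : ℝ) ≤ J := hlogx J rJ
  have hlogM : log (M : ℝ) ≤ M := hlogx M rM
  have hlogM1 : log ((M : ℝ) + 1) ≤ M := by
    have := Real.log_le_sub_one_of_pos (show (0 : ℝ) < (M : ℝ) + 1 by linarith)
    linarith
  have hlog20 : log (20 : ℝ) ≤ 3 := by
    rw [Real.log_le_iff_le_exp (by norm_num)]
    have h3 := Real.exp_one_gt_d9
    have h4 : exp (3 : ℝ) = exp 1 ^ 3 := by
      rw [← Real.exp_nat_mul]
      norm_num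
    rw [h4]
    have h5 : (2.718 : ℝ) ^ 3 ≤ exp 1 ^ 3 := pow_le_pow_left₀ (by norm_num) (by linarith) 3
    linarith [show (20 : ℝ) ≤ 2.718 ^ 3 by norm_num]
  have hlogT : log (20 * T * (J * M)) ≤ 3 + 2 * J + 2 * M := by
    have h1 : log (T : ℝ) ≤ log J + log M := by
      rw [← Real.log_mul (by positivity) (by positivity)]
      exact Real.log_le_log (by positivity) hTJM
    rw [Real.log_mul (by positivity) (by positivity), Real.log_mul (by positivity) (by positivity),
      Real.log_mul (by positivity) (by positivity)]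
    linarith
  -- the sum
  have hJW : (J : ℝ) ≤ J * W := le_mul_of_one_le_right (by linarith) hW1
  have hJW1 : (1 : ℝ) ≤ J * W := one_le_mul_of_one_le_of_one_le rJ hW1
  have t1 : log (20 * T * (J * M)) ≤ 5 * (J * W) + 2 * M := by linarith
  have t2 : 2 * π * M * (ρ * exp 1) ≤ 18 * (M * ρ) := by
    have h1 : 0 ≤ (M : ℝ) * ρ := by positivity
    calc 2 * π * M * (ρ * exp 1) = (2 * π * exp 1) * (M * ρ) := by ring
      _ ≤ 18 * (M * ρ) := mul_le_mul_of_nonneg_right tl_two_pi_e h1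
  have t3 : (M : ℝ) * ((M + R2) * (H0 * D)) ≤ H0 * D * (M * ρ) := by
    calc (M : ℝ) * ((M + R2) * (H0 * D)) ≤ M * (ρ * (H0 * D)) := by gcongr
      _ = _ := by ring
  have t4 : (D : ℝ) * (2 * log (M + 1) + log B) ≤ 2 * D * M + D * (J * W) + D * U +
      D * (J * W) := by
    rw [hlogB]
    have h1 : log (n * ρ) ≤ W := by linarith
    have h2 : (J : ℝ) * log (n * ρ) ≤ J * W := by gcongr
    have h3 : 2 * log ((M : ℝ) + 1) + (log J + U + J * log (n * ρ)) ≤
        2 * M + J * W + U + J * W := by linarith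
    calc (D : ℝ) * (2 * log (M + 1) + (log J + U + J * log (n * ρ))) ≤
        D * (2 * M + J * W + U + J * W) := by gcongr
      _ = _ := by ring
  have s1 : 5 * (J * W) + J * W + D * (J * W) + D * (J * W) ≤ 8 * (D * (J * W)) := by
    have h1 : 1 * ((J : ℝ) * W) ≤ D * (J * W) := mul_le_mul_of_nonneg_right rD (by linarith)
    linarith
  have s2 : 2 * (M : ℝ) + 18 * (M * ρ) + H0 * D * (M * ρ) + 2 * D * M ≤
      (22 + H0) * D * (M * ρ) := by
    have h1 : (M : ℝ) ≤ D * (M * ρ) := by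
      calc (M : ℝ) = 1 * (M * 1) := by ring
        _ ≤ D * (M * ρ) := by gcongr
    have h2 : (M : ℝ) * ρ ≤ D * (M * ρ) := by
      have h0 : 0 ≤ (M : ℝ) * ρ := by positivity
      exact le_mul_of_one_le_left h0 rD
    have h3 : (D : ℝ) * M ≤ D * (M * ρ) := by
      calc (D : ℝ) * M = D * (M * 1) := by ring
        _ ≤ D * (M * ρ) := by gcongr
    linarith
  have s3 : 8 * ((D : ℝ) * (J * W)) + (22 + H0) * D * (M * ρ) < D * U := by
    have h1 : 288 * (D : ℝ) ^ 2 * (J * W) ≤ J * M / 2 := by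
      have : (J : ℝ) * (576 * D ^ 2 * W) ≤ J * M := mul_le_mul_of_nonneg_left hWM (by linarith)
      linarith
    have h2 : 36 * (22 + H0) * (D : ℝ) ^ 2 * (M * ρ) < J * M / 2 := by
      have : (M : ℝ) * (72 * (22 + H0) * D ^ 2 * ρ) < M * J :=
        mul_lt_mul_of_pos_left hJρ (by linarith)
      linarith
    have h3 : 36 * (D : ℝ) * (8 * (D * (J * W)) + (22 + H0) * D * (M * ρ)) < 36 * D * (D * U) := by
      calc 36 * (D : ℝ) * (8 * (D * (J * W)) + (22 + H0) * D * (M * ρ)) =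
          288 * (D : ℝ) ^ 2 * (J * W) + 36 * (22 + H0) * (D : ℝ) ^ 2 * (M * ρ) := by ring
        _ < J * M / 2 + J * M / 2 := by linarith
        _ = J * M := by ring
        _ ≤ _ := hDU
    exact lt_of_mul_lt_mul_left h3 (by positivity)
  have t5 : (J : ℝ) * log (n * ρ * exp 1) = J * W := rfl
  linarith

end Pool.Agent.LThree
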